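import Mathlib

/-!
# Entropy of functions on finite sets, by counting

`fc S f x` is the number of the elements of `S` with the same value of `f` as `x`, and `h S f` is the
Shannon entropy of `f (x)` for a uniformly distributed element `x` of `S`.
-/

set_option autoImplicit false

namespace Pool.Agent.Helper63.SD.PE

open Finset
open scoped Classical

variable {α β γ δ : Type*}

/-- the class of `x` -/
noncomputable def cl (S : Finset α) (f : α → β) (x : α) : Finset α := S.filter fun y => f y = f x

/-- the number of elements of the class of `x` -/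
noncomputable def fc (S : Finset α) (f : α → β) (x : α) : ℕ := (cl S f x).card

/-- the entropy of `f` on `S` -/
noncomputable def h (S : Finset α) (f : α → β) : ℝ :=
  (∑ x ∈ S, (Real.log S.card - Real.log (fc S f x))) / S.card

lemma mem_cl {S : Finset α} {f : α → β} {x y : α} : y ∈ cl S f x ↔ y ∈ S ∧ f y = f x := by
  simp [cl]

lemma fc_pos {S : Finset α} {f : α → β} {x : α} (hx : x ∈ S) : 0 < fc S f x :=
  card_pos.2 ⟨x, mem_cl.2 ⟨hx, rfl⟩⟩

lemma fc_posR {S : Finset α} {f : α → β} {x : α} (hx : x ∈ S) : (0 : ℝ) < fc S f x := by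
  exact_mod_cast fc_pos hx

lemma fc_le {S : Finset α} {f : α → β} {x : α} : fc S f x ≤ S.card :=
  card_le_card (filter_subset _ _)

lemma cl_congr {S : Finset α} {f : α → β} {x y : α} (hxy : f x = f y) : cl S f x = cl S f y := by
  unfold cl
  rw [hxy]

lemma fc_congr {S : Finset α} {f : α → β} {x y : α} (hxy : f x = f y) : fc S f x = fc S f y := by
  unfold fc
  rw [cl_congr hxy]

lemma cl_eq_of_iff {S : Finset α} {f : α → β} {g : α → γ} (hfg : ∀ x ∈ S, ∀ y ∈ S,
    (f x = f y ↔ g x = g y)) {x : α} (hx : x ∈ S) : cl S f x = cl S g x := by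
  ext y
  rw [mem_cl, mem_cl]
  constructor
  · rintro ⟨h1, h2⟩
    exact ⟨h1, (hfg y h1 x hx).1 h2⟩
  · rintro ⟨h1, h2⟩
    exact ⟨h1, (hfg y h1 x hx).2 h2⟩

lemma h_congr {S : Finset α} {f : α → β} {g : α → γ} (hfg : ∀ x ∈ S, ∀ y ∈ S,
    (f x = f y ↔ g x = g y)) : h S f = h S g := by
  unfold h
  congr 1
  refine sum_congr rfl fun x hx => ?_
  unfold fc
  rw [cl_eq_of_iff hfg hx]

lemma h_nonneg (S : Finset α) (f : α → β) : 0 ≤ h S f := by
  unfold h
  refine div_nonneg (sum_nonneg fun x hx => ?_) (by positivity)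
  have h1 : (fc S f x : ℝ) ≤ S.card := by exact_mod_cast fc_le
  have h2 := Real.log_le_log (fc_posR hx) h1
  linarith

lemma h_const (S : Finset α) (f : α → β) (hf : ∀ x ∈ S, ∀ y ∈ S, f x = f y) : h S f = 0 := by
  unfold h
  rw [sum_eq_zero, zero_div]
  intro x hx
  have : cl S f x = S := by
    ext y
    rw [mem_cl]
    exact ⟨fun h1 => h1.1, fun h1 => ⟨h1, hf y h1 x hx⟩⟩
  unfold fc
  rw [this]
  ring

/-- sums over the classes with the weight of the inverse size -/
lemma avg_cl (S : Finset α) (f : α → β) (F : α → ℝ) :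
    ∑ x ∈ S, (∑ y ∈ cl S f x, F y) / fc S f x = ∑ y ∈ S, F y := by
  have h1 : ∀ x ∈ S, (∑ y ∈ cl S f x, F y) / fc S f x =
      ∑ y ∈ S, if f y = f x then F y / fc S f y else 0 := by
    intro x hx
    rw [sum_div, cl, sum_filter]
    refine sum_congr rfl fun y hy => ?_
    split_ifs with h2
    · rw [fc_congr h2]
    · rfl
  rw [sum_congr rfl h1, sum_comm]
  refine sum_congr rfl fun y hy => ?_
  have h2 : ∑ x ∈ S, (if f y = f x then F y / (fc S f y : ℝ) else 0) =
      (cl S f y).card • (F y / (fc S f y : ℝ)) := by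
    rw [← sum_filter, sum_const]
    congr 2
    unfold cl
    ext x
    simp only [mem_filter]
    exact ⟨fun h3 => ⟨h3.1, h3.2.symm⟩, fun h3 => ⟨h3.1, h3.2.symm⟩⟩
  rw [h2, nsmul_eq_mul]
  have h3 := fc_posR (f := f) hy
  change (fc S f y : ℝ) * _ = _
  field_simp

lemma sum_inv_le (S : Finset α) (f : α → β) (T : Finset α) (hT : T ⊆ S)
    (hf : ∀ x ∈ T, ∀ y ∈ T, f x = f y) : ∑ x ∈ T, (1 : ℝ) / fc S f x ≤ 1 := by
  rcases T.eq_empty_or_nonempty with h0 | ⟨x0, hx0⟩
  · rw [h0]; simp
  · have h1 : ∀ x ∈ T, (1 : ℝ) / fc S f x = 1 / fc S f x0 := by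
      intro x hx
      rw [fc_congr (hf x hx x0 hx0)]
    rw [sum_congr rfl h1, sum_const, nsmul_eq_mul]
    have h2 : (T.card : ℝ) ≤ fc S f x0 := by
      have : T ⊆ cl S f x0 := fun x hx => mem_cl.2 ⟨hT hx, hf x hx x0 hx0⟩
      exact_mod_cast card_le_card this
    have h3 := fc_posR (f := f) (hT hx0)
    rw [mul_one_div, div_le_one h3]
    exact h2

lemma sum_inv_fc_fiber (S : Finset α) (f : α → β) (b : β) :
    ∑ x ∈ S.filter (fun x => f x = b), (1 : ℝ) / fc S f x ≤ 1 := by
  refine sum_inv_le S f _ (filter_subset _ _) ?_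
  intro x hx y hy
  rw [mem_filter] at hx hy
  exact hx.2.trans hy.2.symm

/-- the number of values is the sum of the inverse class sizes -/
lemma sum_inv_fc (S : Finset α) (f : α → β) :
    ∑ x ∈ S, (1 : ℝ) / fc S f x ≤ (S.image f).card := by
  rw [← sum_fiberwise_of_maps_to (fun x hx => mem_image_of_mem f hx)]
  calc ∑ b ∈ S.image f, ∑ x ∈ S.filter (fun x => f x = b), (1 : ℝ) / fc S f x
      ≤ ∑ b ∈ S.image f, (1 : ℝ) := sum_le_sum fun b _ => sum_inv_fc_fiber S f b
    _ = _ := by simp

/-- the entropy is at most the logarithm of the number of values -/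
lemma h_le_log {S : Finset α} (hS : S.Nonempty) (f : α → β) :
    h S f ≤ Real.log (S.image f).card := by
  have hc : (0 : ℝ) < S.card := by exact_mod_cast card_pos.2 hS
  have hN : (0 : ℝ) < (S.image f).card := by exact_mod_cast card_pos.2 (hS.image f)
  unfold h
  rw [div_le_iff₀ hc]
  have h1 : ∀ x ∈ S, Real.log S.card - Real.log (fc S f x) ≤
      Real.log (S.image f).card + (S.card / (S.image f).card * (1 / fc S f x) - 1) := by
    intro x hx
    have h2 := fc_posR (f := f) hx
    have h3 : (0 : ℝ) < S.card / (S.image f).card * (1 / fc S f x) := by positivity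
    have h4 := Real.log_le_sub_one_of_pos h3
    have h5 : Real.log (S.card / (S.image f).card * (1 / fc S f x)) =
        Real.log S.card - Real.log (S.image f).card - Real.log (fc S f x) := by
      rw [Real.log_mul (by positivity) (by positivity), Real.log_div hc.ne' hN.ne',
        Real.log_div one_ne_zero h2.ne', Real.log_one]
      ring
    linarith
  refine (sum_le_sum h1).trans ?_
  rw [sum_add_distrib, sum_sub_distrib, ← mul_sum, sum_const, sum_const, nsmul_eq_mul,
    nsmul_eq_mul, mul_one]
  have h6 := mul_le_mul_of_nonneg_left (sum_inv_fc S f)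
    (show (0 : ℝ) ≤ S.card / (S.image f).card by positivity)
  have h7 : (S.card : ℝ) / (S.image f).card * (S.image f).card = S.card := by
    field_simp
  rw [h7] at h6
  linarith

/-- **Gibbs' inequality**: weights with fibre sums at most one -/
lemma gibbs (S : Finset α) (z : α → β) (w : α → ℝ) (hw : ∀ x ∈ S, 0 < w x)
    (h1 : ∀ x ∈ S, ∑ y ∈ cl S z x, w y ≤ 1) :
    ∑ x ∈ S, Real.log (fc S z x) ≤ ∑ x ∈ S, -Real.log (w x) := by
  have h2 : ∀ x ∈ S, Real.log (fc S z x) ≤ -Real.log (w x) + ((fc S z x : ℝ) * w x - 1) := by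
    intro x hx
    have h3 := fc_posR (f := z) hx
    have h4 := Real.log_le_sub_one_of_pos (mul_pos h3 (hw x hx))
    rw [Real.log_mul h3.ne' (hw x hx).ne'] at h4
    linarith
  refine (sum_le_sum h2).trans ?_
  rw [sum_add_distrib, sum_sub_distrib, sum_const, nsmul_eq_mul, mul_one]
  have h5 : ∑ x ∈ S, (fc S z x : ℝ) * w x = ∑ x ∈ S, ∑ y ∈ cl S z x, w y := by
    have e1 : ∀ x ∈ S, (fc S z x : ℝ) * w x = ∑ y ∈ S, if z y = z x then w x else 0 := by
      intro x hx
      rw [← sum_filter, sum_const, nsmul_eq_mul]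
      rfl
    have e2 : ∀ x ∈ S, ∑ y ∈ cl S z x, w y = ∑ y ∈ S, if z y = z x then w y else 0 := by
      intro x hx
      rw [← sum_filter]
      rfl
    rw [sum_congr rfl e1, sum_congr rfl e2, sum_comm]
    refine sum_congr rfl fun x hx => sum_congr rfl fun y hy => ?_
    by_cases hxy : z x = z y
    · rw [if_pos hxy, if_pos hxy.symm]
    · rw [if_neg hxy, if_neg (Ne.symm hxy)]
  have h6 : ∑ x ∈ S, ∑ y ∈ cl S z x, w y ≤ ∑ x ∈ S, (1 : ℝ) := sum_le_sum h1
  rw [sum_const, nsmul_eq_mul, mul_one] at h6
  rw [h5]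
  linarith

/-- **Submodularity**: conditioning on the finer function `g` instead of `f` does not increase the
conditional entropy of `k`. -/
lemma submod (S : Finset α) (f : α → β) (g : α → γ) (k : α → δ)
    (hgf : ∀ x ∈ S, ∀ y ∈ S, g x = g y → f x = f y) :
    h S (fun x => (g x, k x)) - h S g ≤ h S (fun x => (f x, k x)) - h S f := by
  have key : ∑ x ∈ S, Real.log (fc S (fun x => (f x, k x)) x) ≤
      ∑ x ∈ S, -Real.log ((fc S g x : ℝ) / (fc S f x * fc S (fun x => (g x, k x)) x)) := by
    refine gibbs S _ _ (fun x hx => ?_) (fun x hx => ?_)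
    · have a1 := fc_posR (f := f) hx
      have a2 := fc_posR (f := g) hx
      have a3 := fc_posR (f := fun x => (g x, k x)) hx
      positivity
    · have a1 := fc_posR (f := f) hx
      have e1 : ∀ y ∈ cl S (fun x => (f x, k x)) x,
          (fc S g y : ℝ) / (fc S f y * fc S (fun x => (g x, k x)) y) =
          (1 / fc S f x) * ∑ u ∈ cl S f x, if g u = g y then
            (1 : ℝ) / fc S (fun x => (g x, k x)) y else 0 := by
        intro y hy
        rw [mem_cl, Prod.mk.injEq] at hy
        obtain ⟨hyS, hyf, hyk⟩ := hy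
        rw [fc_congr hyf, ← sum_filter, sum_const, nsmul_eq_mul]
        have e2 : (cl S f x).filter (fun u => g u = g y) = cl S g y := by
          ext u
          rw [mem_filter, mem_cl, mem_cl]
          constructor
          · rintro ⟨⟨c1, _⟩, c2⟩
            exact ⟨c1, c2⟩
          · rintro ⟨c1, c2⟩
            exact ⟨⟨c1, (hgf u c1 y hyS c2).trans hyf⟩, c2⟩
        rw [e2]
        change _ = 1 / (fc S f x : ℝ) * ((fc S g y : ℝ) * (1 / _))
        rw [div_mul_eq_div_div]
        ring
      rw [sum_congr rfl e1, ← mul_sum, sum_comm]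
      have e3 : ∀ u ∈ cl S f x, ∑ y ∈ cl S (fun x => (f x, k x)) x,
          (if g u = g y then (1 : ℝ) / fc S (fun x => (g x, k x)) y else 0) ≤ 1 := by
        intro u hu
        rw [← sum_filter]
        refine sum_inv_le S (fun x => (g x, k x)) _ ?_ ?_
        · intro y hy
          rw [mem_filter, mem_cl] at hy
          exact hy.1.1
        · intro y hy y' hy'
          rw [mem_filter, mem_cl, Prod.mk.injEq] at hy hy'
          rw [Prod.mk.injEq]
          exact ⟨hy.2.symm.trans hy'.2, hy.1.2.2.trans hy'.1.2.2.symm⟩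
      have e4 := sum_le_sum e3
      rw [sum_const, nsmul_eq_mul, mul_one] at e4
      calc 1 / (fc S f x : ℝ) * _ ≤ 1 / (fc S f x : ℝ) * fc S f x :=
            mul_le_mul_of_nonneg_left e4 (by positivity)
        _ = 1 := by rw [one_div_mul_cancel a1.ne']
  have e5 : ∀ x ∈ S, -Real.log ((fc S g x : ℝ) / (fc S f x * fc S (fun x => (g x, k x)) x)) =
      Real.log (fc S f x) + Real.log (fc S (fun x => (g x, k x)) x) - Real.log (fc S g x) := by
    intro x hx
    have a1 := fc_posR (f := f) hx
    have a2 := fc_posR (f := g) hx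
    have a3 := fc_posR (f := fun x => (g x, k x)) hx
    rw [Real.log_div a2.ne' (by positivity), Real.log_mul a1.ne' a3.ne']
    ring
  rw [sum_congr rfl e5, sum_sub_distrib, sum_add_distrib] at key
  unfold h
  rw [← sub_div, ← sub_div]
  refine div_le_div_of_nonneg_right ?_ (by positivity)
  simp only [sum_sub_distrib]
  linarith

/-- **Chain rule**: the conditional entropy is the mean of the entropies on the classes. -/
lemma chain (S : Finset α) (f : α → β) (g : α → γ) :
    h S (fun x => (f x, g x)) - h S f = (∑ x ∈ S, h (cl S f x) g) / S.card := by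
  have e1 : ∀ x ∈ S, h (cl S f x) g = (∑ y ∈ cl S f x,
      (Real.log (fc S f y) - Real.log (fc S (fun x => (f x, g x)) y))) / fc S f x := by
    intro x hx
    unfold h
    change _ / (fc S f x : ℝ) = _
    congr 1
    refine sum_congr rfl fun y hy => ?_
    rw [mem_cl] at hy
    have e2 : cl (cl S f x) g y = cl S (fun x => (f x, g x)) y := by
      ext u
      rw [mem_cl, mem_cl, mem_cl, Prod.mk.injEq, hy.2]
      tauto
    have e3 : fc (cl S f x) g y = fc S (fun x => (f x, g x)) y := by
      unfold fc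
      rw [e2]
    rw [e3]
    change Real.log (fc S f x : ℝ) - _ = _
    rw [fc_congr hy.2]
  rw [sum_congr rfl e1, avg_cl S f fun y => (Real.log (fc S f y) -
    Real.log (fc S (fun x => (f x, g x)) y))]
  unfold h
  rw [← sub_div]
  congr 1
  simp only [sum_sub_distrib]
  ring

end Pool.Agent.Helper63.SD.PE
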