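import Mathlib

/-!
Residue classes of finite sets of integers, the largest classes, dyadic selections.
-/

set_option autoImplicit false

namespace Pool.Agent.Helper63.SD

open Finset
open scoped Pointwise Classical

/-- the elements of `X` congruent to `t` modulo `Q` -/
def cls (Q : ℤ) (X : Finset ℤ) (t : ℤ) : Finset ℤ := X.filter fun x => Q ∣ x - t

/-- the dilate `d X` -/
def dil (d : ℤ) (X : Finset ℤ) : Finset ℤ := X.image fun x => d * x



namespace Sel

lemma cls_eq {Q : ℤ} {X : Finset ℤ} {x y : ℤ} (h : Q ∣ y - x) : cls Q X y = cls Q X x := by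
  unfold cls
  refine filter_congr fun z _ => ?_
  have e1 : z - x = (z - y) + (y - x) := by ring
  have e2 : z - y = (z - x) - (y - x) := by ring
  constructor
  · intro h1; rw [e1]; exact dvd_add h1 h
  · intro h1; rw [e2]; exact dvd_sub h1 h

lemma mem_cls_self {Q : ℤ} {X : Finset ℤ} {x : ℤ} (hx : x ∈ X) : x ∈ cls Q X x := by
  unfold cls
  rw [mem_filter]
  exact ⟨hx, by simp⟩

/-- the dyadic index of the class -/
def idx (Q : ℤ) (X : Finset ℤ) (x : ℤ) : ℕ := Nat.log 2 (X.card / (cls Q X x).card)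

lemma idx_spec {Q : ℤ} {X : Finset ℤ} {x : ℤ} (hx : x ∈ X) :
    X.card ≤ 2 ^ (idx Q X x + 1) * (cls Q X x).card ∧
      2 ^ idx Q X x * (cls Q X x).card ≤ X.card := by
  have hc : 0 < (cls Q X x).card := card_pos.2 ⟨x, mem_cls_self hx⟩
  have hle : (cls Q X x).card ≤ X.card := card_le_card (filter_subset _ _)
  have hq : X.card / (cls Q X x).card ≠ 0 := (Nat.div_pos hle hc).ne'
  constructor
  · have h1 := Nat.lt_pow_succ_log_self (b := 2) (by norm_num) (X.card / (cls Q X x).card)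
    have h2 := (Nat.div_lt_iff_lt_mul hc).1 h1
    exact h2.le
  · have h1 := Nat.pow_log_le_self 2 hq
    exact (Nat.le_div_iff_mul_le hc).1 h1

lemma telescope (n : ℕ) : ∑ i ∈ range n, (1 : ℝ) / ((i + 1) * (i + 2)) = 1 - 1 / (n + 1) := by
  induction n with
  | zero => simp
  | succ n ih =>
    rw [sum_range_succ, ih]
    push_cast
    field_simp
    ring

end Sel

open Sel

theorem sel (Q : ℤ) (X : Finset ℤ) (hX : X.Nonempty) :
    ∃ (i : ℕ) (T : Finset ℤ), T ⊆ X ∧ T.Nonempty ∧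
      (∀ t ∈ T, ∀ t' ∈ T, Q ∣ t - t' → t = t') ∧
      (∀ t ∈ T, X.card ≤ 2 ^ (i + 1) * (cls Q X t).card ∧ 2 ^ i * (cls Q X t).card ≤ X.card) ∧
      2 ^ i ≤ T.card * ((i + 1) * (i + 2)) := by
  have hXc : 0 < X.card := card_pos.2 hX
  obtain ⟨i, hi0, hi⟩ : ∃ i, (X.filter fun x => idx Q X x = i).Nonempty ∧
      X.card ≤ (X.filter fun x => idx Q X x = i).card * ((i + 1) * (i + 2)) := by
    by_contra hcon
    push Not at hcon
    have h1 : ∀ i, (((X.filter fun x => idx Q X x = i).card : ℕ) : ℝ) ≤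
        X.card * (1 / (((i : ℝ) + 1) * (i + 2))) := by
      intro i
      rcases (X.filter fun x => idx Q X x = i).eq_empty_or_nonempty with h | h
      · rw [h, card_empty, Nat.cast_zero]; positivity
      · have h2 := hcon i h
        have h3 : (((X.filter fun x => idx Q X x = i).card : ℕ) : ℝ) *
            (((i : ℝ) + 1) * (i + 2)) ≤ X.card := by exact_mod_cast h2.le
        rw [mul_one_div, le_div_iff₀ (by positivity)]
        exact h3
    set n := X.sup (idx Q X) + 1 with hn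
    have h2 : X.card = ∑ i ∈ range n, (X.filter fun x => idx Q X x = i).card := by
      refine card_eq_sum_card_fiberwise ?_
      intro x hx
      have := le_sup (f := idx Q X) hx
      simp only [coe_range, Set.mem_Iio, hn]
      omega
    have h3 : (X.card : ℝ) ≤ X.card * (1 - 1 / ((n : ℝ) + 1)) := by
      have h4 : (X.card : ℝ) = ∑ i ∈ range n, ((X.filter fun x => idx Q X x = i).card : ℝ) := by
        exact_mod_cast h2
      rw [← telescope n, mul_sum]
      conv_lhs => rw [h4]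
      exact sum_le_sum fun i _ => h1 i
    have h5 : (0 : ℝ) < X.card := by exact_mod_cast hXc
    have h6 : (0 : ℝ) < 1 / ((n : ℝ) + 1) := by positivity
    nlinarith [mul_pos h5 h6]
  set Y := X.filter fun x => idx Q X x = i with hY
  set T := Y.filter fun x => ∀ y ∈ X, Q ∣ y - x → x ≤ y with hT
  have hYX : Y ⊆ X := filter_subset _ _
  have hTY : T ⊆ Y := filter_subset _ _
  -- every element of `Y` has a representative in `T`
  have hrep : ∀ x ∈ Y, ∃ t ∈ T, x ∈ cls Q X t := by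
    intro x hx
    have hx' := hYX hx
    have hne : (cls Q X x).Nonempty := ⟨x, mem_cls_self hx'⟩
    set m := (cls Q X x).min' hne with hm
    have hm1 : m ∈ cls Q X x := min'_mem _ _
    have hm2 : m ∈ X ∧ Q ∣ m - x := by
      unfold cls at hm1
      exact mem_filter.1 hm1
    have hcls : cls Q X m = cls Q X x := cls_eq hm2.2
    refine ⟨m, ?_, ?_⟩
    · rw [hT, mem_filter, hY, mem_filter]
      refine ⟨⟨hm2.1, ?_⟩, ?_⟩
      · unfold idx
        rw [hcls]
        exact (mem_filter.1 hx).2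
      · intro y hy hd
        refine min'_le _ _ ?_
        rw [← hcls]
        unfold cls
        exact mem_filter.2 ⟨hy, hd⟩
    · rw [hcls]; exact mem_cls_self hx'
  refine ⟨i, T, hTY.trans hYX, ?_, ?_, ?_, ?_⟩
  · obtain ⟨x, hx⟩ := hi0
    obtain ⟨t, ht, _⟩ := hrep x hx
    exact ⟨t, ht⟩
  · intro t ht t' ht' hd
    have h1 := (mem_filter.1 ht).2 t' (hYX (hTY ht')) (by
      have : t' - t = -(t - t') := by ring
      rw [this]; exact (dvd_neg).2 hd)
    have h2 := (mem_filter.1 ht').2 t (hYX (hTY ht)) hd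
    exact le_antisymm h1 h2
  · intro t ht
    have h1 := idx_spec (Q := Q) (hYX (hTY ht))
    have h2 : idx Q X t = i := (mem_filter.1 (hTY ht)).2
    rw [h2] at h1
    exact h1
  · have h1 : Y.card ≤ ∑ t ∈ T, (cls Q X t).card := by
      refine (card_le_card ?_).trans card_biUnion_le
      intro x hx
      obtain ⟨t, ht, h⟩ := hrep x hx
      exact mem_biUnion.2 ⟨t, ht, h⟩
    have h2 : 2 ^ i * Y.card ≤ T.card * X.card := by
      refine (Nat.mul_le_mul_left _ h1).trans ?_
      rw [mul_sum, ← smul_eq_mul, ← sum_const]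
      refine sum_le_sum fun t ht => ?_
      have h1 := idx_spec (Q := Q) (hYX (hTY ht))
      have h2 : idx Q X t = i := (mem_filter.1 (hTY ht)).2
      rw [h2] at h1
      exact h1.2
    have h3 : 2 ^ i * Y.card ≤ T.card * ((i + 1) * (i + 2)) * Y.card := by
      refine h2.trans ?_
      calc T.card * X.card ≤ T.card * (Y.card * ((i + 1) * (i + 2))) := Nat.mul_le_mul_left _ hi
        _ = T.card * ((i + 1) * (i + 2)) * Y.card := by ring
    exact Nat.le_of_mul_le_mul_right h3 (card_pos.2 hi0)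



/-- `log ((i+1)(i+2))` -/
noncomputable def psi (i : ℕ) : ℝ := Real.log (((i : ℝ) + 1) * (i + 2))

theorem psi_le (a : ℝ) (ha : 0 < a) : ∃ D : ℝ, 0 ≤ D ∧ ∀ i : ℕ, psi i ≤ a * i + D := by
  refine ⟨max 0 (2 * a + 2 * Real.log (2 / a)), le_max_left _ _, fun i => ?_⟩
  have hi : (0 : ℝ) ≤ i := Nat.cast_nonneg i
  have h1 : psi i ≤ 2 * Real.log (i + 2) := by
    unfold psi
    rw [Real.log_mul (by positivity) (by positivity)]
    have := Real.log_le_log (by positivity : (0 : ℝ) < i + 1) (by linarith : (i : ℝ) + 1 ≤ i + 2)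
    linarith
  have h2 : Real.log ((a / 2) * (i + 2)) ≤ (a / 2) * (i + 2) - 1 :=
    Real.log_le_sub_one_of_pos (by positivity)
  rw [Real.log_mul (by positivity) (by positivity)] at h2
  have h3 : Real.log (2 / a) = - Real.log (a / 2) := by
    rw [← Real.log_inv, inv_div]
  have h4 := le_max_right 0 (2 * a + 2 * Real.log (2 / a))
  rw [h3] at h4
  rw [h3]
  nlinarith

theorem cls_sub (Q : ℤ) (X : Finset ℤ) (t : ℤ) : cls Q X t ⊆ X := Finset.filter_subset _ _

theorem self_mem_cls (Q : ℤ) {X : Finset ℤ} {t : ℤ} (ht : t ∈ X) : t ∈ cls Q X t := by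
  simp [cls, ht]

theorem cls_nonempty (Q : ℤ) {X : Finset ℤ} {t : ℤ} (ht : t ∈ X) : (cls Q X t).Nonempty :=
  ⟨t, self_mem_cls Q ht⟩

theorem card_dil {d : ℤ} (hd : d ≠ 0) (X : Finset ℤ) : (dil d X).card = X.card :=
  Finset.card_image_of_injective _ (mul_right_injective₀ hd)

theorem dil_nonempty {d : ℤ} {X : Finset ℤ} (hX : X.Nonempty) : (dil d X).Nonempty :=
  hX.image _

/-- the classes of the representatives are disjoint -/
theorem sum_cls_le {Q : ℤ} {X T : Finset ℤ} (hTi : ∀ t ∈ T, ∀ t' ∈ T, Q ∣ t - t' → t = t') :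
    ∑ t ∈ T, (cls Q X t).card ≤ X.card := by
  rw [← Finset.card_biUnion]
  · apply Finset.card_le_card
    intro x hx
    obtain ⟨t, _, ht⟩ := Finset.mem_biUnion.1 hx
    exact cls_sub _ _ _ ht
  · intro t ht t' ht' hne
    show Disjoint (cls Q X t) (cls Q X t')
    rw [Finset.disjoint_left]
    intro x hx hx'
    apply hne
    apply hTi t ht t' ht'
    have h1 := (Finset.mem_filter.1 hx).2
    have h2 := (Finset.mem_filter.1 hx').2
    have : t - t' = (x - t') - (x - t) := by ring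
    rw [this]
    exact dvd_sub h2 h1

/-- the facts on a selection in logarithmic form -/
theorem sel_log {Q : ℤ} {X : Finset ℤ} (hX : X.Nonempty) {i : ℕ} {T : Finset ℤ} (hT : T ⊆ X)
    (hTn : T.Nonempty)
    (hTi : ∀ t ∈ T, ∀ t' ∈ T, Q ∣ t - t' → t = t')
    (h1 : ∀ t ∈ T, X.card ≤ 2 ^ (i + 1) * (cls Q X t).card ∧ 2 ^ i * (cls Q X t).card ≤ X.card)
    (h2 : 2 ^ i ≤ T.card * ((i + 1) * (i + 2))) :
    (∀ t ∈ T, Real.log X.card - (i + 1) * Real.log 2 ≤ Real.log (cls Q X t).card ∧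
      Real.log (cls Q X t).card ≤ Real.log X.card - i * Real.log 2) ∧
    i * Real.log 2 - psi i ≤ Real.log T.card ∧ T.card ≤ 2 ^ (i + 1) := by
  have cX : (0 : ℝ) < X.card := by exact_mod_cast hX.card_pos
  have cT : (0 : ℝ) < T.card := by exact_mod_cast hTn.card_pos
  refine ⟨fun t ht => ?_, ?_, ?_⟩
  · have cc : (0 : ℝ) < (cls Q X t).card := by
      exact_mod_cast (cls_nonempty Q (hT ht)).card_pos
    obtain ⟨a1, a2⟩ := h1 t ht
    constructor
    · have h3 : (X.card : ℝ) ≤ 2 ^ (i + 1) * (cls Q X t).card := by exact_mod_cast a1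
      have h4 := Real.log_le_log cX h3
      rw [Real.log_mul (by positivity) cc.ne', Real.log_pow] at h4
      push_cast at h4
      linarith
    · have h3 : (2 : ℝ) ^ i * (cls Q X t).card ≤ X.card := by exact_mod_cast a2
      have h4 := Real.log_le_log (by positivity) h3
      rw [Real.log_mul (by positivity) cc.ne', Real.log_pow] at h4
      linarith
  · have h3 : (2 : ℝ) ^ i ≤ T.card * (((i : ℝ) + 1) * (i + 2)) := by exact_mod_cast h2
    have h4 := Real.log_le_log (by positivity) h3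
    rw [Real.log_mul cT.ne' (by positivity), Real.log_pow] at h4
    unfold psi
    linarith
  · have h3 : T.card * X.card ≤ 2 ^ (i + 1) * X.card := by
      calc T.card * X.card = ∑ _t ∈ T, X.card := by rw [Finset.sum_const, smul_eq_mul]
        _ ≤ ∑ t ∈ T, 2 ^ (i + 1) * (cls Q X t).card := Finset.sum_le_sum fun t ht => (h1 t ht).1
        _ = 2 ^ (i + 1) * ∑ t ∈ T, (cls Q X t).card := by rw [Finset.mul_sum]
        _ ≤ 2 ^ (i + 1) * X.card := Nat.mul_le_mul_left _ (sum_cls_le hTi)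
    exact Nat.le_of_mul_le_mul_right h3 hX.card_pos

theorem avg_ge {ι : Type*} {U : Finset ι} (hU : U.Nonempty) {f : ι → ℝ} {c : ℝ}
    (h : ∀ t ∈ U, c ≤ f t) : c ≤ (∑ t ∈ U, f t) / U.card := by
  have cU : (0 : ℝ) < U.card := by exact_mod_cast hU.card_pos
  rw [le_div_iff₀ cU]
  calc c * U.card = ∑ _t ∈ U, c := by rw [Finset.sum_const, nsmul_eq_mul, mul_comm]
    _ ≤ _ := Finset.sum_le_sum h

theorem exp_num : (1 + Real.exp (-2)) / 2 ≤ Real.exp (-(1 / 2)) := by
  have h1 : Real.exp 1 < 2.7182818286 := Real.exp_one_lt_d9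
  have h2 : (2.7182818283 : ℝ) < Real.exp 1 := Real.exp_one_gt_d9
  have h3 : Real.exp (-2) ≤ 1 / 7 := by
    rw [Real.exp_neg, one_div]
    apply inv_anti₀ (by norm_num)
    have : Real.exp 2 = Real.exp 1 * Real.exp 1 := by rw [← Real.exp_add]; norm_num
    rw [this]
    nlinarith
  have h4 : Real.exp (1 / 2) ≤ 5 / 3 := by
    have h5 : Real.exp (1 / 2) * Real.exp (1 / 2) = Real.exp 1 := by
      rw [← Real.exp_add]; norm_num
    have h6 := Real.exp_pos (1 / 2 : ℝ)
    by_contra hcon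
    push Not at hcon
    nlinarith
  have h5 : (3 / 5 : ℝ) ≤ Real.exp (-(1 / 2)) := by
    rw [Real.exp_neg]
    have := inv_anti₀ (Real.exp_pos (1 / 2 : ℝ)) h4
    calc (3 / 5 : ℝ) = (5 / 3)⁻¹ := by norm_num
      _ ≤ _ := this
  linarith

/-- the largest class -/
def mx (Q : ℤ) (X : Finset ℤ) : ℕ := X.sup fun x => (cls Q X x).card

theorem le_mx (Q : ℤ) {X : Finset ℤ} {x : ℤ} (hx : x ∈ X) : (cls Q X x).card ≤ mx Q X :=
  Finset.le_sup (f := fun x => (cls Q X x).card) hx

theorem mx_le (Q : ℤ) (X : Finset ℤ) : mx Q X ≤ X.card :=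
  Finset.sup_le fun x _ => Finset.card_le_card (cls_sub Q X x)

theorem exists_mx (Q : ℤ) {X : Finset ℤ} (hX : X.Nonempty) :
    ∃ x ∈ X, (cls Q X x).card = mx Q X := by
  obtain ⟨x, hx, h⟩ := Finset.exists_mem_eq_sup X hX fun x => (cls Q X x).card
  exact ⟨x, hx, h.symm⟩

theorem mx_one (X : Finset ℤ) : mx 1 X ≤ X.card := mx_le 1 X

theorem mx_one' {X : Finset ℤ} (hX : X.Nonempty) : mx 1 X = X.card := by
  apply le_antisymm (mx_le 1 X)
  obtain ⟨x, hx⟩ := hX
  refine le_trans (le_of_eq ?_) (le_mx 1 hx)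
  unfold cls
  rw [Finset.filter_true_of_mem fun y _ => one_dvd _]

/-- for a large modulus all the classes are singletons -/
theorem mx_large {p : ℕ} (hp : 2 ≤ p) (X : Finset ℤ) : ∃ J₀ : ℕ, ∀ J, J₀ ≤ J →
    mx ((p : ℤ) ^ J) X ≤ 1 := by
  obtain ⟨M, hM⟩ : ∃ M : ℕ, ∀ x ∈ X, ∀ y ∈ X, (x - y).natAbs ≤ M := by
    refine ⟨(X ×ˢ X).sup fun w => (w.1 - w.2).natAbs, fun x hx y hy => ?_⟩
    exact Finset.le_sup (f := fun w : ℤ × ℤ => (w.1 - w.2).natAbs)
      (Finset.mem_product.2 ⟨hx, hy⟩ : (x, y) ∈ X ×ˢ X)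
  refine ⟨M + 1, fun J hJ => Finset.sup_le fun x hx => ?_⟩
  rw [Finset.card_le_one]
  have key : ∀ y ∈ cls ((p : ℤ) ^ J) X x, y = x := by
    intro y hy
    obtain ⟨hy1, hy2⟩ := Finset.mem_filter.1 hy
    by_contra hne
    have h1 : (p ^ J) ∣ (y - x).natAbs := by
      have := Int.natAbs_dvd_natAbs.2 hy2
      rwa [Int.natAbs_pow, Int.natAbs_natCast] at this
    have h2 := Nat.le_of_dvd (Int.natAbs_pos.2 (sub_ne_zero.2 hne)) h1
    have h3 := hM y hy1 x hx
    have h4 : J < p ^ J := Nat.lt_pow_self (by omega)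
    omega
  intro y hy z hz
  rw [key y hy, key z hz]


end Pool.Agent.Helper63.SD
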