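import Pool.Agent.Helper63.SD.Arb
import Pool.Agent.Helper63.SD.Sel

/-!
A chain inequality for cardinalities, and its form for sums with dilates.
-/

set_option autoImplicit false

namespace Pool.Agent.Helper63.SD

open Finset PE
open scoped Pointwise Classical

/-- chain inequality for cardinalities: `Z` contains sets `s x` on which `g` is constant -/
theorem card_chain {α M ζ : Type*} (G : Finset α) (hG : G.Nonempty) (F : α → M) (Z : Finset ζ)
    (g : ζ → M) (s : α → Finset ζ) (hs : ∀ x ∈ G, s x ⊆ Z) (hn : ∀ x ∈ G, (s x).Nonempty)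
    (hg : ∀ x ∈ G, ∀ z ∈ s x, g z = F x) :
    h G F + (∑ x ∈ G, Real.log (s x).card) / G.card ≤ Real.log Z.card := by
  have hN : (0 : ℝ) < G.card := by exact_mod_cast card_pos.2 hG
  obtain ⟨x0, hx0⟩ := hG
  have hZ : (0 : ℝ) < Z.card := by
    obtain ⟨z, hz⟩ := hn x0 hx0
    exact_mod_cast card_pos.2 ⟨z, hs x0 hx0 hz⟩
  have hsp : ∀ x ∈ G, (0 : ℝ) < (s x).card := fun x hx => by
    exact_mod_cast card_pos.2 (hn x hx)
  -- the total mass
  have h1 : ∑ x ∈ G, ((s x).card : ℝ) / fc G F x ≤ Z.card := by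
    have e1 : ∀ x ∈ G, ((s x).card : ℝ) / fc G F x ≤
        ((Z.filter fun z => g z = F x).card : ℝ) * (1 / fc G F x) := by
      intro x hx
      have h2 : (s x).card ≤ (Z.filter fun z => g z = F x).card := by
        refine card_le_card fun z hz => ?_
        exact mem_filter.2 ⟨hs x hx hz, hg x hx z hz⟩
      have h3 := fc_posR (f := F) hx
      have h4 : ((s x).card : ℝ) ≤ (Z.filter fun z => g z = F x).card := by exact_mod_cast h2
      rw [div_eq_mul_one_div]
      exact mul_le_mul_of_nonneg_right h4 (by positivity)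
    refine (sum_le_sum e1).trans ?_
    rw [← sum_fiberwise_of_maps_to (g := F) (t := G.image F) (fun x hx => mem_image_of_mem F hx)]
    have e2 : ∀ m ∈ G.image F, ∑ x ∈ G.filter (fun x => F x = m),
        ((Z.filter fun z => g z = F x).card : ℝ) * (1 / fc G F x) ≤
        ((Z.filter fun z => g z = m).card : ℝ) := by
      intro m _
      have e3 : ∀ x ∈ G.filter (fun x => F x = m),
          ((Z.filter fun z => g z = F x).card : ℝ) * (1 / fc G F x) =
          ((Z.filter fun z => g z = m).card : ℝ) * (1 / fc G F x) := by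
        intro x hx
        rw [(mem_filter.1 hx).2]
      rw [sum_congr rfl e3, ← mul_sum]
      have e4 := sum_inv_fc_fiber G F m
      have e5 : (0 : ℝ) ≤ ((Z.filter fun z => g z = m).card : ℝ) := Nat.cast_nonneg _
      nlinarith
    refine (sum_le_sum e2).trans ?_
    have e6 : ∑ m ∈ G.image F, (Z.filter fun z => g z = m).card ≤ Z.card := by
      rw [← card_biUnion]
      · refine card_le_card fun z hz => ?_
        obtain ⟨m, _, hm⟩ := mem_biUnion.1 hz
        exact (mem_filter.1 hm).1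
      · intro m _ m' _ hmm
        show Disjoint (Z.filter fun z => g z = m) (Z.filter fun z => g z = m')
        rw [disjoint_left]
        intro z hz hz'
        exact hmm ((mem_filter.1 hz).2.symm.trans (mem_filter.1 hz').2)
    exact_mod_cast e6
  have h2 : ∀ x ∈ G, Real.log G.card - Real.log (fc G F x) + Real.log (s x).card ≤
      Real.log Z.card + (((s x).card : ℝ) / fc G F x * (G.card / Z.card) - 1) := by
    intro x hx
    have h3 := fc_posR (f := F) hx
    have h4 := hsp x hx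
    have h5 : 0 < ((s x).card : ℝ) / fc G F x * (G.card / Z.card) := by positivity
    have h6 := Real.log_le_sub_one_of_pos h5
    rw [Real.log_mul (by positivity) (by positivity), Real.log_div h4.ne' h3.ne',
      Real.log_div hN.ne' hZ.ne'] at h6
    linarith
  have h3 := sum_le_sum h2
  rw [sum_add_distrib, sum_add_distrib,
    sum_sub_distrib (f := fun x => ((s x).card : ℝ) / fc G F x * (G.card / Z.card)),
    ← sum_mul, sum_const, sum_const, nsmul_eq_mul, nsmul_eq_mul, mul_one] at h3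
  have h4 : (∑ x ∈ G, ((s x).card : ℝ) / fc G F x) * (G.card / Z.card) ≤ G.card := by
    have h5 := mul_le_mul_of_nonneg_right h1 (show (0 : ℝ) ≤ G.card / Z.card by positivity)
    have h6 : (Z.card : ℝ) * (G.card / Z.card) = G.card := by field_simp
    linarith
  unfold h
  rw [← add_div, div_le_iff₀ hN]
  linarith

/-- the residue entropy -/
noncomputable def hq (Q : ℕ) (X : Finset ℤ) : ℝ := h X fun x : ℤ => (x : ZMod Q)

lemma cast_eq_iff (Q : ℕ) (x y : ℤ) : ((x : ZMod Q) = (y : ZMod Q)) ↔ (Q : ℤ) ∣ x - y := by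
  rw [eq_comm, ZMod.intCast_eq_intCast_iff_dvd_sub]

lemma cl_eq_cls (Q : ℕ) (X : Finset ℤ) (x : ℤ) :
    cl X (fun x : ℤ => (x : ZMod Q)) x = cls (Q : ℤ) X x := by
  ext y
  rw [mem_cl, cls, mem_filter, cast_eq_iff]

lemma hq_nonneg (Q : ℕ) (X : Finset ℤ) : 0 ≤ hq Q X := h_nonneg _ _

lemma sum_log_cls (Q : ℕ) (X : Finset ℤ) (hX : X.Nonempty) :
    (∑ x ∈ X, Real.log (cls (Q : ℤ) X x).card) / X.card = Real.log X.card - hq Q X := by
  have hN : (0 : ℝ) < X.card := by exact_mod_cast card_pos.2 hX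
  unfold hq h
  rw [sum_sub_distrib, sum_const, nsmul_eq_mul, sub_div, mul_div_cancel_left₀ _ hN.ne']
  have e1 : ∀ x ∈ X, Real.log (fc X (fun x : ℤ => (x : ZMod Q)) x) =
      Real.log (cls (Q : ℤ) X x).card := by
    intro x _
    unfold fc
    rw [cl_eq_cls]
  rw [sum_congr rfl e1]
  ring

lemma mem_dil {d : ℤ} {X : Finset ℤ} {y : ℤ} : y ∈ dil d X ↔ ∃ x ∈ X, d * x = y := mem_image

lemma dil_mono {d : ℤ} {X Y : Finset ℤ} (hXY : X ⊆ Y) : dil d X ⊆ dil d Y :=
  image_subset_image hXY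

/-- the chain inequality for `d X + B` -/
theorem chain_pair (p : ℕ) (d : ℤ) (i j : ℕ) (hd : (p : ℤ) ^ i ∣ d * (p : ℤ) ^ j)
    (X B : Finset ℤ) (G : Finset (ℤ × ℤ)) (hG : G ⊆ X ×ˢ B) (hGn : G.Nonempty) :
    h G (fun s => ((d * s.1 + s.2 : ℤ) : ZMod (p ^ i))) +
      (∑ s ∈ G, Real.log ((dil d (cls ((p : ℤ) ^ j) X s.1) + cls ((p : ℤ) ^ i) B s.2).card : ℝ)) /
        G.card ≤ Real.log ((dil d X + B).card : ℝ) := by
  refine card_chain G hGn _ _ (fun z : ℤ => (z : ZMod (p ^ i)))
    (fun s => dil d (cls ((p : ℤ) ^ j) X s.1) + cls ((p : ℤ) ^ i) B s.2) ?_ ?_ ?_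
  · intro s _
    exact add_subset_add (dil_mono (cls_sub _ _ _)) (cls_sub _ _ _)
  · intro s hs
    have h1 := mem_product.1 (hG hs)
    exact (dil_nonempty (cls_nonempty _ h1.1)).add (cls_nonempty _ h1.2)
  · intro s _ z hz
    obtain ⟨u, hu, v, hv, rfl⟩ := mem_add.1 hz
    obtain ⟨x, hx, rfl⟩ := mem_dil.1 hu
    show (((d * x + v : ℤ)) : ZMod (p ^ i)) = _
    rw [cast_eq_iff]
    have h1 := (mem_filter.1 hx).2
    have h2 := (mem_filter.1 hv).2
    have e : d * x + v - (d * s.1 + s.2) = d * (x - s.1) + (v - s.2) := by ring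
    rw [e]
    push_cast
    refine dvd_add ?_ h2
    obtain ⟨c, hc⟩ := h1
    rw [hc, ← mul_assoc]
    exact Dvd.dvd.mul_right hd c

end Pool.Agent.Helper63.SD
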