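import Pool.Agent.Helper63.SD.Prep

/-!
The dichotomy for finite sets of integers, partners in the integers.
-/

set_option autoImplicit false

namespace Pool.Agent.Helper63.SD

open Finset PE
open scoped Pointwise Classical

lemma vv_le {W D : Finset ℤ} (hW : W.Nonempty) {w : ℤ → ℝ} (hw : ∀ a ∈ D, 0 ≤ w a)
    (hw1 : ∑ a ∈ D, w a = 1) {X B : Finset ℤ} {t : ℝ}
    (h : ∀ u ∈ W, ∀ a ∈ D, Real.log ((dil (u * a) X + B).card : ℝ) ≤ t) :
    vv W D w X B ≤ t := by
  have hN : (0 : ℝ) < W.card := by exact_mod_cast card_pos.2 hW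
  have h1 : ∀ a ∈ D, v1 W a X B ≤ t := by
    intro a ha
    unfold v1
    rw [div_le_iff₀ hN]
    calc ∑ u ∈ W, Real.log ((dil (u * a) X + B).card : ℝ) ≤ ∑ _u ∈ W, t :=
          sum_le_sum fun u hu => h u hu a ha
      _ = t * W.card := by rw [sum_const, nsmul_eq_mul, mul_comm]
  calc vv W D w X B ≤ ∑ a ∈ D, w a * t :=
        sum_le_sum fun a ha => mul_le_mul_of_nonneg_left (h1 a ha) (hw a ha)
    _ = t := by rw [← sum_mul, hw1, one_mul]

theorem core (ε K : ℝ) (hε : 0 < ε) (hε1 : ε < 1) (hK : 0 < K) :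
    ∃ n : ℕ, 0 < n ∧ ∃ q d : ℝ, 0 < q ∧ 0 < d ∧ ∀ C4 : ℝ, ∃ C : ℝ, 0 ≤ C ∧
      ∀ (W : Finset ℤ) (P : Finset ℕ), (0 : ℤ) ∉ W → n ≤ W.card →
      (∀ p : ℕ, p.Prime → ¬ Ok W p → p ∈ P) →
      ∀ A : Finset ℤ, A.Nonempty → (0 : ℤ) ∉ A →
      P.card * Real.log ((q * Real.log A.card + 1) ^ 2 / d) ≤ ε / 4 * Real.log A.card + C4 →
      (∀ B : Finset ℤ, B.Nonempty → (0 : ℤ) ∉ B →
        (1 - ε) * (Real.log A.card + Real.log B.card) - C ≤ Real.log (A * B).card) ∨
      (∀ X B : Finset ℤ, X.Nonempty → B.Nonempty → Sz X B ≤ K * Real.log A.card →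
        ∃ u ∈ W, ∃ a ∈ A, (1 - ε) * Sz X B - C ≤
          Real.log ((dil (u * a) X + B).card : ℝ)) := by
  set δ := ε / 2 with hδd
  have hδ : 0 < δ := by positivity
  have hδ1 : δ < 1 := by linarith
  set θ := Real.exp (-(4 / δ)) with hθd
  have hθ : 0 < θ := Real.exp_pos _
  have hθ9 : θ ≤ 1 / 9 := theta_le hδ hδ1.le
  have hθl : 4 / Real.log (1 / θ) = δ := theta_log hδ
  set T := 4 * K * (2 + 1 / θ) / ε with hT
  have hT0 : 0 < T := by positivity
  obtain ⟨κ, hκ, hκ1, hκT⟩ := exists_kappa hδ hT0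
  obtain ⟨c⟩ := exists_cst δ (2 / κ) hδ
  have hcc0 : 0 < cc δ κ := lt_of_lt_of_le (by positivity) hκT
  set C1 := (2 + 1 / θ) / cc δ κ with hC1
  have hC10 : 0 < C1 := by positivity
  have hC1c : C1 * cc δ κ = 2 + 1 / θ := by
    rw [hC1]
    field_simp
  set C0 := Real.log (c.K₀ : ℝ) with hC0
  have hC00 : 0 ≤ C0 := Real.log_natCast_nonneg _
  have hl2 : 0 < Real.log 2 := Real.log_pos (by norm_num)
  refine ⟨⌈((2 : ℝ) ^ c.MX * 2 ^ c.MB) ^ 2 / (δ / 2)⌉₊ + 1, Nat.succ_pos _, K / θ, δ,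
    by positivity, hδ, fun C4 => ⟨C0 + 1 / κ * Real.exp (C4 / C1) + Real.log 2, by positivity,
    fun W P hW0 hWn hP A hA hA0 hC4y => ?_⟩⟩
  have hWne : W.Nonempty := card_pos.1 (by omega)
  have hWc : ((2 : ℝ) ^ c.MX * 2 ^ c.MB) ^ 2 ≤ δ / 2 * W.card := by
    have h1 : ((2 : ℝ) ^ c.MX * 2 ^ c.MB) ^ 2 / (δ / 2) ≤ W.card := by
      refine (Nat.le_ceil _).trans ?_
      exact_mod_cast (by omega : ⌈((2 : ℝ) ^ c.MX * 2 ^ c.MB) ^ 2 / (δ / 2)⌉₊ ≤ W.card)
    rw [div_le_iff₀ (by positivity)] at h1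
    linarith
  set y := Real.log (A.card : ℝ) with hy
  rw [div_mul_eq_mul_div] at hC4y
  have hy0 : 0 ≤ y := Real.log_natCast_nonneg _
  set z := (K * y / θ + 1) ^ 2 / δ with hz
  have hz1 : 1 ≤ z := by
    rw [hz, le_div_iff₀ hδ, one_mul]
    have h1 : 1 ≤ (K * y / θ + 1) ^ 2 := one_le_pow₀ (by
      have : 0 ≤ K * y / θ := by positivity
      linarith)
    linarith
  set n1 := Real.log z with hn1d
  have hn1 : 0 ≤ n1 := Real.log_nonneg hz1
  by_cases hlarge : ∃ p ∈ prs A, n1 < Real.log (A.image (fv p)).card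
  · -- a prime with many valuations
    right
    intro X B hX hB hS
    obtain ⟨p, hpl, hlt⟩ := hlarge
    have hp := prs_prime hpl
    have := Fact.mk hp
    obtain ⟨u, hu⟩ := id hWne
    have hu0 : u ≠ 0 := fun h => hW0 (h ▸ hu)
    set E := A.image (fun a => padicValInt p (u * a)) with hE
    have hex : ∀ e ∈ E, ∃ a ∈ A, padicValInt p (u * a) = e := fun e he => by
      obtain ⟨a, ha, h⟩ := mem_image.1 he
      exact ⟨a, ha, h⟩
    choose! d hdA hd using hex
    have hcard : (A.image (fv p)).card ≤ E.card := by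
      have hsub : A.image (fv p) ⊆ E.image fun e : ℕ => (e : ℤ) - fv p u := by
        intro v hv
        obtain ⟨a, ha, rfl⟩ := mem_image.1 hv
        refine mem_image.2 ⟨padicValInt p (u * a), mem_image_of_mem _ ha, ?_⟩
        have ha0 : a ≠ 0 := fun h => hA0 (h ▸ ha)
        have h1 := fv_mul hp hu0 ha0
        show fv p (u * a) - fv p u = fv p a
        rw [h1]
        ring
      exact (card_le_card hsub).trans card_image_le
    have hcpos : (0 : ℝ) < (A.image (fv p)).card := by exact_mod_cast card_pos.2 (hA.image _)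
    have hzE : z ≤ E.card := by
      have h1 : z < (A.image (fv p)).card := by
        rw [hn1d] at hlt
        exact (Real.log_lt_log_iff (by linarith) hcpos).1 hlt
      have h2 : ((A.image (fv p)).card : ℝ) ≤ E.card := by exact_mod_cast hcard
      linarith
    have hEb : (Sz X B / Real.exp (-(4 / δ)) + 1) ^ 2 ≤ δ * E.card := by
      rw [hz, div_le_iff₀ hδ] at hzE
      have h1 : Sz X B / θ + 1 ≤ K * y / θ + 1 := by
        have := div_le_div_of_nonneg_right hS hθ.le
        linarith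
      have h2 : 0 ≤ Sz X B / θ + 1 := by
        have := div_nonneg (Sz_nonneg X B) hθ.le
        linarith
      have h3 := pow_le_pow_left₀ h2 h1 2
      rw [← hθd]
      linarith
    obtain ⟨e, he, hmain⟩ := one_prime hδ hδ1 hp E (fun e => u * d e) (fun e he => by
      have hd0 : u * d e ≠ 0 := mul_ne_zero hu0 (fun h => hA0 (h ▸ hdA e he))
      rw [padicValInt_dvd_iff, padicValInt_dvd_iff, hd e he]
      refine ⟨Or.inr (le_refl _), ?_⟩
      rintro (h | h)
      · exact hd0 h
      · omega) X B hX hB hEb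
    refine ⟨u, hu, d e, hdA e he, ?_⟩
    have e1 : 1 - 2 * δ = 1 - ε := by rw [hδd]; ring
    rw [e1] at hmain
    have h2 : 0 < 1 / κ * Real.exp (C4 / C1) := by positivity
    linarith
  · push Not at hlarge
    by_cases hleft : ∀ B : Finset ℤ, B.Nonempty → (0 : ℤ) ∉ B →
        (1 - ε) * (y + Real.log B.card) - (C0 + 1 / κ * Real.exp (C4 / C1) + Real.log 2) ≤
          Real.log (A * B).card
    · exact Or.inl hleft
    right
    push Not at hleft
    obtain ⟨B', hB'n, hB'0, hB'⟩ := hleft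
    have hprod := prod_lower hθ hθ9 (by rw [hθl]; linarith) (prs A) (fun p hp => prs_prime hp)
      B' A hB'n hA hB'0 hA0 2 (fun a ha => prs_fibre hA0 ha)
    rw [hθl, mul_comm B' A, ← hy] at hprod
    push_cast at hprod
    have hex0 : 0 < 1 / κ * Real.exp (C4 / C1) := by positivity
    have hlB : 0 ≤ Real.log (B'.card : ℝ) := Real.log_natCast_nonneg _
    have hEp1 : δ * y ≤ (1 - δ) * Epop θ (prs A) A := by
      have e1 : (1 - ε) * (y + Real.log B'.card) = (1 - δ) * (y + Real.log B'.card) -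
          δ * (y + Real.log B'.card) := by
        rw [hδd]
        ring
      rw [e1] at hB'
      have h3 : 0 ≤ δ * Real.log B'.card := by positivity
      have e2 : (1 - δ) * (Real.log B'.card + y - Epop θ (prs A) A) =
          (1 - δ) * (y + Real.log B'.card) - (1 - δ) * Epop θ (prs A) A := by ring
      rw [e2] at hprod
      nlinarith
    have hEp2 : δ * y ≤ Epop θ (prs A) A := by
      have h3 : 0 ≤ δ * y := by positivity
      have h4 : 0 ≤ Epop θ (prs A) A := by
        by_contra hc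
        push Not at hc
        nlinarith
      nlinarith
    obtain ⟨ψ, hψ0, ⟨w, hw, hw1, hV⟩, hψ⟩ := rank_main hδ hδ1 hκ hκ1 c (le_refl _) W hWne hWc hθ
      hn1 (prs A) (fun p hp => prs_prime hp) A hA hA0 (fun p hp _ => hlarge p hp)
    have hcnt := countP_le P W (prs A) (prs_nodup A) (fun p hp => prs_prime hp) hP
    have hcnt' : (((prs A).countP fun p => ¬ Ok W p : ℕ) : ℝ) * n1 ≤ P.card * n1 :=
      mul_le_mul_of_nonneg_right (by exact_mod_cast hcnt) hn1
    rw [← hC1] at hψ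
    have hψ1 : ε / 4 * y - C4 ≤ C1 * ψ := by
      have e1 : δ * y = ε / 2 * y := by rw [hδd]
      rw [e1] at hEp2
      linarith
    intro X B hX hB hS
    have hVX := hV X B hX hB
    have hexp : Real.exp (-ψ) * Real.exp (κ * Sz X B) ≤ Real.exp (C4 / C1) := by
      rw [← Real.exp_add]
      apply Real.exp_le_exp.2
      rw [le_div_iff₀ hC10]
      have h3 : κ * Sz X B ≤ κ * (K * y) := mul_le_mul_of_nonneg_left hS hκ.le
      have h4 : C1 * (κ * (K * y)) ≤ ε / 4 * y := by
        have h5 : κ * T * C1 ≤ cc δ κ * C1 := mul_le_mul_of_nonneg_right hκT hC10.le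
        rw [mul_comm (cc δ κ) C1, hC1c] at h5
        have h6 : κ * T * C1 = (2 + 1 / θ) * (4 * (C1 * (κ * K)) / ε) := by
          rw [hT]
          field_simp
        rw [h6] at h5
        have h7 : 0 < 2 + 1 / θ := by positivity
        have h8 : 4 * (C1 * (κ * K)) / ε ≤ 1 := by
          by_contra hc
          push Not at hc
          nlinarith
        rw [div_le_one hε] at h8
        have h9 := mul_le_mul_of_nonneg_right h8 hy0
        linarith
      nlinarith
    by_contra hcon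
    push Not at hcon
    have hvle := vv_le hWne hw hw1 (X := X) (B := B)
      (t := (1 - ε) * Sz X B - (C0 + 1 / κ * Real.exp (C4 / C1) + Real.log 2))
      (fun u hu a ha => (hcon u hu a ha).le)
    unfold bdd at hVX
    have h3 : 1 / κ * Real.exp (-ψ) * Real.exp (κ * Sz X B) ≤ 1 / κ * Real.exp (C4 / C1) := by
      rw [mul_assoc]
      exact mul_le_mul_of_nonneg_left hexp (by positivity)
    have h4 : (1 - ε) * Sz X B ≤ (1 - δ) * Sz X B :=
      mul_le_mul_of_nonneg_right (by linarith) (Sz_nonneg X B)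
    linarith

end Pool.Agent.Helper63.SD
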