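import Pool.Agent.Helper63.SD.Split

/-!
The decomposition, the dichotomy, sums of several dilates and three variables.
-/

set_option autoImplicit false

namespace Pool.Agent.Helper63.SD

open Finset
open scoped Pointwise Classical

/-- the conclusion of `poor_good` -/
def PG (n : ℕ) (η c ε K : ℝ) : Prop :=
  ∀ A M : Finset ℚ, A.Nonempty → (0 : ℚ) ∉ A → M ⊆ A →
      (A.card : ℝ) ^ (1 - η) ≤ M.card →
      (∃ B : Finset ℂ, B.Nonempty ∧ (0 : ℂ) ∉ B ∧
        ((mulC M B).card : ℝ) < c * ((M.card : ℝ) * B.card) ^ (1 - ε)) →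
      ∀ X B : Finset ℂ, X.Nonempty → B.Nonempty → (X.card : ℝ) * B.card ≤ (A.card : ℝ) ^ K →
      ∃ E ⊆ M, (E.card : ℝ) ≤ (A.card : ℝ) ^ (1 - 2 * η) ∧ ∀ a ∈ M \ E, ∃ T : Finset ℚ,
        T.card < n ∧ ∀ w : ℚ, w ≠ 0 → w ∉ T → |(w.num : ℝ)| ≤ n * (A.card : ℝ) ^ η →
        (w.den : ℝ) ≤ n * (A.card : ℝ) ^ η →
        c * ((X.card : ℝ) * B.card) ^ (1 - ε) ≤ (dilC (w * a) X B).card

lemma PG.mono {n : ℕ} {η η' c ε K K' : ℝ} (h : PG n η' c ε K') (hη : η ≤ η') (hK : K ≤ K') :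
    PG n η c ε K := by
  intro A M hA hA0 hMA hM hpoor X B hX hB hXB
  have hN1 : (1 : ℝ) ≤ A.card := by exact_mod_cast card_pos.2 hA
  obtain ⟨E, hE, hEc, hg⟩ := h A M hA hA0 hMA ((rpow_mono_exp hN1 (by linarith)).trans hM) hpoor
    X B hX hB (hXB.trans (rpow_mono_exp hN1 hK))
  refine ⟨E, hE, hEc.trans (rpow_mono_exp hN1 (by linarith)), fun a ha => ?_⟩
  obtain ⟨T, hT, hw⟩ := hg a ha
  have h1 : (n : ℝ) * (A.card : ℝ) ^ η ≤ n * (A.card : ℝ) ^ η' :=
    mul_le_mul_of_nonneg_left (rpow_mono_exp hN1 hη) (Nat.cast_nonneg n)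
  exact ⟨T, hT, fun w hw0 hwT hwn hwd => hw w hw0 hwT (hwn.trans h1) (hwd.trans h1)⟩

theorem split {n : ℕ} {η c ε K τ : ℝ} (hη : 0 < η) (hτ : 0 < τ)
    (hmain : PG n η c ε (K / τ)) (A : Finset ℚ) (hA : A.Nonempty) (hA0 : (0 : ℚ) ∉ A) :
    ∃ M S : Finset ℚ, Disjoint M S ∧ M ∪ S = A ∧
      (∀ M' : Finset ℚ, M' ⊆ M → (A.card : ℝ) ^ τ ≤ M'.card →
        ∀ B : Finset ℂ, B.Nonempty → (0 : ℂ) ∉ B →
          c * ((M'.card : ℝ) * B.card) ^ (1 - ε) ≤ (mulC M' B).card) ∧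
      (∀ X B : Finset ℂ, X.Nonempty → B.Nonempty → (X.card : ℝ) * B.card ≤ (A.card : ℝ) ^ K →
        ∃ E : Finset ℚ, E ⊆ S ∧ (E.card : ℝ) ≤ (A.card : ℝ) ^ (1 - τ * η) ∧
          ∀ a ∈ S \ E, ∃ T : Finset ℚ,
          T.card < n ∧ ∀ w : ℚ, w ≠ 0 → w ∉ T → |(w.num : ℝ)| ≤ n * (A.card : ℝ) ^ (τ * η) →
          (w.den : ℝ) ≤ n * (A.card : ℝ) ^ (τ * η) →
          c * ((X.card : ℝ) * B.card) ^ (1 - ε) ≤ (dilC (w * a) X B).card) := by
  have hN1 : (1 : ℝ) ≤ A.card := by exact_mod_cast card_pos.2 hA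
  have hN0 : (0 : ℝ) < A.card := by linarith
  set Gd : Finset ℚ → Prop := fun S =>
    ∀ X B : Finset ℂ, X.Nonempty → B.Nonempty → (X.card : ℝ) * B.card ≤ (A.card : ℝ) ^ K →
      ∃ E ⊆ S, (E.card : ℝ) ≤ S.card * (A.card : ℝ) ^ (-(τ * η)) ∧ ∀ a ∈ S \ E, ∃ T : Finset ℚ,
        T.card < n ∧ ∀ w : ℚ, w ≠ 0 → w ∉ T → |(w.num : ℝ)| ≤ n * (A.card : ℝ) ^ (τ * η) →
        (w.den : ℝ) ≤ n * (A.card : ℝ) ^ (τ * η) →
        c * ((X.card : ℝ) * B.card) ^ (1 - ε) ≤ (dilC (w * a) X B).card with hGd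
  have hne : (A.powerset.filter Gd).Nonempty := by
    refine ⟨∅, mem_filter.2 ⟨empty_mem_powerset _, fun X B _ _ _ =>
      ⟨∅, Subset.refl _, by simp, fun a ha => by simp at ha⟩⟩⟩
  obtain ⟨S, hS, hmax⟩ := exists_max_image _ card hne
  rw [mem_filter, mem_powerset] at hS
  obtain ⟨hSA, hSg⟩ := hS
  refine ⟨A \ S, S, sdiff_disjoint, sdiff_union_of_subset hSA, ?_, ?_⟩
  · intro M' hM' hM'c B hB hB0
    by_contra hcon
    push Not at hcon
    have hM'A : M' ⊆ A := hM'.trans sdiff_subset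
    have hdis : Disjoint S M' := disjoint_of_subset_right hM' disjoint_sdiff
    have hM'pos : (0 : ℝ) < M'.card := lt_of_lt_of_le (Real.rpow_pos_of_pos hN0 _) hM'c
    have hM'pos' : 0 < M'.card := by exact_mod_cast hM'pos
    have hM'n : M'.Nonempty := card_pos.1 hM'pos'
    have hM'1 : (1 : ℝ) ≤ M'.card := by exact_mod_cast hM'pos'
    have hM'0 : (0 : ℚ) ∉ M' := fun h => hA0 (hM'A h)
    have hpow : ∀ t : ℝ, 0 ≤ t → (A.card : ℝ) ^ (τ * t) ≤ (M'.card : ℝ) ^ t := by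
      intro t ht
      rw [Real.rpow_mul hN0.le]
      exact Real.rpow_le_rpow (by positivity) hM'c ht
    have hgood : S ∪ M' ∈ A.powerset.filter Gd := by
      rw [mem_filter, mem_powerset]
      refine ⟨union_subset hSA hM'A, fun X Y hX hY hXY => ?_⟩
      have hXc : (1 : ℝ) ≤ X.card := by exact_mod_cast card_pos.2 hX
      have hYc : (1 : ℝ) ≤ Y.card := by exact_mod_cast card_pos.2 hY
      have hXY' : (X.card : ℝ) * Y.card ≤ (M'.card : ℝ) ^ (K / τ) := by
        rcases le_or_gt 0 K with hK | hK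
        · refine hXY.trans ?_
          have h1 := hpow (K / τ) (by positivity)
          rwa [mul_div_cancel₀ K hτ.ne'] at h1
        · -- `X` and `Y` are single points and `A` as well
          have h1 : (A.card : ℝ) ^ K ≤ 1 := Real.rpow_le_one_of_one_le_of_nonpos hN1 hK.le
          have h2 : (1 : ℝ) ≤ (X.card : ℝ) * Y.card := by nlinarith
          have h3 : (A.card : ℝ) ^ K = 1 := le_antisymm h1 (h2.trans hXY)
          have h4 : (A.card : ℝ) = 1 := by
            by_contra hne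
            have h5 : (1 : ℝ) < A.card := lt_of_le_of_ne hN1 (Ne.symm hne)
            have h6 := Real.rpow_lt_one_of_one_lt_of_neg h5 hK
            linarith
          have h5 : (M'.card : ℝ) ≤ A.card := by exact_mod_cast card_le_card hM'A
          have h6 : (M'.card : ℝ) = 1 := le_antisymm (by linarith) hM'1
          rw [h6, Real.one_rpow]
          linarith
      obtain ⟨E₁, hE₁, hE₁c, hE₁g⟩ := hSg X Y hX hY hXY
      obtain ⟨E₂, hE₂, hE₂c, hE₂g⟩ := hmain M' M' hM'n hM'0 (Subset.refl _) (by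
          calc (M'.card : ℝ) ^ (1 - η) ≤ (M'.card : ℝ) ^ (1 : ℝ) :=
                rpow_mono_exp hM'1 (by linarith)
            _ = _ := Real.rpow_one _) ⟨B, hB, hB0, hcon⟩ X Y hX hY hXY'
      refine ⟨E₁ ∪ E₂, union_subset_union hE₁ hE₂, ?_, fun a ha => ?_⟩
      · have h1 : ((E₁ ∪ E₂).card : ℝ) ≤ E₁.card + E₂.card := by
          exact_mod_cast card_union_le _ _
        have h2 : (E₂.card : ℝ) ≤ M'.card * (A.card : ℝ) ^ (-(τ * η)) := by
          refine hE₂c.trans ?_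
          have h3 : (A.card : ℝ) ^ (τ * η) ≤ (M'.card : ℝ) ^ (2 * η) :=
            (hpow η hη.le).trans (rpow_mono_exp hM'1 (by linarith))
          rw [Real.rpow_sub (by linarith), Real.rpow_one, Real.rpow_neg hN0.le, ← div_eq_mul_inv]
          exact div_le_div_of_nonneg_left (by linarith) (Real.rpow_pos_of_pos hN0 _) h3
        rw [card_union_of_disjoint hdis]
        push_cast
        rw [add_mul]
        linarith
      · rw [mem_sdiff, mem_union, mem_union, not_or] at ha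
        rcases ha.1 with h | h
        · exact hE₁g a (mem_sdiff.2 ⟨h, ha.2.1⟩)
        · obtain ⟨T, hT, hw⟩ := hE₂g a (mem_sdiff.2 ⟨h, ha.2.2⟩)
          have h1 : (n : ℝ) * (A.card : ℝ) ^ (τ * η) ≤ n * (M'.card : ℝ) ^ η :=
            mul_le_mul_of_nonneg_left (hpow η hη.le) (Nat.cast_nonneg n)
          exact ⟨T, hT, fun w hw0 hwT hwn hwd =>
            hw w hw0 hwT (hwn.trans h1) (hwd.trans h1)⟩
    have h1 := hmax _ hgood
    rw [card_union_of_disjoint hdis] at h1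
    omega
  · intro X B hX hB hXB
    obtain ⟨E, hE, hEc, hEg⟩ := hSg X B hX hB hXB
    refine ⟨E, hE, hEc.trans ?_, hEg⟩
    have h1 : (S.card : ℝ) ≤ A.card := by exact_mod_cast card_le_card hSA
    calc (S.card : ℝ) * (A.card : ℝ) ^ (-(τ * η))
        ≤ (A.card : ℝ) * (A.card : ℝ) ^ (-(τ * η)) :=
          mul_le_mul_of_nonneg_right h1 (by positivity)
      _ = (A.card : ℝ) ^ (1 - τ * η) := by
          rw [sub_eq_add_neg, Real.rpow_add hN0, Real.rpow_one]

/-- the dichotomy, almost all dilates -/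
theorem dicho_all {n : ℕ} {η c ε K : ℝ} (hη : 0 < η) (hmain : PG n η c ε K)
    (A : Finset ℚ) (hA : A.Nonempty) (hA0 : (0 : ℚ) ∉ A) :
    (∀ B : Finset ℂ, B.Nonempty → (0 : ℂ) ∉ B →
          c * ((A.card : ℝ) * B.card) ^ (1 - ε) ≤ (mulC A B).card) ∨
      (∀ X B : Finset ℂ, X.Nonempty → B.Nonempty → (X.card : ℝ) * B.card ≤ (A.card : ℝ) ^ K →
        ∃ E : Finset ℚ, E ⊆ A ∧ (E.card : ℝ) ≤ (A.card : ℝ) ^ (1 - 2 * η) ∧
          ∀ a ∈ A \ E, ∃ T : Finset ℚ,
          T.card < n ∧ ∀ w : ℚ, w ≠ 0 → w ∉ T → |(w.num : ℝ)| ≤ n * (A.card : ℝ) ^ η →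
          (w.den : ℝ) ≤ n * (A.card : ℝ) ^ η →
          c * ((X.card : ℝ) * B.card) ^ (1 - ε) ≤ (dilC (w * a) X B).card) := by
  have hN1 : (1 : ℝ) ≤ A.card := by exact_mod_cast card_pos.2 hA
  by_cases hL : ∀ B : Finset ℂ, B.Nonempty → (0 : ℂ) ∉ B →
      c * ((A.card : ℝ) * B.card) ^ (1 - ε) ≤ (mulC A B).card
  · exact Or.inl hL
  right
  push Not at hL
  intro X B hX hB hXB
  exact hmain A A hA hA0 (Subset.refl _) (by
      calc (A.card : ℝ) ^ (1 - η) ≤ (A.card : ℝ) ^ (1 : ℝ) := rpow_mono_exp hN1 (by linarith)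
        _ = _ := Real.rpow_one _) hL X B hX hB hXB

/-- the dichotomy, one dilate -/
theorem dicho {n : ℕ} {η c ε K : ℝ} (hn : 0 < n) (hη : 0 < η) (hc1 : c ≤ 1)
    (hmain : PG n η c ε K) (A : Finset ℚ) (hA : A.Nonempty) (hA0 : (0 : ℚ) ∉ A) :
    (∀ B : Finset ℂ, B.Nonempty → (0 : ℂ) ∉ B →
          c * ((A.card : ℝ) * B.card) ^ (1 - ε) ≤ (mulC A B).card) ∨
      (∀ X B : Finset ℂ, X.Nonempty → B.Nonempty → (X.card : ℝ) * B.card ≤ (A.card : ℝ) ^ K →
        ∃ a ∈ A, ∃ T : Finset ℚ,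
          T.card < n ∧ ∀ w : ℚ, w ≠ 0 → w ∉ T → |(w.num : ℝ)| ≤ n * (A.card : ℝ) ^ η →
          (w.den : ℝ) ≤ n * (A.card : ℝ) ^ η →
          c * ((X.card : ℝ) * B.card) ^ (1 - ε) ≤ (dilC (w * a) X B).card) := by
  have hN1 : (1 : ℝ) ≤ A.card := by exact_mod_cast card_pos.2 hA
  have hN0 : (0 : ℝ) < A.card := by linarith
  rcases dicho_all hη hmain A hA hA0 with hL | hR
  · exact Or.inl hL
  right
  intro X B hX hB hXB
  have hXc : (1 : ℝ) ≤ X.card := by exact_mod_cast card_pos.2 hX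
  have hBc : (1 : ℝ) ≤ B.card := by exact_mod_cast card_pos.2 hB
  rcases hN1.eq_or_lt with h1 | h1
  · -- a single element
    obtain ⟨a, ha⟩ := hA
    refine ⟨a, ha, ∅, hn, fun w _ _ _ _ => ?_⟩
    rw [← h1, Real.one_rpow] at hXB
    have h2 : (X.card : ℝ) * B.card = 1 := le_antisymm hXB (by nlinarith)
    rw [h2, Real.one_rpow, mul_one]
    have h3 : 0 < (dilC (w * a) X B).card := card_pos.2 (hX.image₂ hB)
    have h4 : (1 : ℝ) ≤ (dilC (w * a) X B).card := by exact_mod_cast h3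
    linarith
  · obtain ⟨E, hE, hEc, hEg⟩ := hR X B hX hB hXB
    have h2 : (E.card : ℝ) < A.card := by
      refine hEc.trans_lt ?_
      calc (A.card : ℝ) ^ (1 - 2 * η) < (A.card : ℝ) ^ (1 : ℝ) :=
            Real.rpow_lt_rpow_of_exponent_lt h1 (by linarith)
        _ = _ := Real.rpow_one _
    have h3 : (A \ E).Nonempty := by
      rw [sdiff_nonempty]
      intro h
      have := card_le_card h
      have h4 : (A.card : ℝ) ≤ E.card := by exact_mod_cast this
      linarith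
    obtain ⟨a, ha⟩ := h3
    exact ⟨a, (mem_sdiff.1 ha).1, hEg a ha⟩

/-- three variables -/
theorem expander {n : ℕ} {η c ε K : ℝ} (hn : 0 < n) (hη : 0 < η) (hc : 0 < c) (hc1 : c ≤ 1)
    (hε1 : ε < 1) (hmain : PG n η c ε K) (A : Finset ℚ) (X B : Finset ℂ)
    (hA : A.Nonempty) (hA0 : (0 : ℚ) ∉ A) (hX : X.Nonempty) (hX0 : (0 : ℂ) ∉ X)
    (hB : B.Nonempty) (hXB : (X.card : ℝ) * B.card ≤ (A.card : ℝ) ^ K) :
    ∃ T : Finset ℚ,
          T.card < n ∧ ∀ w : ℚ, w ≠ 0 → w ∉ T → |(w.num : ℝ)| ≤ n * (A.card : ℝ) ^ η →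
          (w.den : ℝ) ≤ n * (A.card : ℝ) ^ η →
          c * ((X.card : ℝ) * min (A.card : ℝ) B.card) ^ (1 - ε) ≤
            (dilC w (mulC A X) B).card := by
  rcases dicho hn hη hc1 hmain A hA hA0 with h | h
  · refine ⟨∅, hn, fun w hw0 _ _ _ => ?_⟩
    have h1 := h X hX hX0
    obtain ⟨b, hb⟩ := id hB
    have h2 : (mulC A X).card ≤ (dilC w (mulC A X) B).card := by
      have h3 : (mulC A X).image (fun x => (w : ℂ) * x + b) ⊆ dilC w (mulC A X) B := by
        intro y hy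
        obtain ⟨x, hx, rfl⟩ := mem_image.1 hy
        exact mem_image₂_of_mem hx hb
      have h4 := card_le_card h3
      have hw0' : (w : ℂ) ≠ 0 := by exact_mod_cast hw0
      rwa [card_image_of_injective _ (fun x y hxy => by
        have : (w : ℂ) * x = w * y := add_right_cancel hxy
        exact mul_left_cancel₀ hw0' this)] at h4
    have h3 : ((mulC A X).card : ℝ) ≤ (dilC w (mulC A X) B).card := by exact_mod_cast h2
    refine le_trans ?_ (h1.trans h3)
    apply mul_le_mul_of_nonneg_left _ hc.le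
    apply Real.rpow_le_rpow (by positivity) _ (by linarith)
    rw [mul_comm (A.card : ℝ)]
    exact mul_le_mul_of_nonneg_left (min_le_left _ _) (by positivity)
  · obtain ⟨a, ha, T, hT, hg⟩ := h X B hX hB hXB
    refine ⟨T, hT, fun w hw0 hwT hwn hwd => ?_⟩
    have h1 := hg w hw0 hwT hwn hwd
    have h2 : (dilC (w * a) X B).card ≤ (dilC w (mulC A X) B).card := by
      apply card_le_card
      intro y hy
      obtain ⟨x, hx, b, hb, rfl⟩ := mem_image₂.1 hy
      refine mem_image₂.2 ⟨(a : ℂ) * x, mem_image₂_of_mem ha hx, b, hb, ?_⟩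
      push_cast
      ring
    have h3 : ((dilC (w * a) X B).card : ℝ) ≤ (dilC w (mulC A X) B).card := by exact_mod_cast h2
    refine le_trans ?_ (h1.trans h3)
    apply mul_le_mul_of_nonneg_left _ hc.le
    apply Real.rpow_le_rpow (by positivity) _ (by linarith)
    exact mul_le_mul_of_nonneg_left (min_le_right _ _) (by positivity)

/-- iteration of a growth inequality -/
lemma iter_growth {c δ N : ℝ} (hc : 0 < c) (hc1 : c ≤ 1) (hδ : 0 < δ) (hδ1 : δ ≤ 1) (hN : 1 ≤ N)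
    {j : ℕ} {f g : ℝ} (hf : c ^ j * N ^ (((j : ℝ) + 1) - ((j : ℝ) + 1) ^ 2 * δ) ≤ f)
    (hg : c * (N * f) ^ (1 - δ) ≤ g) :
    c ^ (j + 1) * N ^ (((j : ℝ) + 2) - ((j : ℝ) + 2) ^ 2 * δ) ≤ g := by
  have hN0 : 0 < N := by linarith
  refine le_trans ?_ hg
  have h1 : (c ^ j * N ^ (((j : ℝ) + 2) - ((j : ℝ) + 1) ^ 2 * δ)) ^ (1 - δ) ≤
      (N * f) ^ (1 - δ) := by
    apply Real.rpow_le_rpow (by positivity) _ (by linarith)
    calc c ^ j * N ^ (((j : ℝ) + 2) - ((j : ℝ) + 1) ^ 2 * δ)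
        = N * (c ^ j * N ^ (((j : ℝ) + 1) - ((j : ℝ) + 1) ^ 2 * δ)) := by
          have e1 : ((j : ℝ) + 2) - ((j : ℝ) + 1) ^ 2 * δ =
              1 + (((j : ℝ) + 1) - ((j : ℝ) + 1) ^ 2 * δ) := by ring
          rw [e1, Real.rpow_add hN0, Real.rpow_one]
          ring
      _ ≤ N * f := mul_le_mul_of_nonneg_left hf hN0.le
  have h2 : c ^ j * N ^ (((j : ℝ) + 2) - ((j : ℝ) + 2) ^ 2 * δ) ≤
      (c ^ j * N ^ (((j : ℝ) + 2) - ((j : ℝ) + 1) ^ 2 * δ)) ^ (1 - δ) := by
    rw [Real.mul_rpow (by positivity) (by positivity), ← Real.rpow_mul hN0.le]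
    apply mul_le_mul _ _ (by positivity) (by positivity)
    · have hcj : c ^ j ≤ 1 := pow_le_one₀ hc.le hc1
      have hcj0 : 0 < c ^ j := by positivity
      calc c ^ j = (c ^ j) ^ (1 : ℝ) := (Real.rpow_one _).symm
        _ ≤ (c ^ j) ^ (1 - δ) :=
          Real.rpow_le_rpow_of_exponent_ge hcj0 hcj (by linarith)
    · apply rpow_mono_exp hN
      have hj : (0 : ℝ) ≤ j := Nat.cast_nonneg j
      have h3 : 0 ≤ δ * δ * ((j : ℝ) + 1) ^ 2 := by positivity
      have h4 : 0 ≤ δ * ((j : ℝ) + 1) := by positivity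
      nlinarith
  calc c ^ (j + 1) * N ^ (((j : ℝ) + 2) - ((j : ℝ) + 2) ^ 2 * δ)
      = c * (c ^ j * N ^ (((j : ℝ) + 2) - ((j : ℝ) + 2) ^ 2 * δ)) := by
        rw [pow_succ]
        ring
    _ ≤ _ := mul_le_mul_of_nonneg_left (h2.trans h1) hc.le

/-- `{r x₀ + t₁ x₁ + … + t_k x_k : x₀, …, x_k ∈ A}` -/
def sumDil {k : ℕ} (r : ℚ) (t : Fin k → ℚ) (A : Finset ℚ) : Finset ℚ :=
  (A ×ˢ Fintype.piFinset fun _ : Fin k => A).image fun x => r * x.1 + ∑ i, t i * x.2 i

lemma cast_card (A : Finset ℚ) : (A.image (Rat.cast : ℚ → ℂ)).card = A.card :=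
  card_image_of_injective _ Rat.cast_injective

lemma sumDil_cons {k : ℕ} (r s : ℚ) (t : Fin k → ℚ) (A : Finset ℚ) :
    (dilC s (A.image (Rat.cast : ℚ → ℂ)) ((sumDil r t A).image (Rat.cast : ℚ → ℂ))).card ≤
      (sumDil r (Fin.cons s t : Fin (k + 1) → ℚ) A).card := by
  rw [← cast_card (sumDil r (Fin.cons s t : Fin (k + 1) → ℚ) A)]
  apply card_le_card
  intro y hy
  obtain ⟨x', hx', b', hb', rfl⟩ := mem_image₂.1 hy
  obtain ⟨x, hx, rfl⟩ := mem_image.1 hx'
  obtain ⟨b, hb, rfl⟩ := mem_image.1 hb'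
  obtain ⟨⟨x₀, z⟩, hz, rfl⟩ := mem_image.1 hb
  rw [mem_product, Fintype.mem_piFinset] at hz
  refine mem_image.2 ⟨s * x + (r * x₀ + ∑ i, t i * z i),
    mem_image.2 ⟨(x₀, Fin.cons x z), ?_, ?_⟩, ?_⟩
  · rw [mem_product, Fintype.mem_piFinset]
    refine ⟨hz.1, fun i => ?_⟩
    refine Fin.cases ?_ (fun i => ?_) i
    · simpa using hx
    · simpa using hz.2 i
  · show r * x₀ + ∑ i, (Fin.cons s t : Fin (k + 1) → ℚ) i * (Fin.cons x z : Fin (k + 1) → ℚ) i = _
    rw [Fin.sum_univ_succ]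
    simp only [Fin.cons_zero, Fin.cons_succ]
    ring
  · push_cast
    ring

lemma pow_cast (A : Finset ℚ) (j : ℕ) :
    (mulC A ((A ^ j).image (Rat.cast : ℚ → ℂ))).card ≤ (A ^ (j + 1)).card := by
  rw [← cast_card (A ^ (j + 1))]
  apply card_le_card
  intro y hy
  obtain ⟨a, ha, b', hb', rfl⟩ := mem_image₂.1 hy
  obtain ⟨b, hb, rfl⟩ := mem_image.1 hb'
  refine mem_image.2 ⟨a * b, ?_, by push_cast; rfl⟩
  rw [pow_succ']
  exact mul_mem_mul ha hb

theorem kfold (k : ℕ) (ε : ℝ) (hε : 0 < ε) (hε1 : ε < 1) :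
    ∃ n : ℕ, 0 < n ∧ ∃ c : ℝ, 0 < c ∧ ∀ A : Finset ℚ, A.Nonempty → (0 : ℚ) ∉ A →
      c * (A.card : ℝ) ^ ((k : ℝ) + 1 - ε) ≤ (A ^ (k + 1)).card ∨
      ∀ r : ℚ, r ≠ 0 → ∃ (a : Fin k → ℚ) (w : Fin k → ℕ), (∀ i, a i ∈ A) ∧
        (∀ i, 1 ≤ w i ∧ w i ≤ n) ∧
        c * (A.card : ℝ) ^ ((k : ℝ) + 1 - ε) ≤ (sumDil r (fun i => w i * a i) A).card := by
  set δ := ε / ((k : ℝ) + 1) ^ 2 with hδd
  have hk0 : (0 : ℝ) ≤ k := Nat.cast_nonneg k
  have hδ : 0 < δ := by positivity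
  have hδε : δ * ((k : ℝ) + 1) ^ 2 = ε := by
    rw [hδd]
    field_simp
  have hδ1 : δ < 1 := by
    have h1 : (1 : ℝ) ≤ ((k : ℝ) + 1) ^ 2 := one_le_pow₀ (by linarith)
    nlinarith
  obtain ⟨n, hn, η, c, hη, hc, hc1, hPG⟩ := poor_good δ ((k : ℝ) + 1) hδ hδ1 (by positivity)
  refine ⟨n, hn, c ^ k, by positivity, fun A hA hA0 => ?_⟩
  have hN1 : (1 : ℝ) ≤ A.card := by exact_mod_cast card_pos.2 hA
  have hN0 : (0 : ℝ) < A.card := by linarith
  have hexp : ((k : ℝ) + 1) - ((k : ℝ) + 1) ^ 2 * δ = (k : ℝ) + 1 - ε := by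
    rw [mul_comm, hδε]
  rw [← hexp]
  rcases dicho hn hη hc1 hPG A hA hA0 with h | h
  · left
    have hall : ∀ j : ℕ, c ^ j * (A.card : ℝ) ^ (((j : ℝ) + 1) - ((j : ℝ) + 1) ^ 2 * δ) ≤
        (A ^ (j + 1)).card := by
      intro j
      induction j with
      | zero =>
        rw [pow_zero, one_mul, zero_add, pow_one]
        calc (A.card : ℝ) ^ (((0 : ℕ) : ℝ) + 1 - (((0 : ℕ) : ℝ) + 1) ^ 2 * δ)
            ≤ (A.card : ℝ) ^ (1 : ℝ) := rpow_mono_exp hN1 (by push_cast; linarith)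
          _ = _ := Real.rpow_one _
      | succ j ih =>
        have h1 := h ((A ^ (j + 1)).image (Rat.cast : ℚ → ℂ)) (by
            apply Nonempty.image
            exact hA.pow) (by
            intro h0
            obtain ⟨q, hq, hq0⟩ := mem_image.1 h0
            have hq0' : q = 0 := by exact_mod_cast hq0
            rw [hq0'] at hq
            have hall0 : ∀ i : ℕ, ∀ x ∈ A ^ i, x ≠ 0 := by
              intro i
              induction i with
              | zero => simp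
              | succ i ihi =>
                intro x hx
                rw [pow_succ] at hx
                obtain ⟨y, hy, z, hz, rfl⟩ := mem_mul.1 hx
                exact mul_ne_zero (ihi y hy) (fun h => hA0 (h ▸ hz))
            exact hall0 _ _ hq rfl)
        rw [cast_card] at h1
        have h2 := iter_growth hc hc1 hδ hδ1.le hN1 ih h1
        have h3 : ((mulC A ((A ^ (j + 1)).image (Rat.cast : ℚ → ℂ))).card : ℝ) ≤
            (A ^ (j + 1 + 1)).card := by exact_mod_cast pow_cast A (j + 1)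
        refine le_trans (le_of_eq ?_) (h2.trans h3)
        push_cast
        congr 2
        ring
    exact hall k
  · right
    have hpick : ∀ X B : Finset ℂ, X.Nonempty → B.Nonempty →
        (X.card : ℝ) * B.card ≤ (A.card : ℝ) ^ ((k : ℝ) + 1) →
        ∃ a ∈ A, ∃ w : ℕ, 1 ≤ w ∧ w ≤ n ∧
          c * ((X.card : ℝ) * B.card) ^ (1 - δ) ≤ (dilC (w * a) X B).card := by
      intro X B hX hB hXB
      obtain ⟨a, ha, T, hT, hg⟩ := h X B hX hB hXB
      have h1 : ∃ w ∈ Finset.Icc 1 n, ((w : ℕ) : ℚ) ∉ T := by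
        by_contra hcon
        push Not at hcon
        have h2 : ((Finset.Icc 1 n).image (Nat.cast : ℕ → ℚ)) ⊆ T := by
          intro q hq
          obtain ⟨w, hw, rfl⟩ := mem_image.1 hq
          exact hcon w hw
        have h3 := card_le_card h2
        rw [card_image_of_injective _ Nat.cast_injective, Nat.card_Icc] at h3
        omega
      obtain ⟨w, hw, hwT⟩ := h1
      rw [Finset.mem_Icc] at hw
      have hNη : 1 ≤ (A.card : ℝ) ^ η := Real.one_le_rpow hN1 hη.le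
      have hn1 : (1 : ℝ) ≤ n := by exact_mod_cast hn
      have hwn : (w : ℝ) ≤ n := by exact_mod_cast hw.2
      refine ⟨a, ha, w, hw.1, hw.2, hg w ?_ hwT ?_ ?_⟩
      · have : w ≠ 0 := by omega
        exact_mod_cast this
      · rw [Rat.num_natCast]
        push_cast
        rw [Nat.abs_cast]
        nlinarith
      · rw [Rat.den_natCast]
        push_cast
        nlinarith
    intro r hr
    have hall : ∀ j : ℕ, j ≤ k → ∃ (a : Fin j → ℚ) (w : Fin j → ℕ), (∀ i, a i ∈ A) ∧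
        (∀ i, 1 ≤ w i ∧ w i ≤ n) ∧
        c ^ j * (A.card : ℝ) ^ (((j : ℝ) + 1) - ((j : ℝ) + 1) ^ 2 * δ) ≤
          (sumDil r (fun i => w i * a i) A).card := by
      intro j
      induction j with
      | zero =>
        intro _
        refine ⟨Fin.elim0, Fin.elim0, fun i => i.elim0, fun i => i.elim0, ?_⟩
        rw [pow_zero, one_mul]
        have h1 : A.image (fun x => r * x) ⊆
            sumDil r (fun i : Fin 0 => ((Fin.elim0 i : ℕ) : ℚ) * (Fin.elim0 i : ℚ)) A := by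
          intro y hy
          obtain ⟨x, hx, rfl⟩ := mem_image.1 hy
          refine mem_image.2 ⟨(x, Fin.elim0), mem_product.2 ⟨hx, ?_⟩, ?_⟩
          · rw [Fintype.mem_piFinset]
            exact fun i => i.elim0
          · simp
        have h2 : (A.card : ℝ) ≤
            (sumDil r (fun i : Fin 0 => ((Fin.elim0 i : ℕ) : ℚ) * (Fin.elim0 i : ℚ)) A).card := by
          have h3 := card_le_card h1
          rw [card_image_of_injective _ (mul_right_injective₀ hr)] at h3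
          exact_mod_cast h3
        refine le_trans ?_ h2
        calc (A.card : ℝ) ^ (((0 : ℕ) : ℝ) + 1 - (((0 : ℕ) : ℝ) + 1) ^ 2 * δ)
            ≤ (A.card : ℝ) ^ (1 : ℝ) := rpow_mono_exp hN1 (by push_cast; linarith)
          _ = _ := Real.rpow_one _
      | succ j ih =>
        intro hj
        obtain ⟨a, w, ha, hw, hle⟩ := ih (by omega)
        set D := sumDil r (fun i => (w i : ℚ) * a i) A with hD
        have hDn : D.Nonempty := by
          apply Nonempty.image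
          refine hA.product ?_
          exact Fintype.piFinset_nonempty.2 fun _ => hA
        have hDc : (D.card : ℝ) ≤ (A.card : ℝ) ^ (j + 1) := by
          have h1 : D.card ≤ A.card ^ (j + 1) := by
            refine card_image_le.trans ?_
            rw [card_product, Fintype.card_piFinset_const, pow_succ']
          exact_mod_cast h1
        obtain ⟨a', ha', w', hw1, hwn, hg⟩ := hpick (A.image (Rat.cast : ℚ → ℂ))
          (D.image (Rat.cast : ℚ → ℂ)) (hA.image _) (hDn.image _) (by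
            rw [cast_card, cast_card]
            calc (A.card : ℝ) * D.card ≤ A.card * (A.card : ℝ) ^ (j + 1) :=
                  mul_le_mul_of_nonneg_left hDc hN0.le
              _ = (A.card : ℝ) ^ (((j + 2 : ℕ) : ℝ)) := by
                  rw [Real.rpow_natCast, pow_succ' _ (j + 1)]
              _ ≤ (A.card : ℝ) ^ ((k : ℝ) + 1) := by
                  apply rpow_mono_exp hN1
                  have : ((j : ℝ) + 1) ≤ k := by exact_mod_cast hj
                  push_cast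
                  linarith)
        rw [cast_card, cast_card] at hg
        refine ⟨Fin.cons a' a, Fin.cons w' w, fun i => ?_, fun i => ?_, ?_⟩
        · refine Fin.cases ?_ (fun i => ?_) i
          · simpa using ha'
          · simpa using ha i
        · refine Fin.cases ?_ (fun i => ?_) i
          · simpa using ⟨hw1, hwn⟩
          · simpa using hw i
        · have h2 := iter_growth hc hc1 hδ hδ1.le hN1 hle hg
          have h3 := sumDil_cons r ((w' : ℚ) * a') (fun i => (w i : ℚ) * a i) A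
          have e1 : (fun i : Fin (j + 1) => (((Fin.cons w' w : Fin (j + 1) → ℕ) i : ℕ) : ℚ) *
              (Fin.cons a' a : Fin (j + 1) → ℚ) i) =
              (Fin.cons ((w' : ℚ) * a') (fun i => (w i : ℚ) * a i) : Fin (j + 1) → ℚ) := by
            funext i
            refine Fin.cases ?_ (fun i => ?_) i
            · simp
            · simp
          rw [e1]
          have h4 : ((dilC ((w' : ℚ) * a') (A.image (Rat.cast : ℚ → ℂ))
              (D.image (Rat.cast : ℚ → ℂ))).card : ℝ) ≤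
              (sumDil r (Fin.cons ((w' : ℚ) * a') (fun i => (w i : ℚ) * a i) :
                Fin (j + 1) → ℚ) A).card := by exact_mod_cast h3
          refine le_trans (le_of_eq ?_) (h2.trans h4)
          push_cast
          congr 2
          ring
    exact hall k le_rfl

end Pool.Agent.Helper63.SD
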