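import Pool.Agent.Helper63.SD.Lev

/-!
Dilates by integers with many different `p`-adic valuations.
-/

set_option autoImplicit false

namespace Pool.Agent.Helper63.SD

open Finset PE
open scoped Pointwise Classical

/-- for every pair there are few bad exponents -/
lemma bad_count {p : ℕ} (X B : Finset ℤ) {θ R : ℝ} (hθ : 0 < θ)
    (hθ1 : θ ≤ 1 / 9) (hR : 0 ≤ R) (N : ℕ) (E : Finset ℕ) (s : ℤ × ℤ) (hs : s ∈ X ×ˢ B) :
    ((E.filter fun e => Bad θ R p X B N e 0 s).card : ℝ) ≤ (R / θ + 1) ^ 2 := by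
  obtain ⟨h1, h2⟩ := mem_product.1 hs
  have hX := pop_bound (p := p) h1 hθ hθ1 hR N
  have hB := pop_bound (p := p) h2 hθ hθ1 hR N
  have hsub : (E.filter fun e => Bad θ R p X B N e 0 s) ⊆
      (((range N).filter fun j => Pop θ R p X j s.1) ×ˢ
        ((range N).filter fun j => Pop θ R p B j s.2)).image fun t => t.2 - t.1 := by
    intro e he
    rw [mem_filter] at he
    obtain ⟨i', _, g1, g2, g3, g4⟩ := he.2
    rw [mem_image]
    refine ⟨(i' - e, i'), mem_product.2 ⟨mem_filter.2 ⟨mem_range.2 (by omega), g3⟩,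
      mem_filter.2 ⟨mem_range.2 g1, g4⟩⟩, ?_⟩
    show i' - (i' - e) = e
    omega
  have hc := (card_le_card hsub).trans card_image_le
  rw [card_product] at hc
  have hc' : ((E.filter fun e => Bad θ R p X B N e 0 s).card : ℝ) ≤
      ((range N).filter fun j => Pop θ R p X j s.1).card *
        ((range N).filter fun j => Pop θ R p B j s.2).card := by exact_mod_cast hc
  refine hc'.trans ?_
  rw [sq]
  exact mul_le_mul hX hB (Nat.cast_nonneg _) (by positivity)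

/-- **Many valuations**: the sum over the exponents -/
theorem step_large {p : ℕ} (hp : p.Prime) (W : Finset ℤ) (hW : W.Nonempty)
    (hWp : ∀ u ∈ W, ¬ (p : ℤ) ∣ u) (E : Finset ℕ) (D : ℕ → Finset ℤ) (w : ℕ → ℤ → ℝ)
    (hw : ∀ e ∈ E, ∀ a ∈ D e, 0 ≤ w e a) (hw1 : ∀ e ∈ E, ∑ a ∈ D e, w e a = 1)
    (hD : ∀ e ∈ E, ∀ a ∈ D e, (p : ℤ) ^ e ∣ a ∧ ¬ (p : ℤ) ^ (e + 1) ∣ a)
    {θ δ : ℝ} (hθ : 0 < θ) (hθ1 : θ ≤ 1 / 9) (hδ : 4 / Real.log (1 / θ) ≤ δ)
    {C0 R : ℝ} (P : ℝ → ℝ) (hC0 : 0 ≤ C0) (hP0 : ∀ S, 0 ≤ P S) (hPm : Monotone P) (hR : 0 ≤ R)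
    (hV : ∀ e ∈ E, ∀ X B : Finset ℤ, X.Nonempty → B.Nonempty →
      (1 - δ) * Sz X B - C0 - P (Sz X B) ≤ vv W (D e) (w e) X B)
    (X B : Finset ℤ) (hX : X.Nonempty) (hB : B.Nonempty) :
    E.card * ((1 - δ) * Sz X B - C0) -
      (E.card * P (Sz X B - R) + P (Sz X B) * (R / θ + 1) ^ 2) ≤
      ∑ e ∈ E, vv W (D e) (w e) X B := by
  obtain ⟨J1, hJ1⟩ := mx_large hp.two_le X
  obtain ⟨J2, hJ2⟩ := mx_large hp.two_le B
  set N := J1 + J2 + E.sup id with hN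
  have cXB : (0 : ℝ) < (X ×ˢ B).card := by exact_mod_cast (hX.product hB).card_pos
  obtain ⟨x0, hx0⟩ := id hX
  obtain ⟨y0, hy0⟩ := id hB
  have hone : ∀ Y : Finset ℤ, ∀ y : ℤ, cls 1 Y y = Y := by
    intro Y y
    unfold cls
    exact filter_true_of_mem fun z _ => one_dvd _
  have h1 : ∀ e ∈ E, (1 - δ) * Sz X B - C0 - (P (Sz X B - R) + P (Sz X B) *
      ((((X ×ˢ B).filter (Bad θ R p X B N e 0)).card : ℝ) /
        (X ×ˢ B).card)) ≤ vv W (D e) (w e) X B := by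
    intro e he
    have hle : e ≤ E.sup id := Finset.le_sup (f := id) he
    have h2 := levels hp W hW hWp (D e) (w e) (hw e he) (hw1 e he) e (hD e he) hθ hθ1 hδ X B
      (R := R) P hC0 hP0 hPm (hV e he) N (hJ1 _ (by omega)) (hJ2 _ (by omega)) N 0 (by omega)
      x0 hx0 y0 hy0
    rw [Nat.zero_sub, pow_zero, hone, hone] at h2
    exact h2
  have h2 := sum_le_sum h1
  refine le_trans ?_ h2
  rw [sum_sub_distrib, sum_const, nsmul_eq_mul, sum_add_distrib, sum_const,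
    nsmul_eq_mul, ← mul_sum, ← sum_div]
  have h3 : (∑ e ∈ E, (((X ×ˢ B).filter (Bad θ R p X B N e 0)).card : ℝ)) / (X ×ˢ B).card ≤
      (R / θ + 1) ^ 2 := by
    rw [div_le_iff₀ cXB]
    have e1 : ∑ e ∈ E, (((X ×ˢ B).filter (Bad θ R p X B N e 0)).card : ℝ) =
        ∑ s ∈ X ×ˢ B, ((E.filter fun e => Bad θ R p X B N e 0 s).card : ℝ) := by
      simp only [card_filter, Nat.cast_sum]
      rw [sum_comm]
    rw [e1]
    calc ∑ s ∈ X ×ˢ B, ((E.filter fun e => Bad θ R p X B N e 0 s).card : ℝ)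
        ≤ ∑ s ∈ X ×ˢ B, (R / θ + 1) ^ 2 :=
          sum_le_sum fun s hs => bad_count X B hθ hθ1 hR N E s hs
      _ = (R / θ + 1) ^ 2 * (X ×ˢ B).card := by rw [sum_const, nsmul_eq_mul, mul_comm]
  have h5 := mul_le_mul_of_nonneg_left h3 (hP0 (Sz X B))
  linarith

end Pool.Agent.Helper63.SD
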