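import Pool.Agent.Helper63.SD.TwoMain
import Pool.Agent.Helper63.SD.Large

/-!
Sets of good dilates: the combined step.
-/

set_option autoImplicit false

namespace Pool.Agent.Helper63.SD

open Finset
open scoped Pointwise Classical

/-- `D` is a good set of dilates of rank `ψ` -/
def Good (W : Finset ℤ) (δ κ C0 ψ : ℝ) (D : Finset ℤ) : Prop :=
  ∃ w : ℤ → ℝ, (∀ a ∈ D, 0 ≤ w a) ∧ ∑ a ∈ D, w a = 1 ∧
    ∀ X B : Finset ℤ, X.Nonempty → B.Nonempty →
      bdd δ C0 (1 / κ * Real.exp (-ψ)) κ (Sz X B) ≤ vv W D w X B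

/-- the elements of `D` of `p`-adic valuation `e` -/
def fib (p e : ℕ) (D : Finset ℤ) : Finset ℤ :=
  D.filter fun a => (p : ℤ) ^ e ∣ a ∧ ¬ (p : ℤ) ^ (e + 1) ∣ a

lemma fib_sub (p e : ℕ) (D : Finset ℤ) : fib p e D ⊆ D := filter_subset _ _

lemma mem_fib {p e : ℕ} {D : Finset ℤ} {a : ℤ} (h : a ∈ fib p e D) :
    (p : ℤ) ^ e ∣ a ∧ ¬ (p : ℤ) ^ (e + 1) ∣ a := (mem_filter.1 h).2

lemma Good.nonempty {W : Finset ℤ} {δ κ C0 ψ : ℝ} {D : Finset ℤ} (h : Good W δ κ C0 ψ D) :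
    D.Nonempty := by
  obtain ⟨w, _, h1, _⟩ := h
  rw [nonempty_iff_ne_empty]
  rintro rfl
  rw [sum_empty] at h1
  exact zero_ne_one h1

lemma vv_extend (W D D' : Finset ℤ) (hDD : D' ⊆ D) (w : ℤ → ℝ) (X B : Finset ℤ) :
    vv W D (fun a => if a ∈ D' then w a else 0) X B = vv W D' w X B := by
  unfold vv
  have e1 : ∀ a ∈ D, (if a ∈ D' then w a else 0) * v1 W a X B =
      if a ∈ D' then w a * v1 W a X B else 0 := by
    intro a _
    split_ifs <;> simp
  rw [sum_congr rfl e1, ← sum_filter]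
  congr 1
  ext a
  rw [mem_filter]
  exact ⟨fun h => h.2, fun h => ⟨hDD h, h⟩⟩

lemma sum_extend (D D' : Finset ℤ) (hDD : D' ⊆ D) (w : ℤ → ℝ) :
    ∑ a ∈ D, (if a ∈ D' then w a else 0) = ∑ a ∈ D', w a := by
  rw [← sum_filter]
  congr 1
  ext a
  rw [mem_filter]
  exact ⟨fun h => h.2, fun h => ⟨hDD h, h⟩⟩

/-- the mean over several fibres -/
lemma good_of_avg (W : Finset ℤ) (δ κ C0 ψ : ℝ) (D : Finset ℤ) {ι : Type*} (E : Finset ι)
    (hE : E.Nonempty) (D' : ι → Finset ℤ) (hD : ∀ e ∈ E, D' e ⊆ D) (w : ι → ℤ → ℝ)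
    (hw : ∀ e ∈ E, ∀ a ∈ D' e, 0 ≤ w e a) (hw1 : ∀ e ∈ E, ∑ a ∈ D' e, w e a = 1)
    (h : ∀ X B : Finset ℤ, X.Nonempty → B.Nonempty →
      bdd δ C0 (1 / κ * Real.exp (-ψ)) κ (Sz X B) ≤
        (∑ e ∈ E, vv W (D' e) (w e) X B) / E.card) : Good W δ κ C0 ψ D := by
  have hN : (0 : ℝ) < E.card := by exact_mod_cast card_pos.2 hE
  refine ⟨fun a => (∑ e ∈ E, if a ∈ D' e then w e a else 0) / E.card, ?_, ?_, ?_⟩
  · intro a _
    refine div_nonneg (sum_nonneg fun e he => ?_) hN.le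
    split_ifs with h1
    · exact hw e he a h1
    · exact le_refl _
  · rw [← sum_div, sum_comm, sum_congr rfl (fun e he => sum_extend D (D' e) (hD e he) (w e)),
      sum_congr rfl hw1, sum_const, nsmul_eq_mul, mul_one, div_self hN.ne']
  · intro X B hX hB
    refine (h X B hX hB).trans (le_of_eq ?_)
    rw [sum_congr rfl (fun e he => (vv_extend W D (D' e) (hD e he) (w e) X B).symm)]
    unfold vv
    rw [sum_comm, sum_div]
    refine sum_congr rfl fun a _ => ?_
    rw [← sum_mul]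
    ring

lemma bdd_anti {δ C0 κ S ψ ψ' : ℝ} (hκ : 0 < κ) (h : ψ' ≤ ψ) :
    bdd δ C0 (1 / κ * Real.exp (-ψ')) κ S ≤ bdd δ C0 (1 / κ * Real.exp (-ψ)) κ S := by
  unfold bdd
  have h1 : Real.exp (-ψ) ≤ Real.exp (-ψ') := Real.exp_le_exp.2 (by linarith)
  have h2 : 1 / κ * Real.exp (-ψ) ≤ 1 / κ * Real.exp (-ψ') :=
    mul_le_mul_of_nonneg_left h1 (by positivity)
  have h3 := mul_le_mul_of_nonneg_right h2 (Real.exp_pos (κ * S)).le
  linarith

lemma Good.mono {W : Finset ℤ} {δ κ C0 ψ ψ' : ℝ} {D : Finset ℤ} (hκ : 0 < κ) (hψ : ψ' ≤ ψ)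
    (h : Good W δ κ C0 ψ D) : Good W δ κ C0 ψ' D := by
  obtain ⟨w, h1, h2, h3⟩ := h
  exact ⟨w, h1, h2, fun X B hX hB => (bdd_anti hκ hψ).trans (h3 X B hX hB)⟩

lemma Good.sub {W : Finset ℤ} {δ κ C0 ψ : ℝ} {D D' : Finset ℤ} (hDD : D' ⊆ D)
    (h : Good W δ κ C0 ψ D') : Good W δ κ C0 ψ D := by
  obtain ⟨w, h1, h2, h3⟩ := h
  refine ⟨fun a => if a ∈ D' then w a else 0, ?_, ?_, ?_⟩
  · intro a _
    show (0 : ℝ) ≤ if a ∈ D' then w a else 0
    split_ifs with h4
    · exact h1 a h4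
    · exact le_refl _
  · rw [sum_extend D D' hDD w]
    exact h2
  · intro X B hX hB
    rw [vv_extend W D D' hDD w]
    exact h3 X B hX hB

lemma good_zero (W : Finset ℤ) {δ κ C0 : ℝ} (hδ : 0 < δ) (hκ : 0 < κ) (hC0 : 0 ≤ C0)
    {D : Finset ℤ} (hD : D.Nonempty) : Good W δ κ C0 0 D := by
  obtain ⟨a0, ha0⟩ := hD
  refine Good.sub (singleton_subset_iff.2 ha0) ⟨fun _ => 1, fun _ _ => zero_le_one, ?_, ?_⟩
  · rw [sum_singleton]
  · intro X B _ _
    refine le_trans ?_ (vv_nonneg W {a0} (fun _ => 1) (fun _ _ => zero_le_one) X B)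
    unfold bdd
    have h1 := Sz_nonneg X B
    have h2 := Real.add_one_le_exp (κ * Sz X B)
    rw [neg_zero, Real.exp_zero, mul_one]
    have h3 : Sz X B ≤ 1 / κ * Real.exp (κ * Sz X B) := by
      rw [one_div, ← div_eq_inv_mul, le_div_iff₀ hκ]
      linarith
    nlinarith

/-- numerical inequality for the large steps -/
lemma num_large {A b : ℝ} (hA : 1 ≤ A) (hb : (82 * A ^ 2) ^ 4 ≤ b) :
    (1 + (A * Real.log b + 1) ^ 2) / b ≤ Real.exp (-(1 / 2 * Real.log b)) := by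
  have hA2 : 1 ≤ A ^ 2 := one_le_pow₀ hA
  have h82 : 1 ≤ 82 * A ^ 2 := by linarith
  have hb1 : 1 ≤ b := (one_le_pow₀ h82).trans hb
  have hb0 : 0 < b := by linarith
  set s : ℝ := b ^ (1 / 8 : ℝ) with hs
  have hs0 : 0 < s := Real.rpow_pos_of_pos hb0 _
  have hs8 : s ^ 8 = b := by
    rw [hs, ← Real.rpow_natCast, ← Real.rpow_mul hb0.le]
    norm_num
  have hs1 : 1 ≤ s := Real.one_le_rpow hb1 (by norm_num)
  have hs2 : 82 * A ^ 2 ≤ s ^ 2 := by
    have h1 : (82 * A ^ 2) ^ 4 ≤ (s ^ 2) ^ 4 := by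
      rw [← pow_mul, hs8]
      exact hb
    exact le_of_pow_le_pow_left₀ (by norm_num) (by positivity) h1
  have hlog : Real.log b = 8 * Real.log s := by
    rw [← hs8, Real.log_pow]
    norm_num
  have hls : Real.log s ≤ s - 1 := Real.log_le_sub_one_of_pos hs0
  have hls0 : 0 ≤ Real.log s := Real.log_nonneg hs1
  have h1 : A * Real.log b + 1 ≤ 8 * A * s := by
    rw [hlog]
    nlinarith
  have h2 : 0 ≤ A * Real.log b + 1 := by
    rw [hlog]
    positivity
  have h3 : (A * Real.log b + 1) ^ 2 ≤ (8 * A * s) ^ 2 := pow_le_pow_left₀ h2 h1 2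
  have h4 : 1 + (A * Real.log b + 1) ^ 2 ≤ 82 * A ^ 2 * s ^ 2 := by
    have h5 : 1 ≤ A ^ 2 * s ^ 2 := by
      have := one_le_pow₀ hs1 (n := 2)
      nlinarith
    nlinarith
  have h5 : Real.exp (-(1 / 2 * Real.log b)) = 1 / s ^ 4 := by
    rw [hlog, Real.exp_neg, show 1 / 2 * (8 * Real.log s) = (4 : ℕ) * Real.log s by
      push_cast; ring, Real.exp_nat_mul, Real.exp_log hs0, one_div]
  rw [h5, div_le_div_iff₀ hb0 (by positivity), one_mul]
  have h6 : (1 + (A * Real.log b + 1) ^ 2) * s ^ 4 ≤ (82 * A ^ 2 * s ^ 2) * s ^ 4 :=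
    mul_le_mul_of_nonneg_right h4 (by positivity)
  refine h6.trans ?_
  have h7 : 82 * A ^ 2 * s ^ 2 * s ^ 4 ≤ s ^ 2 * s ^ 2 * s ^ 4 :=
    mul_le_mul_of_nonneg_right (mul_le_mul_of_nonneg_right hs2 (by positivity)) (by positivity)
  refine h7.trans (le_of_eq ?_)
  rw [← hs8]
  ring

/-- the constant of the combined step -/
noncomputable def cc (δ κ : ℝ) : ℝ :=
  1 / (8 * Real.log (82 * (1 / (κ * Real.exp (-(4 / δ)))) ^ 2))

lemma one_le_A {δ κ : ℝ} (hδ : 0 < δ) (hκ : 0 < κ) (hκ1 : κ ≤ 1) :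
    1 ≤ 1 / (κ * Real.exp (-(4 / δ))) := by
  rw [le_div_iff₀ (by positivity), one_mul]
  have : Real.exp (-(4 / δ)) ≤ 1 := Real.exp_le_one_iff.2 (by
    have : 0 < 4 / δ := by positivity
    linarith)
  nlinarith [Real.exp_pos (-(4 / δ))]

/-- **The combined step.** -/
theorem good_step {δ κ : ℝ} (hδ : 0 < δ) (hδ1 : δ < 1) (hκ : 0 < κ) (hκ1 : κ ≤ 1)
    (c : Cst δ (2 / κ)) {C0 : ℝ} (hC0 : Real.log c.K₀ ≤ C0)
    {p : ℕ} (hp : p.Prime) (W : Finset ℤ) (hW : W.Nonempty)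
    (hWp : ∀ u ∈ W, ¬ (p : ℤ) ∣ u) (hWd : ∀ u ∈ W, ∀ u' ∈ W, (p : ℤ) ∣ u - u' → u = u')
    (hWc : ((2 : ℝ) ^ c.MX * 2 ^ c.MB) ^ 2 ≤ δ / 2 * W.card)
    (D : Finset ℤ) (E : Finset ℕ) (hE : E.Nonempty) (ψ : ℝ)
    (hg : ∀ e ∈ E, Good W δ κ C0 ψ (fib p e D)) :
    Good W δ κ C0 (ψ + cc δ κ * Real.log E.card) D := by
  set θ := Real.exp (-(4 / δ)) with hθd
  have hθ : 0 < θ := Real.exp_pos _
  set A := 1 / (κ * θ) with hA
  have hA1 : 1 ≤ A := one_le_A hδ hκ hκ1
  set β := 82 * A ^ 2 with hβ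
  have hβ82 : 82 ≤ β := by
    have := one_le_pow₀ hA1 (n := 2)
    linarith
  have hlβ : 0 < Real.log β := Real.log_pos (by linarith)
  have hlβ1 : 1 ≤ Real.log β := by
    rw [Real.le_log_iff_exp_le (by linarith)]
    have := Real.exp_one_lt_d9
    linarith
  have hcc : cc δ κ = 1 / (8 * Real.log β) := rfl
  have hcc0 : 0 < cc δ κ := by
    rw [hcc]
    positivity
  have hcc2 : cc δ κ ≤ 1 / 2 := by
    rw [hcc]
    exact one_div_le_one_div_of_le (by norm_num) (by linarith)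
  have hK1 : 0 ≤ Real.log c.K₀ := Real.log_natCast_nonneg _
  have hC00 : 0 ≤ C0 := by linarith
  choose! w hw hw1 hV using hg
  rcases Nat.lt_or_ge E.card 2 with hE2 | hE2
  · -- one exponent
    have hE1 : E.card = 1 := by
      have := card_pos.2 hE
      omega
    rw [hE1, Nat.cast_one, Real.log_one, mul_zero, add_zero]
    obtain ⟨e, he⟩ := hE
    exact Good.sub (fib_sub p e D) ⟨w e, hw e he, hw1 e he, hV e he⟩
  by_cases hEb : (E.card : ℝ) < β ^ 4
  · -- two exponents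
    have hcl : cc δ κ * Real.log E.card ≤ 1 / 2 := by
      have h1 : Real.log E.card ≤ 4 * Real.log β := by
        have h2 := Real.log_le_log (by exact_mod_cast (by omega : 0 < E.card)) hEb.le
        rw [Real.log_pow] at h2
        exact_mod_cast h2
      have h2 := mul_le_mul_of_nonneg_left h1 hcc0.le
      refine h2.trans (le_of_eq ?_)
      rw [hcc]
      field_simp
      norm_num
    refine Good.mono hκ (show ψ + cc δ κ * Real.log E.card ≤ ψ + 1 / 2 by linarith) ?_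
    obtain ⟨e, he, e', he', hne⟩ := one_lt_card.1 (show 1 < E.card by omega)
    wlog hlt : e < e' generalizing e e'
    · exact this e' he' e he hne.symm (by omega)
    refine good_of_avg W δ κ C0 (ψ + 1 / 2) D {e, e'} ⟨e, by simp⟩ (fun e => fib p e D)
      (fun e _ => fib_sub p e D) w ?_ ?_ ?_
    · intro e'' h''
      rw [mem_insert, mem_singleton] at h''
      rcases h'' with rfl | rfl
      · exact hw _ he
      · exact hw _ he'
    · intro e'' h''
      rw [mem_insert, mem_singleton] at h''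
      rcases h'' with rfl | rfl
      · exact hw1 _ he
      · exact hw1 _ he'
    · intro X B hX hB
      have h1 := step_two hδ hδ1 hκ c hp W hW hWp hWd hWc e e' hlt (fib p e D) (w e) (hw e he)
        (hw1 e he) (fun a ha => mem_fib ha) (fib p e' D) (w e') (hw e' he') (hw1 e' he')
        (fun a ha => mem_fib ha) hC0 (Φ := 1 / κ * Real.exp (-ψ)) (by positivity)
        (hV e he) (hV e' he') X B hX hB
      rw [sum_pair hne, card_pair hne]
      refine le_trans (le_of_eq ?_) h1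
      unfold bdd
      rw [show -(ψ + 1 / 2) = -ψ + -(1 / 2) by ring, Real.exp_add]
      ring
  · -- many exponents
    push Not at hEb
    have hEpos : (0 : ℝ) < E.card := by exact_mod_cast card_pos.2 hE
    have hE1 : (1 : ℝ) ≤ E.card := by exact_mod_cast card_pos.2 hE
    have hlE : 0 ≤ Real.log E.card := Real.log_nonneg hE1
    have hnum := num_large hA1 hEb
    refine good_of_avg W δ κ C0 _ D E hE (fun e => fib p e D)
      (fun e _ => fib_sub p e D) w hw hw1 ?_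
    intro X B hX hB
    have hθ9 : θ ≤ 1 / 9 := by
      have h1 : Real.exp (-(4 / δ)) ≤ Real.exp (-4) := by
        apply Real.exp_le_exp.2
        have : 4 ≤ 4 / δ := by
          rw [le_div_iff₀ hδ]
          linarith
        linarith
      refine h1.trans ?_
      rw [Real.exp_neg, ← one_div]
      apply one_div_le_one_div_of_le (by norm_num)
      have h2 : Real.exp 4 = Real.exp 1 ^ 4 := by
        rw [← Real.exp_nat_mul]
        norm_num
      have h3 := Real.exp_one_gt_d9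
      rw [h2]
      nlinarith [sq_nonneg (Real.exp 1), pow_le_pow_left₀ (by norm_num : (0 : ℝ) ≤ 2) (by linarith : (2 : ℝ) ≤ Real.exp 1) 4]
    have hδθ : 4 / Real.log (1 / θ) ≤ δ := by
      rw [one_div, Real.log_inv, hθd, Real.log_exp, neg_neg]
      field_simp
      exact le_refl _
    have h1 := step_large hp W hW hWp E (fun e => fib p e D) w hw hw1
      (fun e _ a ha => mem_fib ha) hθ hθ9 hδθ (C0 := C0) (R := Real.log E.card / κ)
      (fun S => 1 / κ * Real.exp (-ψ) * Real.exp (κ * S)) hC00 (fun S => by positivity)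
      (fun S T hST => mul_le_mul_of_nonneg_left (Real.exp_le_exp.2
        (mul_le_mul_of_nonneg_left hST hκ.le)) (by positivity))
      (div_nonneg hlE hκ.le) (fun e he X B hX hB => hV e he X B hX hB) X B hX hB
    rw [le_div_iff₀ hEpos]
    refine le_trans ?_ h1
    unfold bdd
    have e1 : Real.exp (κ * (Sz X B - Real.log E.card / κ)) =
        Real.exp (κ * Sz X B) / E.card := by
      rw [mul_sub, mul_div_cancel₀ _ hκ.ne', Real.exp_sub, Real.exp_log hEpos]
    rw [e1]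
    have e2 : Real.log E.card / κ / θ = A * Real.log E.card := by
      rw [hA]
      field_simp
    rw [e2]
    rw [div_le_iff₀ hEpos] at hnum
    have h2 : Real.exp (-(1 / 2 * Real.log E.card)) ≤
        Real.exp (-(cc δ κ * Real.log E.card)) := by
      apply Real.exp_le_exp.2
      have := mul_le_mul_of_nonneg_right hcc2 hlE
      linarith
    have h3 := hnum.trans (mul_le_mul_of_nonneg_right h2 hEpos.le)
    have h4 : 0 ≤ 1 / κ * Real.exp (-ψ) * Real.exp (κ * Sz X B) := by positivity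
    have h5 := mul_le_mul_of_nonneg_left h3 h4
    have e3 : Real.exp (-(ψ + cc δ κ * Real.log E.card)) =
        Real.exp (-ψ) * Real.exp (-(cc δ κ * Real.log E.card)) := by
      rw [← Real.exp_add]
      congr 1
      ring
    rw [e3]
    have e4 : (E.card : ℝ) * (1 / κ * Real.exp (-ψ) * (Real.exp (κ * Sz X B) / E.card)) =
        1 / κ * Real.exp (-ψ) * Real.exp (κ * Sz X B) := by
      field_simp
    rw [e4]
    nlinarith

end Pool.Agent.Helper63.SD
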