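import Pool.Agent.Helper63.SD.Vv

/-!
Dilates by integers whose `p`-adic valuations are different: the digits, level by level.
-/

set_option autoImplicit false

namespace Pool.Agent.Helper63.SD

open Finset PE
open scoped Pointwise Classical

lemma cls_cls {Q Q' : ℤ} (hQ : Q ∣ Q') {X : Finset ℤ} {x0 x : ℤ} (hx : x ∈ cls Q X x0) :
    cls Q' (cls Q X x0) x = cls Q' X x := by
  have h1 := (mem_filter.1 hx).2
  ext y
  unfold cls
  rw [mem_filter, mem_filter, mem_filter]
  constructor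
  · rintro ⟨⟨h2, _⟩, h3⟩
    exact ⟨h2, h3⟩
  · rintro ⟨h2, h3⟩
    refine ⟨⟨h2, ?_⟩, h3⟩
    have e : y - x0 = (y - x) + (x - x0) := by ring
    rw [e]
    exact dvd_add (hQ.trans h3) h1

lemma cls_of_mem {Q : ℤ} {X : Finset ℤ} {x0 x : ℤ} (hx : x ∈ cls Q X x0) :
    cls Q X x = cls Q X x0 := Sel.cls_eq (mem_filter.1 hx).2

/-- the class is large and it is not mostly contained in one class of the next level -/
def Pop (θ R : ℝ) (p : ℕ) (X : Finset ℤ) (j : ℕ) (x : ℤ) : Prop :=
  Real.log X.card - R < Real.log (cls ((p : ℤ) ^ j) X x).card ∧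
    ¬ Unpop θ ((p : ℤ) ^ (j + 1)) (cls ((p : ℤ) ^ j) X x)

lemma log_cls_anti {p : ℕ} {X : Finset ℤ} {x : ℤ} (hx : x ∈ X) (j : ℕ) :
    Real.log (cls ((p : ℤ) ^ (j + 1)) X x).card ≤ Real.log (cls ((p : ℤ) ^ j) X x).card := by
  have h1 : cls ((p : ℤ) ^ (j + 1)) X x ⊆ cls ((p : ℤ) ^ j) X x := by
    intro y hy
    unfold cls at hy ⊢
    rw [mem_filter] at hy ⊢
    exact ⟨hy.1, (pow_dvd_pow _ (Nat.le_succ j)).trans hy.2⟩
  have h2 : (0 : ℝ) < (cls ((p : ℤ) ^ (j + 1)) X x).card := by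
    exact_mod_cast (cls_nonempty _ hx).card_pos
  exact Real.log_le_log h2 (by exact_mod_cast card_le_card h1)

lemma pop_step {p : ℕ} {X : Finset ℤ} {x : ℤ} (hx : x ∈ X) {θ R : ℝ} (hθ1 : θ ≤ 1 / 9)
    {j : ℕ} (hP : Pop θ R p X j x) :
    Real.log (cls ((p : ℤ) ^ (j + 1)) X x).card ≤ Real.log (cls ((p : ℤ) ^ j) X x).card - θ := by
  have h1 : ¬ (((cls ((p : ℤ) ^ j) X x).filter fun y => ¬ (p : ℤ) ^ (j + 1) ∣ y - x).card : ℝ) ≤
      θ * (cls ((p : ℤ) ^ j) X x).card := fun h => hP.2 ⟨x, h⟩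
  push Not at h1
  have h2 : cls ((p : ℤ) ^ (j + 1)) X x =
      (cls ((p : ℤ) ^ j) X x).filter fun y => (p : ℤ) ^ (j + 1) ∣ y - x := by
    rw [← cls_cls (pow_dvd_pow _ (Nat.le_succ j)) (self_mem_cls _ hx)]
    rfl
  have h3 := card_filter_add_card_filter_not (s := cls ((p : ℤ) ^ j) X x)
    (fun y => (p : ℤ) ^ (j + 1) ∣ y - x)
  rw [← h2] at h3
  have h3' : ((cls ((p : ℤ) ^ (j + 1)) X x).card : ℝ) +
      ((cls ((p : ℤ) ^ j) X x).filter fun y => ¬ (p : ℤ) ^ (j + 1) ∣ y - x).card =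
      (cls ((p : ℤ) ^ j) X x).card := by exact_mod_cast h3
  have h4 : (0 : ℝ) < (cls ((p : ℤ) ^ (j + 1)) X x).card := by
    exact_mod_cast (cls_nonempty _ hx).card_pos
  have h5 : (0 : ℝ) < (cls ((p : ℤ) ^ j) X x).card := by
    exact_mod_cast (cls_nonempty _ hx).card_pos
  have h6 : ((cls ((p : ℤ) ^ (j + 1)) X x).card : ℝ) ≤
      (1 - θ) * (cls ((p : ℤ) ^ j) X x).card := by linarith
  have h7 : 0 < 1 - θ := by linarith
  have h8 := Real.log_le_log h4 h6
  rw [Real.log_mul h7.ne' h5.ne'] at h8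
  have h9 := Real.log_le_sub_one_of_pos h7
  linarith

lemma pop_count {p : ℕ} {X : Finset ℤ} {x : ℤ} (hx : x ∈ X) {θ R : ℝ} (hθ1 : θ ≤ 1 / 9)
    (n : ℕ) : (((range n).filter fun j => Pop θ R p X j x).card : ℝ) * θ ≤
      Real.log X.card - Real.log (cls ((p : ℤ) ^ n) X x).card := by
  induction n with
  | zero =>
    have e : cls ((p : ℤ) ^ 0) X x = X := by
      unfold cls
      rw [pow_zero]
      exact filter_true_of_mem fun y _ => one_dvd _
    rw [e]
    simp
  | succ n ih =>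
    rw [range_add_one, filter_insert]
    split_ifs with hP
    · rw [card_insert_of_notMem (by simp)]
      have := pop_step hx hθ1 hP
      push_cast
      linarith
    · have := log_cls_anti (p := p) hx n
      linarith

lemma pop_bound {p : ℕ} {X : Finset ℤ} {x : ℤ} (hx : x ∈ X) {θ R : ℝ} (hθ : 0 < θ)
    (hθ1 : θ ≤ 1 / 9) (hR : 0 ≤ R) (n : ℕ) :
    (((range n).filter fun j => Pop θ R p X j x).card : ℝ) ≤ R / θ + 1 := by
  induction n with
  | zero =>
    simp only [range_zero, filter_empty, card_empty, Nat.cast_zero]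
    positivity
  | succ n ih =>
    rw [range_add_one, filter_insert]
    split_ifs with hP
    · rw [card_insert_of_notMem (by simp)]
      have h1 := pop_count (R := R) (p := p) hx hθ1 n
      have h2 : (((range n).filter fun j => Pop θ R p X j x).card : ℝ) * θ ≤ R := by
        have := hP.1
        linarith
      have h3 := (le_div_iff₀ hθ).2 h2
      push_cast
      linarith
    · exact ih

/-- at some level from `i` on both classes are popular -/
def Bad (θ R : ℝ) (p : ℕ) (X B : Finset ℤ) (N e i : ℕ) (s : ℤ × ℤ) : Prop :=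
  ∃ i' : ℕ, i ≤ i' ∧ i' < N ∧ e ≤ i' ∧ Pop θ R p X (i' - e) s.1 ∧ Pop θ R p B i' s.2

/-- the induction over the levels -/
theorem levels {p : ℕ} (hp : p.Prime) (W : Finset ℤ) (hW : W.Nonempty)
    (hWp : ∀ u ∈ W, ¬ (p : ℤ) ∣ u) (D : Finset ℤ) (w : ℤ → ℝ)
    (hw : ∀ a ∈ D, 0 ≤ w a) (hw1 : ∑ a ∈ D, w a = 1) (e : ℕ)
    (hD : ∀ a ∈ D, (p : ℤ) ^ e ∣ a ∧ ¬ (p : ℤ) ^ (e + 1) ∣ a)
    {θ δ : ℝ} (hθ : 0 < θ) (hθ1 : θ ≤ 1 / 9) (hδ : 4 / Real.log (1 / θ) ≤ δ)
    (X0 B0 : Finset ℤ) {C0 R : ℝ} (P : ℝ → ℝ) (hC0 : 0 ≤ C0) (hP0 : ∀ S, 0 ≤ P S)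
    (hPm : Monotone P)
    (hV : ∀ X B : Finset ℤ, X.Nonempty → B.Nonempty →
      (1 - δ) * Sz X B - C0 - P (Sz X B) ≤ vv W D w X B)
    (N : ℕ) (hNX : mx ((p : ℤ) ^ (N - e)) X0 ≤ 1) (hNB : mx ((p : ℤ) ^ N) B0 ≤ 1) :
    ∀ n i : ℕ, i + n = N → ∀ x0 ∈ X0, ∀ y0 ∈ B0,
      (1 - δ) * Sz (cls ((p : ℤ) ^ (i - e)) X0 x0) (cls ((p : ℤ) ^ i) B0 y0) - C0 -
        (P (Sz X0 B0 - R) + P (Sz X0 B0) *
          ((((cls ((p : ℤ) ^ (i - e)) X0 x0 ×ˢ cls ((p : ℤ) ^ i) B0 y0).filter
            (Bad θ R p X0 B0 N e i)).card : ℝ) /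
          (cls ((p : ℤ) ^ (i - e)) X0 x0 ×ˢ cls ((p : ℤ) ^ i) B0 y0).card)) ≤
      vv W D w (cls ((p : ℤ) ^ (i - e)) X0 x0) (cls ((p : ℤ) ^ i) B0 y0) := by
  intro n
  induction n with
  | zero =>
    intro i hi x0 hx0 y0 hy0
    rw [add_zero] at hi
    subst hi
    have h1 : (cls ((p : ℤ) ^ (i - e)) X0 x0).card = 1 := by
      apply le_antisymm ((le_mx _ hx0).trans hNX)
      exact card_pos.2 (cls_nonempty _ hx0)
    have h2 : (cls ((p : ℤ) ^ i) B0 y0).card = 1 := by
      apply le_antisymm ((le_mx _ hy0).trans hNB)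
      exact card_pos.2 (cls_nonempty _ hy0)
    have h3 : Sz (cls ((p : ℤ) ^ (i - e)) X0 x0) (cls ((p : ℤ) ^ i) B0 y0) = 0 := by
      unfold Sz
      rw [h1, h2]
      simp
    rw [h3]
    refine le_trans ?_ (vv_nonneg W D w hw _ _)
    have h4 : 0 ≤ P (Sz X0 B0) *
          ((((cls ((p : ℤ) ^ (i - e)) X0 x0 ×ˢ cls ((p : ℤ) ^ i) B0 y0).filter
            (Bad θ R p X0 B0 i e i)).card : ℝ) /
          (cls ((p : ℤ) ^ (i - e)) X0 x0 ×ˢ cls ((p : ℤ) ^ i) B0 y0).card) :=
      mul_nonneg (hP0 _) (by positivity)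
    have h5 := hP0 (Sz X0 B0 - R)
    linarith
  | succ n ih =>
    intro i hi x0 hx0 y0 hy0
    set X' := cls ((p : ℤ) ^ (i - e)) X0 x0 with hX'
    set B' := cls ((p : ℤ) ^ i) B0 y0 with hB'
    have hX'n : X'.Nonempty := cls_nonempty _ hx0
    have hB'n : B'.Nonempty := cls_nonempty _ hy0
    have cX' : (0 : ℝ) < X'.card := by exact_mod_cast hX'n.card_pos
    have cB' : (0 : ℝ) < B'.card := by exact_mod_cast hB'n.card_pos
    have cXB : (0 : ℝ) < (X' ×ˢ B').card := by exact_mod_cast (hX'n.product hB'n).card_pos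
    set E := P (Sz X0 B0) with hE
    have hE0 : 0 ≤ E := hP0 _
    set E1 := P (Sz X0 B0 - R) with hE1
    have hE10 : 0 ≤ E1 := hP0 _
    have hXle : Real.log X'.card ≤ Real.log X0.card :=
      Real.log_le_log cX' (by exact_mod_cast card_le_card (cls_sub _ _ _))
    have hBle : Real.log B'.card ≤ Real.log B0.card :=
      Real.log_le_log cB' (by exact_mod_cast card_le_card (cls_sub _ _ _))
    set f := (((X' ×ˢ B').filter (Bad θ R p X0 B0 N e i)).card : ℝ) / (X' ×ˢ B').card with hf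
    have hf0 : 0 ≤ f := by positivity
    by_cases hA : Sz X' B' ≤ Sz X0 B0 - R
    · -- the sets are small
      refine le_trans ?_ (hV X' B' hX'n hB'n)
      have h1 : P (Sz X' B') ≤ E1 := hPm hA
      have h3 : 0 ≤ E * f := by positivity
      linarith
    push Not at hA
    by_cases hU : Unpop θ ((p : ℤ) ^ (i + 1 - e)) X' ∨ Unpop θ ((p : ℤ) ^ (i + 1)) B'
    · -- one of the two classes is unpopular
      have main := vv_level hp W hW hWp D w hw hw1 e hD (i + 1) X' B' hX'n hB'n hθ hθ1 hU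
      refine le_trans ?_ main
      have hdX : (p : ℤ) ^ (i - e) ∣ (p : ℤ) ^ (i + 1 - e) := pow_dvd_pow _ (by omega)
      have hdB : (p : ℤ) ^ i ∣ (p : ℤ) ^ (i + 1) := pow_dvd_pow _ (by omega)
      -- the induction hypothesis
      have hl : ∀ s ∈ X' ×ˢ B',
          (1 - δ) * (Real.log (cls ((p : ℤ) ^ (i + 1 - e)) X' s.1).card +
            Real.log (cls ((p : ℤ) ^ (i + 1)) B' s.2).card) - C0 - E1 -
          E * ((∑ t ∈ cls ((p : ℤ) ^ (i + 1 - e)) X' s.1 ×ˢ cls ((p : ℤ) ^ (i + 1)) B' s.2,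
              if Bad θ R p X0 B0 N e (i + 1) t then (1 : ℝ) else 0) /
            (cls ((p : ℤ) ^ (i + 1 - e)) X' s.1 ×ˢ cls ((p : ℤ) ^ (i + 1)) B' s.2).card) ≤
          vv W D w (cls ((p : ℤ) ^ (i + 1 - e)) X' s.1) (cls ((p : ℤ) ^ (i + 1)) B' s.2) := by
        intro s hs
        obtain ⟨hs1, hs2⟩ := mem_product.1 hs
        have h1 := ih (i + 1) (by omega) s.1 (cls_sub _ _ _ hs1) s.2 (cls_sub _ _ _ hs2)
        rw [← cls_cls hdX hs1, ← cls_cls hdB hs2] at h1
        refine le_trans (le_of_eq ?_) h1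
        rw [card_filter]
        push_cast
        unfold Sz
        ring
      have hsum := div_le_div_of_nonneg_right (sum_le_sum hl) cXB.le
      -- the averages
      have a1 : (∑ s ∈ X' ×ˢ B', Real.log (cls ((p : ℤ) ^ (i + 1 - e)) X' s.1).card) /
          (X' ×ˢ B').card = Real.log X'.card - hq (p ^ (i + 1 - e)) X' := by
        rw [← sum_log_cls _ X' hX'n, sum_product, card_product]
        simp only [sum_const, nsmul_eq_mul]
        rw [← mul_sum]
        push_cast
        field_simp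
      have a2 : (∑ s ∈ X' ×ˢ B', Real.log (cls ((p : ℤ) ^ (i + 1)) B' s.2).card) /
          (X' ×ˢ B').card = Real.log B'.card - hq (p ^ (i + 1)) B' := by
        rw [← sum_log_cls _ B' hB'n, sum_product, card_product]
        simp only [sum_const, nsmul_eq_mul]
        push_cast
        field_simp
      have a3 : (∑ s ∈ X' ×ˢ B',
          (∑ t ∈ cls ((p : ℤ) ^ (i + 1 - e)) X' s.1 ×ˢ cls ((p : ℤ) ^ (i + 1)) B' s.2,
              if Bad θ R p X0 B0 N e (i + 1) t then (1 : ℝ) else 0) /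
            (cls ((p : ℤ) ^ (i + 1 - e)) X' s.1 ×ˢ cls ((p : ℤ) ^ (i + 1)) B' s.2).card) =
          ((X' ×ˢ B').filter (Bad θ R p X0 B0 N e (i + 1))).card := by
        have hcl : ∀ s : ℤ × ℤ,
            cls ((p : ℤ) ^ (i + 1 - e)) X' s.1 ×ˢ cls ((p : ℤ) ^ (i + 1)) B' s.2 =
            cl (X' ×ˢ B') (fun s : ℤ × ℤ => ((s.1 : ZMod (p ^ (i + 1 - e))),
              (s.2 : ZMod (p ^ (i + 1))))) s := by
          intro s
          have e1 := cl_eq_cls (p ^ (i + 1 - e)) X' s.1
          have e2 := cl_eq_cls (p ^ (i + 1)) B' s.2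
          push_cast at e1 e2
          rw [← e1, ← e2]
          ext t
          rw [mem_product, mem_cl, mem_cl, mem_cl, mem_product, Prod.mk.injEq]
          tauto
        have h1 := avg_cl (X' ×ˢ B') (fun s : ℤ × ℤ => ((s.1 : ZMod (p ^ (i + 1 - e))),
              (s.2 : ZMod (p ^ (i + 1))))) (fun t => if Bad θ R p X0 B0 N e (i + 1) t
                then (1 : ℝ) else 0)
        have h2 : ∑ y ∈ X' ×ˢ B', (if Bad θ R p X0 B0 N e (i + 1) y then (1 : ℝ) else 0) =
            ((X' ×ˢ B').filter (Bad θ R p X0 B0 N e (i + 1))).card := by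
          rw [card_filter]
          push_cast
          rfl
        rw [← h2, ← h1]
        refine sum_congr rfl fun s _ => ?_
        unfold fc
        rw [hcl]
      simp only [sum_sub_distrib, ← mul_sum, sum_add_distrib, sum_const, nsmul_eq_mul] at hsum
      rw [a3] at hsum
      have hmono : (((X' ×ˢ B').filter (Bad θ R p X0 B0 N e (i + 1))).card : ℝ) ≤
          ((X' ×ˢ B').filter (Bad θ R p X0 B0 N e i)).card := by
        have : (X' ×ˢ B').filter (Bad θ R p X0 B0 N e (i + 1)) ⊆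
            (X' ×ˢ B').filter (Bad θ R p X0 B0 N e i) := by
          intro s hs
          rw [mem_filter] at hs ⊢
          obtain ⟨i', h1, h2⟩ := hs.2
          exact ⟨hs.1, i', by omega, h2⟩
        exact_mod_cast card_le_card this
      have e1 : ((1 - δ) * (∑ s ∈ X' ×ˢ B', Real.log (cls ((p : ℤ) ^ (i + 1 - e)) X' s.1).card +
            ∑ s ∈ X' ×ˢ B', Real.log (cls ((p : ℤ) ^ (i + 1)) B' s.2).card) -
            (X' ×ˢ B').card * C0 - (X' ×ˢ B').card * E1 -
            E * ((X' ×ˢ B').filter (Bad θ R p X0 B0 N e (i + 1))).card) / (X' ×ˢ B').card =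
          (1 - δ) * ((Real.log X'.card - hq (p ^ (i + 1 - e)) X') +
            (Real.log B'.card - hq (p ^ (i + 1)) B')) - C0 - E1 -
            E * (((X' ×ˢ B').filter (Bad θ R p X0 B0 N e (i + 1))).card / (X' ×ˢ B').card) := by
        rw [← a1, ← a2]
        field_simp
      rw [e1] at hsum
      have hq1 := hq_nonneg (p ^ (i + 1 - e)) X'
      have hq2 := hq_nonneg (p ^ (i + 1)) B'
      have g1 : (1 - δ) * (hq (p ^ (i + 1 - e)) X' + hq (p ^ (i + 1)) B') ≤
          (1 - 4 / Real.log (1 / θ)) * (hq (p ^ (i + 1 - e)) X' + hq (p ^ (i + 1)) B') :=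
        mul_le_mul_of_nonneg_right (by linarith) (by linarith)
      have g2 : E * (((X' ×ˢ B').filter (Bad θ R p X0 B0 N e (i + 1))).card /
          (X' ×ˢ B').card) ≤ E * f := by
        refine mul_le_mul_of_nonneg_left ?_ (by positivity)
        rw [hf]
        exact div_le_div_of_nonneg_right hmono cXB.le
      have g3 : Sz X' B' = Real.log X'.card + Real.log B'.card := rfl
      rw [g3]
      have g5 : (1 - δ) * (Real.log X'.card - hq (p ^ (i + 1 - e)) X' +
          (Real.log B'.card - hq (p ^ (i + 1)) B')) =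
          (1 - δ) * (Real.log X'.card + Real.log B'.card) -
          (1 - δ) * (hq (p ^ (i + 1 - e)) X' + hq (p ^ (i + 1)) B') := by ring
      rw [g5] at hsum
      linarith
    · -- both classes are popular
      push Not at hU
      have hie : e ≤ i := by
        by_contra hc
        apply hU.1
        refine ⟨0, ?_⟩
        have h0 : i + 1 - e = 0 := by omega
        rw [h0, pow_zero]
        have : (X'.filter fun x => ¬ (1 : ℤ) ∣ x - 0) = ∅ :=
          filter_false_of_mem fun x _ h => h (one_dvd _)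
        rw [this, card_empty, Nat.cast_zero]
        positivity
      have hf1 : f = 1 := by
        have : (X' ×ˢ B').filter (Bad θ R p X0 B0 N e i) = X' ×ˢ B' := by
          refine filter_true_of_mem fun s hs => ?_
          obtain ⟨hs1, hs2⟩ := mem_product.1 hs
          refine ⟨i, le_refl _, by omega, hie, ?_, ?_⟩
          · unfold Pop
            rw [cls_of_mem hs1]
            have h0 : i - e + 1 = i + 1 - e := by omega
            rw [h0]
            refine ⟨?_, hU.1⟩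
            unfold Sz at hA
            show Real.log X0.card - R < Real.log X'.card
            linarith
          · unfold Pop
            rw [cls_of_mem hs2]
            refine ⟨?_, hU.2⟩
            unfold Sz at hA
            show Real.log B0.card - R < Real.log B'.card
            linarith
        rw [hf, this, div_self cXB.ne']
      rw [hf1]
      refine le_trans ?_ (hV X' B' hX'n hB'n)
      have h1 : P (Sz X' B') ≤ E := by
        rw [hE]
        apply hPm
        unfold Sz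
        linarith
      linarith

end Pool.Agent.Helper63.SD
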