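import Pool.Agent.Helper63.SD.RankMain

/-!
Preparations for the final theorem: one prime with many valuations, the choice of the constants,
the exceptional primes.
-/

set_option autoImplicit false

namespace Pool.Agent.Helper63.SD

open Finset PE
open scoped Pointwise Classical

lemma theta_le {δ : ℝ} (hδ : 0 < δ) (hδ1 : δ ≤ 1) : Real.exp (-(4 / δ)) ≤ 1 / 9 := by
  have h1 : Real.exp (-(4 / δ)) ≤ Real.exp (-4) := by
    apply Real.exp_le_exp.2
    have : 4 ≤ 4 / δ := by
      rw [le_div_iff₀ hδ]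
      linarith
    linarith
  refine h1.trans ?_
  rw [Real.exp_neg, ← one_div]
  apply one_div_le_one_div_of_le (by norm_num)
  have h2 : Real.exp 4 = Real.exp 1 ^ 4 := by
    rw [← Real.exp_nat_mul]
    norm_num
  have h3 := Real.exp_one_gt_d9
  rw [h2]
  have h4 := pow_le_pow_left₀ (by norm_num : (0 : ℝ) ≤ 2) (by linarith : (2 : ℝ) ≤ Real.exp 1) 4
  linarith

lemma theta_log {δ : ℝ} (hδ : 0 < δ) : 4 / Real.log (1 / Real.exp (-(4 / δ))) = δ := by
  rw [one_div, Real.log_inv, Real.log_exp, neg_neg]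
  field_simp

/-- one prime with many valuations -/
theorem one_prime {δ : ℝ} (hδ : 0 < δ) (hδ1 : δ < 1) {p : ℕ} (hp : p.Prime) (E : Finset ℕ)
    (d : ℕ → ℤ) (hd : ∀ e ∈ E, (p : ℤ) ^ e ∣ d e ∧ ¬ (p : ℤ) ^ (e + 1) ∣ d e)
    (X B : Finset ℤ) (hX : X.Nonempty) (hB : B.Nonempty)
    (hE : (Sz X B / Real.exp (-(4 / δ)) + 1) ^ 2 ≤ δ * E.card) :
    ∃ e ∈ E, (1 - 2 * δ) * Sz X B ≤ Real.log ((dil (d e) X + B).card : ℝ) := by
  have hS := Sz_nonneg X B
  have h1 := step_large hp {1} (singleton_nonempty 1) (by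
      intro u hu
      rw [mem_singleton] at hu
      rw [hu]
      intro h
      exact (Nat.prime_iff_prime_int.1 hp).not_unit (isUnit_of_dvd_one h)) E
    (fun e => {d e}) (fun _ _ => 1) (fun _ _ _ _ => zero_le_one)
    (fun e _ => by rw [sum_singleton])
    (fun e he a ha => by
      rw [mem_singleton] at ha
      rw [ha]
      exact hd e he)
    (Real.exp_pos (-(4 / δ))) (theta_le hδ hδ1.le) (theta_log hδ).le (C0 := 0) (R := Sz X B)
    (fun S => max S 0) (le_refl _) (fun S => le_max_right _ _)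
    (fun S T hST => max_le_max hST (le_refl _)) hS
    (fun e _ X B _ _ => by
      have h2 := vv_nonneg {1} {d e} (fun _ => 1) (fun _ _ => zero_le_one) X B
      have h3 := le_max_left (Sz X B) 0
      have h4 := Sz_nonneg X B
      show (1 - δ) * Sz X B - 0 - max (Sz X B) 0 ≤ _
      nlinarith) X B hX hB
  have hvv : ∀ e, vv {1} {d e} (fun _ => 1) X B = Real.log ((dil (d e) X + B).card : ℝ) := by
    intro e
    unfold vv v1
    simp
  simp only [hvv] at h1
  rw [sub_self, max_self, mul_zero, zero_add, max_eq_left hS, sub_zero] at h1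
  have h2 := mul_le_mul_of_nonneg_left hE hS
  have hEpos : (0 : ℝ) < E.card := by
    have h3 : 1 ≤ (Sz X B / Real.exp (-(4 / δ)) + 1) ^ 2 := by
      have h4 : 0 ≤ Sz X B / Real.exp (-(4 / δ)) := div_nonneg hS (Real.exp_pos _).le
      exact one_le_pow₀ (by linarith)
    by_contra hc
    push Not at hc
    have h4 : (E.card : ℝ) = 0 := le_antisymm hc (Nat.cast_nonneg _)
    rw [h4] at hE
    linarith
  by_contra hcon
  push Not at hcon
  have hEn : E.Nonempty := card_pos.1 (by exact_mod_cast hEpos)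
  have h3 := sum_lt_sum_of_nonempty hEn hcon
  rw [sum_const, nsmul_eq_mul] at h3
  nlinarith

/-- the choice of `κ` -/
lemma exists_kappa {δ T : ℝ} (hδ : 0 < δ) (hT : 0 < T) :
    ∃ κ : ℝ, 0 < κ ∧ κ ≤ 1 ∧ κ * T ≤ cc δ κ := by
  set θ := Real.exp (-(4 / δ)) with hθd
  have hθ : 0 < θ := Real.exp_pos _
  have hθ1 : θ ≤ 1 := Real.exp_le_one_iff.2 (by
    have : 0 < 4 / δ := by positivity
    linarith)
  set a := Real.log (82 / θ ^ 2) with ha
  have ha0 : 0 < a := by
    apply Real.log_pos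
    rw [lt_div_iff₀ (by positivity)]
    have := pow_le_one₀ hθ.le hθ1 (n := 2)
    linarith
  set G := 8 * T * (a + 4) with hG
  have hG0 : 0 < G := by positivity
  set t := min 1 (1 / G) with ht
  have ht0 : 0 < t := lt_min one_pos (by positivity)
  have ht1 : t ≤ 1 := min_le_left _ _
  have htG : G * t ≤ 1 := by
    have h1 : t ≤ 1 / G := min_le_right _ _
    have h2 := mul_le_mul_of_nonneg_left h1 hG0.le
    rwa [mul_one_div_cancel hG0.ne'] at h2
  refine ⟨t ^ 2, by positivity, pow_le_one₀ ht0.le ht1, ?_⟩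
  unfold cc
  rw [← hθd]
  have h1 : Real.log (82 * (1 / (t ^ 2 * θ)) ^ 2) = a + 4 * Real.log (1 / t) := by
    have e1 : 82 * (1 / (t ^ 2 * θ)) ^ 2 = (82 / θ ^ 2) * (1 / t) ^ 4 := by
      field_simp
    rw [e1, Real.log_mul (by positivity) (by positivity), Real.log_pow]
    push_cast
    rfl
  rw [h1]
  have h2 : Real.log (1 / t) ≤ 1 / t - 1 := Real.log_le_sub_one_of_pos (by positivity)
  have h2' : 0 ≤ Real.log (1 / t) := Real.log_nonneg (by
    rw [le_div_iff₀ ht0]
    linarith)
  have h3 : 0 < 8 * (a + 4 * Real.log (1 / t)) := by positivity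
  rw [le_div_iff₀ h3]
  have h4 : t ^ 2 * (a + 4 * Real.log (1 / t)) ≤ t * (a + 4) := by
    have h5 : t * (a + 4 * Real.log (1 / t)) ≤ a + 4 := by
      have h6 : t * (1 / t) = 1 := mul_one_div_cancel ht0.ne'
      nlinarith
    calc t ^ 2 * (a + 4 * Real.log (1 / t)) = t * (t * (a + 4 * Real.log (1 / t))) := by ring
      _ ≤ t * (a + 4) := mul_le_mul_of_nonneg_left h5 ht0.le
  calc t ^ 2 * T * (8 * (a + 4 * Real.log (1 / t))) =
        8 * T * (t ^ 2 * (a + 4 * Real.log (1 / t))) := by ring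
    _ ≤ 8 * T * (t * (a + 4)) := mul_le_mul_of_nonneg_left h4 (by positivity)
    _ = G * t := by rw [hG]; ring
    _ ≤ 1 := htG

/-- the exceptional primes are finite in number -/
lemma exists_exc (W : Finset ℤ) (h0 : (0 : ℤ) ∉ W) :
    ∃ P : Finset ℕ, ∀ p : ℕ, p.Prime → ¬ Ok W p → p ∈ P := by
  refine ⟨(W.biUnion fun u => u.natAbs.primeFactors) ∪
    ((W ×ˢ W).biUnion fun s => (s.1 - s.2).natAbs.primeFactors), fun p hp hok => ?_⟩
  unfold Ok at hok
  rw [not_and_or] at hok
  rcases hok with h | h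
  · push Not at h
    obtain ⟨u, hu, hd⟩ := h
    apply mem_union_left
    rw [mem_biUnion]
    refine ⟨u, hu, Nat.mem_primeFactors.2 ⟨hp, Int.natCast_dvd.1 hd, ?_⟩⟩
    rw [Int.natAbs_ne_zero]
    rintro rfl
    exact h0 hu
  · push Not at h
    obtain ⟨u, hu, u', hu', hd, hne⟩ := h
    apply mem_union_right
    rw [mem_biUnion]
    refine ⟨(u, u'), mem_product.2 ⟨hu, hu'⟩, Nat.mem_primeFactors.2
      ⟨hp, Int.natCast_dvd.1 hd, ?_⟩⟩
    rw [Int.natAbs_ne_zero]
    exact sub_ne_zero.2 hne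

lemma countP_le (P : Finset ℕ) (W : Finset ℤ) (l : List ℕ) (hl : l.Nodup)
    (hp : ∀ p ∈ l, p.Prime) (hP : ∀ p : ℕ, p.Prime → ¬ Ok W p → p ∈ P) :
    (l.countP fun p => ¬ Ok W p) ≤ P.card := by
  rw [List.countP_eq_length_filter]
  have h1 : (l.filter fun p => decide (¬ Ok W p)).Nodup := hl.filter _
  rw [← List.toFinset_card_of_nodup h1]
  refine card_le_card fun p hp' => ?_
  rw [List.mem_toFinset, List.mem_filter] at hp'
  exact hP p (hp p hp'.1) (by simpa using hp'.2)

/-- the logarithm of a logarithm -/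
lemma loglog {ε K θ δ : ℝ} (hε : 0 < ε) (hK : 0 < K) (hθ : 0 < θ) (hδ : 0 < δ) (M : ℕ) :
    ∃ C4 : ℝ, ∀ y : ℝ, 0 ≤ y → M * Real.log ((K * y / θ + 1) ^ 2 / δ) ≤ ε / 4 * y + C4 := by
  set s : ℝ := 8 * (M + 1) * K / (θ * ε) with hs
  have hs0 : 0 < s := by positivity
  refine ⟨2 * M * (1 / s + Real.log s - 1) - M * Real.log δ, fun y hy => ?_⟩
  have hM : (0 : ℝ) ≤ M := Nat.cast_nonneg M
  have ht : 0 < K * y / θ + 1 := by positivity
  rw [Real.log_div (by positivity) hδ.ne', Real.log_pow]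
  have h1 := Real.log_le_sub_one_of_pos (show 0 < (K * y / θ + 1) / s by positivity)
  rw [Real.log_div ht.ne' hs0.ne'] at h1
  have h2 : Real.log (K * y / θ + 1) ≤ (K * y / θ) / s + (1 / s + Real.log s - 1) := by
    have e : (K * y / θ + 1) / s = (K * y / θ) / s + 1 / s := by ring
    linarith
  have h3 : 2 * M * ((K * y / θ) / s) ≤ ε / 4 * y := by
    have e : (K * y / θ) / s = ε * y / (8 * (M + 1)) := by
      rw [hs]
      field_simp
    rw [e, mul_div_assoc', div_le_iff₀ (by positivity)]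
    have h4 : 0 ≤ ε * y := by positivity
    nlinarith
  push_cast
  have h4 := mul_le_mul_of_nonneg_left h2 (show 0 ≤ 2 * (M : ℝ) by positivity)
  nlinarith

/-- the primes which divide an element of `A` -/
noncomputable def prs (A : Finset ℤ) : List ℕ := (A.biUnion fun a => a.natAbs.primeFactors).toList

lemma prs_prime {A : Finset ℤ} {p : ℕ} (hp : p ∈ prs A) : p.Prime := by
  unfold prs at hp
  rw [Finset.mem_toList, mem_biUnion] at hp
  obtain ⟨a, _, ha⟩ := hp
  exact Nat.prime_of_mem_primeFactors ha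

lemma prs_nodup (A : Finset ℤ) : (prs A).Nodup := Finset.nodup_toList _

lemma prs_fibre {A : Finset ℤ} (h0 : (0 : ℤ) ∉ A) {a : ℤ} (ha : a ∈ A) :
    (A.filter fun a' => ∀ p ∈ prs A, fv p a' = fv p a).card ≤ 2 := by
  have hsub : (A.filter fun a' => ∀ p ∈ prs A, fv p a' = fv p a) ⊆ {a, -a} := by
    intro b hb
    rw [mem_filter] at hb
    obtain ⟨hbA, hb⟩ := hb
    have ha0 : a ≠ 0 := fun h => h0 (h ▸ ha)
    have hb0 : b ≠ 0 := fun h => h0 (h ▸ hbA)
    have h1 : b.natAbs = a.natAbs := by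
      apply Nat.eq_of_factorization_eq (Int.natAbs_ne_zero.2 hb0) (Int.natAbs_ne_zero.2 ha0)
      intro p
      by_cases hp : p.Prime
      · by_cases hpl : p ∈ prs A
        · have h2 := hb p hpl
          unfold fv padicValInt at h2
          rw [Nat.factorization_def _ hp, Nat.factorization_def _ hp]
          exact_mod_cast h2
        · have h3 : ∀ x ∈ A, x ≠ 0 → x.natAbs.factorization p = 0 := by
            intro x hx hx0
            by_contra hc
            apply hpl
            unfold prs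
            rw [Finset.mem_toList, mem_biUnion]
            refine ⟨x, hx, ?_⟩
            rw [← Nat.support_factorization, Finsupp.mem_support_iff]
            exact hc
          rw [h3 b hbA hb0, h3 a ha ha0]
      · rw [Nat.factorization_eq_zero_of_not_prime _ hp,
          Nat.factorization_eq_zero_of_not_prime _ hp]
    rw [mem_insert, mem_singleton]
    exact Int.natAbs_eq_natAbs_iff.1 h1
  exact (card_le_card hsub).trans card_le_two

end Pool.Agent.Helper63.SD
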