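import Pool.Agent.Helper63.SD.Tree

/-!
The rank of the tree of the valuations bounds the entropy at the popular nodes.
-/

set_option autoImplicit false

namespace Pool.Agent.Helper63.SD

open Finset PE
open scoped Pointwise Classical

/-- the inverse squares of the ranks -/
lemma rank_sum {ι : Type*} (s : Finset ι) (f : ι → ℝ) :
    ∑ i ∈ s, (1 : ℝ) / ((s.filter fun j => f i ≤ f j).card : ℝ) ^ 2 ≤ 2 - 1 / s.card := by
  induction s using Finset.induction_on_min_value f with
  | empty => simp
  | insert a s ha hmin ih =>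
    have hN : ((insert a s).filter fun j => f a ≤ f j) = insert a s := by
      refine filter_true_of_mem fun j hj => ?_
      rcases mem_insert.1 hj with rfl | hj
      · exact le_refl _
      · exact hmin j hj
    rw [sum_insert ha, hN, card_insert_of_notMem ha]
    have h1 : ∑ i ∈ s, (1 : ℝ) / (((insert a s).filter fun j => f i ≤ f j).card : ℝ) ^ 2 ≤
        ∑ i ∈ s, (1 : ℝ) / ((s.filter fun j => f i ≤ f j).card : ℝ) ^ 2 := by
      refine sum_le_sum fun i hi => ?_
      have h2 : 0 < (s.filter fun j => f i ≤ f j).card :=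
        card_pos.2 ⟨i, mem_filter.2 ⟨hi, le_refl _⟩⟩
      have h3 : (s.filter fun j => f i ≤ f j).card ≤
          ((insert a s).filter fun j => f i ≤ f j).card :=
        card_le_card (filter_subset_filter _ (subset_insert _ _))
      have h2' : (0 : ℝ) < (s.filter fun j => f i ≤ f j).card := by exact_mod_cast h2
      have h3' : ((s.filter fun j => f i ≤ f j).card : ℝ) ≤
          ((insert a s).filter fun j => f i ≤ f j).card := by exact_mod_cast h3
      exact one_div_le_one_div_of_le (by positivity) (pow_le_pow_left₀ h2'.le h3' 2)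
    rcases s.eq_empty_or_nonempty with rfl | hs
    · simp
      norm_num
    · have hn : (1 : ℝ) ≤ s.card := by exact_mod_cast card_pos.2 hs
      have h4 : (1 : ℝ) / ((s.card + 1 : ℕ) : ℝ) ^ 2 + (2 - 1 / s.card) ≤
          2 - 1 / ((s.card + 1 : ℕ) : ℝ) := by
        push_cast
        set n : ℝ := (s.card : ℝ)
        have h5 : 1 / (n + 1) ^ 2 + 1 / (n + 1) ≤ 1 / n := by
          rw [div_add_div _ _ (by positivity) (by positivity), div_le_div_iff₀ (by positivity)
            (by linarith)]
          nlinarith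
        linarith
      linarith

/-- the prime `p` is generic for the set of multipliers -/
def Ok (W : Finset ℤ) (p : ℕ) : Prop :=
  (∀ u ∈ W, ¬ (p : ℤ) ∣ u) ∧ ∀ u ∈ W, ∀ u' ∈ W, (p : ℤ) ∣ u - u' → u = u'

lemma fib_eq_cl {p : ℕ} (hp : p.Prime) {A : Finset ℤ} (h0 : (0 : ℤ) ∉ A) {a : ℤ} (ha : a ∈ A) :
    fib p (padicValInt p a) A = cl A (fv p) a := by
  have := Fact.mk hp
  have ha0 : a ≠ 0 := fun h => h0 (h ▸ ha)
  ext b
  unfold fib
  rw [mem_filter, mem_cl]
  refine and_congr_right fun hb => ?_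
  have hb0 : b ≠ 0 := fun h => h0 (h ▸ hb)
  unfold fv
  rw [padicValInt_dvd_iff, padicValInt_dvd_iff]
  constructor
  · rintro ⟨h1, h2⟩
    have h3 := h1.resolve_left hb0
    push Not at h2
    have h4 := h2.2
    exact_mod_cast (by omega : padicValInt p b = padicValInt p a)
  · intro h1
    have h2 : padicValInt p b = padicValInt p a := by exact_mod_cast h1
    refine ⟨Or.inr (by omega), ?_⟩
    rintro (h3 | h3)
    · exact hb0 h3
    · omega

/-- the mean of the logarithms of the ranks bounds the entropy -/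
lemma ent_le_rank {α : Type*} (A : Finset α) (hA : A.Nonempty) (g : α → ℕ) (ρ : ℕ → ℝ) :
    h A g ≤ Real.log 2 + 2 * ((∑ a ∈ A, Real.log
      (((A.image g).filter fun j => ρ (g a) ≤ ρ j).card : ℝ)) / A.card) := by
  have hN : (0 : ℝ) < A.card := by exact_mod_cast card_pos.2 hA
  set V := A.image g with hV
  set rk : ℕ → ℝ := fun e => ((V.filter fun j => ρ e ≤ ρ j).card : ℝ) with hrk
  have hrk1 : ∀ a ∈ A, (1 : ℝ) ≤ rk (g a) := by
    intro a ha
    have : 0 < (V.filter fun j => ρ (g a) ≤ ρ j).card :=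
      card_pos.2 ⟨g a, mem_filter.2 ⟨mem_image_of_mem g ha, le_refl _⟩⟩
    show (1 : ℝ) ≤ ((V.filter fun j => ρ (g a) ≤ ρ j).card : ℝ)
    exact_mod_cast this
  have hq : ∑ e ∈ V, 1 / (2 * rk e ^ 2) ≤ 1 := by
    have h1 := rank_sum V ρ
    have h2 : ∑ e ∈ V, 1 / (2 * rk e ^ 2) = (1 / 2) * ∑ e ∈ V, 1 / rk e ^ 2 := by
      rw [mul_sum]
      refine sum_congr rfl fun e _ => ?_
      rw [one_div_mul_one_div]
    rw [h2]
    have h3 : (0 : ℝ) ≤ 1 / V.card := by positivity
    have h4 : ∑ e ∈ V, 1 / rk e ^ 2 ≤ 2 := by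
      refine le_trans h1 ?_
      linarith
    linarith
  have hq2 : ∑ a ∈ A, 1 / (2 * rk (g a) ^ 2) * (1 / fc A g a) ≤ 1 := by
    rw [← sum_fiberwise_of_maps_to (g := g) (t := V) (fun x hx => mem_image_of_mem g hx)]
    refine le_trans (sum_le_sum fun e _ => ?_) hq
    have e1 : ∀ a ∈ A.filter (fun a => g a = e), 1 / (2 * rk (g a) ^ 2) * (1 / fc A g a) =
        1 / (2 * rk e ^ 2) * (1 / fc A g a) := by
      intro a ha
      rw [(mem_filter.1 ha).2]
    rw [sum_congr rfl e1, ← mul_sum]
    have h2 : (0 : ℝ) ≤ 1 / (2 * rk e ^ 2) := by positivity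
    refine mul_le_of_le_one_right h2 (le_trans (le_of_eq ?_) (sum_inv_fc_fiber A g e))
    refine sum_congr ?_ fun _ _ => rfl
    ext x
    simp only [mem_filter]
  have h1 : ∀ a ∈ A, Real.log A.card - Real.log (fc A g a) ≤
      Real.log 2 + 2 * Real.log (rk (g a)) +
        (A.card * (1 / (2 * rk (g a) ^ 2) * (1 / fc A g a)) - 1) := by
    intro a ha
    have h2 := fc_posR (f := g) ha
    have h3 := hrk1 a ha
    have h3' : 0 < rk (g a) := by linarith
    have h4 : 0 < (A.card : ℝ) * (1 / (2 * rk (g a) ^ 2) * (1 / fc A g a)) := by positivity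
    have h5 := Real.log_le_sub_one_of_pos h4
    rw [Real.log_mul hN.ne' (by positivity), Real.log_mul (by positivity) (by positivity),
      one_div, one_div, Real.log_inv, Real.log_inv, Real.log_mul (by norm_num) (by positivity),
      Real.log_pow] at h5
    rw [one_div, one_div]
    push_cast at h5
    linarith
  unfold h
  rw [div_le_iff₀ hN]
  refine (sum_le_sum h1).trans ?_
  rw [sum_add_distrib, sum_add_distrib, sum_const, nsmul_eq_mul, ← mul_sum,
    sum_sub_distrib, ← mul_sum, sum_const, nsmul_eq_mul, mul_one]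
  have h5 := mul_le_mul_of_nonneg_left hq2 hN.le
  have e2 : (Real.log 2 + 2 * ((∑ a ∈ A, Real.log (rk (g a))) / A.card)) * A.card =
      A.card * Real.log 2 + 2 * ∑ a ∈ A, Real.log (rk (g a)) := by
    field_simp
  have e3 : (∑ a ∈ A, Real.log (((V.filter fun j => ρ (g a) ≤ ρ j).card : ℝ))) =
      ∑ a ∈ A, Real.log (rk (g a)) := rfl
  rw [e3, e2]
  linarith

/-- at a popular node the ranks are often at least two -/
lemma pop_rank {θ : ℝ} (hθ : 0 < θ) {p : ℕ} (A : Finset ℤ) (hA : A.Nonempty)
    (hP : PopP θ p A) (ρ : ℕ → ℝ) :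
    θ * Real.log 2 ≤ (∑ a ∈ A, Real.log
      (((A.image (padicValInt p)).filter fun j => ρ (padicValInt p a) ≤ ρ j).card : ℝ)) /
        A.card := by
  have hN : (0 : ℝ) < A.card := by exact_mod_cast card_pos.2 hA
  have hl : 0 < Real.log 2 := Real.log_pos (by norm_num)
  obtain ⟨e, he, hmax⟩ := exists_max_image (A.image (padicValInt p)) ρ (hA.image _)
  have h1 := hP e
  rw [le_div_iff₀ hN]
  have h2 : ((A.filter fun a => fv p a ≠ e).card : ℝ) * Real.log 2 ≤
      ∑ a ∈ A.filter (fun a => fv p a ≠ e), Real.log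
      (((A.image (padicValInt p)).filter fun j => ρ (padicValInt p a) ≤ ρ j).card : ℝ) := by
    rw [← nsmul_eq_mul, ← sum_const]
    refine sum_le_sum fun a ha => ?_
    rw [mem_filter] at ha
    have hne : padicValInt p a ≠ e := by
      intro h
      apply ha.2
      unfold fv
      rw [h]
    have h3 : 2 ≤ ((A.image (padicValInt p)).filter fun j =>
        ρ (padicValInt p a) ≤ ρ j).card := by
      rw [← card_pair hne]
      refine card_le_card fun x hx => ?_
      rw [mem_insert, mem_singleton] at hx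
      rcases hx with rfl | rfl
      · exact mem_filter.2 ⟨mem_image_of_mem _ ha.1, le_refl _⟩
      · exact mem_filter.2 ⟨he, hmax _ (mem_image_of_mem _ ha.1)⟩
    exact Real.log_le_log (by norm_num) (by exact_mod_cast h3)
  have h3 : ∑ a ∈ A.filter (fun a => fv p a ≠ e), Real.log
      (((A.image (padicValInt p)).filter fun j => ρ (padicValInt p a) ≤ ρ j).card : ℝ) ≤
      ∑ a ∈ A, Real.log
      (((A.image (padicValInt p)).filter fun j => ρ (padicValInt p a) ≤ ρ j).card : ℝ) :=
    sum_le_sum_of_subset_of_nonneg (filter_subset _ _)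
      fun _ _ _ => Real.log_natCast_nonneg _
  have h4 := mul_le_mul_of_nonneg_right h1.le hl.le
  nlinarith

end Pool.Agent.Helper63.SD
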