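import Pool.Agent.Helper63.SD.Rank

/-!
The rank of the tree of the valuations: the induction over the primes.
-/

set_option autoImplicit false

namespace Pool.Agent.Helper63.SD

open Finset PE
open scoped Pointwise Classical

theorem rank_main {δ κ : ℝ} (hδ : 0 < δ) (hδ1 : δ < 1) (hκ : 0 < κ) (hκ1 : κ ≤ 1)
    (c : Cst δ (2 / κ)) {C0 : ℝ} (hC0 : Real.log c.K₀ ≤ C0)
    (W : Finset ℤ) (hW : W.Nonempty)
    (hWc : ((2 : ℝ) ^ c.MX * 2 ^ c.MB) ^ 2 ≤ δ / 2 * W.card)
    {θ : ℝ} (hθ : 0 < θ) {n1 : ℝ} (hn1 : 0 ≤ n1) (l : List ℕ) :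
    (∀ p ∈ l, p.Prime) → ∀ A : Finset ℤ, A.Nonempty → (0 : ℤ) ∉ A →
    (∀ p ∈ l, ¬ Ok W p → Real.log (A.image (fv p)).card ≤ n1) →
    ∃ ψ : ℝ, 0 ≤ ψ ∧ Good W δ κ C0 ψ A ∧
      Epop θ l A ≤ (2 + 1 / θ) / cc δ κ * ψ + (l.countP fun p => ¬ Ok W p) * n1 := by
  have hK1 : 0 ≤ Real.log c.K₀ := Real.log_natCast_nonneg _
  have hcc0 : 0 < cc δ κ := by
    have h1 := one_le_A hδ hκ hκ1
    have h2 := one_le_pow₀ h1 (n := 2)
    have h3 : 0 < Real.log (82 * (1 / (κ * Real.exp (-(4 / δ)))) ^ 2) :=
      Real.log_pos (by linarith)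
    unfold cc
    positivity
  induction l with
  | nil =>
    intro _ A hA _ _
    refine ⟨0, le_refl _, good_zero W hδ hκ (by linarith) hA, ?_⟩
    simp [Epop]
  | cons p l ih =>
    intro hpl A hA h0 hsm
    have hp : p.Prime := hpl p (List.mem_cons_self ..)
    have hpl' : ∀ q ∈ l, q.Prime := fun q hq => hpl q (List.mem_cons_of_mem _ hq)
    have hN : (0 : ℝ) < A.card := by exact_mod_cast card_pos.2 hA
    set g := padicValInt p with hg
    set V := A.image g with hV
    set C1 := (2 + 1 / θ) / cc δ κ with hC1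
    have hC10 : 0 < C1 := by positivity
    have hC1c : C1 * cc δ κ = 2 + 1 / θ := by
      rw [hC1]
      field_simp
    set m : ℝ := ((l.countP fun p => ¬ Ok W p : ℕ) : ℝ) with hm
    have hex : ∀ e ∈ V, ∃ ψ : ℝ, 0 ≤ ψ ∧ Good W δ κ C0 ψ (fib p e A) ∧
        Epop θ l (fib p e A) ≤ C1 * ψ + m * n1 := by
      intro e he
      obtain ⟨a, ha, rfl⟩ := mem_image.1 he
      rw [hg, fib_eq_cl hp h0 ha]
      refine ih hpl' _ (cl_nonempty _ ha) (fun h => h0 (cl_sub _ _ _ h)) ?_
      intro q hq hok
      refine le_trans ?_ (hsm q (List.mem_cons_of_mem _ hq) hok)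
      have h1 : (0 : ℝ) < ((cl A (fv p) a).image (fv q)).card := by
        exact_mod_cast card_pos.2 ((cl_nonempty _ ha).image _)
      have h2 := card_le_card (image_subset_image (f := fv q) (cl_sub A (fv p) a))
      exact Real.log_le_log h1 (by exact_mod_cast h2)
    choose! ρ hρ0 hρG hρE using hex
    have hsum : (∑ a ∈ A, Epop θ l (cl A (fv p) a)) / A.card ≤
        C1 * ((∑ a ∈ A, ρ (g a)) / A.card) + m * n1 := by
      have h1 : ∀ a ∈ A, Epop θ l (cl A (fv p) a) ≤ C1 * ρ (g a) + m * n1 := by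
        intro a ha
        rw [← fib_eq_cl hp h0 ha]
        exact hρE _ (mem_image_of_mem _ ha)
      have h2 := div_le_div_of_nonneg_right (sum_le_sum h1) hN.le
      refine h2.trans (le_of_eq ?_)
      rw [sum_add_distrib, ← mul_sum, sum_const, nsmul_eq_mul]
      field_simp
    have hE : Epop θ (p :: l) A = (if PopP θ p A then h A (fv p) else 0) +
      (∑ a ∈ A, Epop θ l (cl A (fv p) a)) / A.card := rfl
    by_cases hok : Ok W p
    · -- a generic prime
      have hgood : ∀ e ∈ V, Good W δ κ C0 (ρ e + cc δ κ *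
          Real.log ((V.filter fun j => ρ e ≤ ρ j).card : ℝ)) A := by
        intro e he
        refine good_step hδ hδ1 hκ hκ1 c hC0 hp W hW hok.1 hok.2 hWc A
          (V.filter fun j => ρ e ≤ ρ j) ⟨e, mem_filter.2 ⟨he, le_refl _⟩⟩ (ρ e) ?_
        intro j hj
        rw [mem_filter] at hj
        exact Good.mono hκ hj.2 (hρG j hj.1)
      obtain ⟨e0, he0, hmax⟩ := exists_max_image V (fun e => ρ e + cc δ κ *
          Real.log ((V.filter fun j => ρ e ≤ ρ j).card : ℝ)) (hA.image _)
      set Ψ := ρ e0 + cc δ κ * Real.log ((V.filter fun j => ρ e0 ≤ ρ j).card : ℝ) with hΨ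
      have hΨ0 : 0 ≤ Ψ := add_nonneg (hρ0 e0 he0)
        (mul_nonneg hcc0.le (Real.log_natCast_nonneg _))
      refine ⟨Ψ, hΨ0, hgood e0 he0, ?_⟩
      set avg := (∑ a ∈ A, Real.log ((V.filter fun j => ρ (g a) ≤ ρ j).card : ℝ)) / A.card
        with havg
      have havg0 : 0 ≤ avg := div_nonneg (sum_nonneg fun _ _ => Real.log_natCast_nonneg _) hN.le
      have h1 : (∑ a ∈ A, ρ (g a)) / A.card ≤ Ψ - cc δ κ * avg := by
        have h2 : ∀ a ∈ A, ρ (g a) ≤ Ψ - cc δ κ *
            Real.log ((V.filter fun j => ρ (g a) ≤ ρ j).card : ℝ) := by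
          intro a ha
          have h8 : ρ (g a) + cc δ κ *
            Real.log ((V.filter fun j => ρ (g a) ≤ ρ j).card : ℝ) ≤ Ψ :=
              hmax (g a) (mem_image_of_mem _ ha)
          linarith
        have h3 := div_le_div_of_nonneg_right (sum_le_sum h2) hN.le
        refine h3.trans (le_of_eq ?_)
        rw [sum_sub_distrib, ← mul_sum, sum_const, nsmul_eq_mul, havg]
        field_simp
      have h2 : (if PopP θ p A then h A (fv p) else 0) ≤ (2 + 1 / θ) * avg := by
        split_ifs with hP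
        · have h3 : h A (fv p) = h A g := h_congr fun x _ y _ => by
            unfold fv
            rw [hg]
            exact Nat.cast_inj
          rw [h3]
          have h4 := ent_le_rank A hA g ρ
          have h5 := pop_rank hθ A hA hP ρ
          rw [← hg, ← hV] at h5
          rw [← hV] at h4
          rw [← havg] at h4 h5
          have h6 : Real.log 2 ≤ 1 / θ * avg := by
            rw [one_div, ← div_eq_inv_mul, le_div_iff₀ hθ]
            linarith
          linarith
        · positivity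
      have h3 : (List.countP (fun p => decide (¬ Ok W p)) (p :: l)) =
          List.countP (fun p => decide (¬ Ok W p)) l := by
        rw [List.countP_cons_of_neg]
        simp [hok]
      rw [hE, h3]
      have h4 := mul_le_mul_of_nonneg_left h1 hC10.le
      have h5 : C1 * (Ψ - cc δ κ * avg) = C1 * Ψ - (2 + 1 / θ) * avg := by
        rw [← hC1c]
        ring
      rw [h5] at h4
      linarith
    · -- an exceptional prime
      obtain ⟨e0, he0, hmax⟩ := exists_max_image V ρ (hA.image _)
      refine ⟨ρ e0, hρ0 e0 he0, Good.sub (fib_sub p e0 A) (hρG e0 he0), ?_⟩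
      have h1 : (∑ a ∈ A, ρ (g a)) / A.card ≤ ρ e0 := by
        rw [div_le_iff₀ hN]
        calc ∑ a ∈ A, ρ (g a) ≤ ∑ _a ∈ A, ρ e0 :=
              sum_le_sum fun a ha => hmax _ (mem_image_of_mem _ ha)
          _ = ρ e0 * A.card := by rw [sum_const, nsmul_eq_mul, mul_comm]
      have h2 : (if PopP θ p A then h A (fv p) else 0) ≤ n1 := by
        split_ifs with hP
        · refine (h_le_log hA _).trans (le_trans (le_of_eq ?_) (hsm p (List.mem_cons_self ..) hok))
          congr 3
          ext x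
          simp only [mem_image]
        · exact hn1
      have h3 : (List.countP (fun p => decide (¬ Ok W p)) (p :: l)) =
          List.countP (fun p => decide (¬ Ok W p)) l + 1 := by
        rw [List.countP_cons_of_pos]
        simp [hok]
      rw [hE, h3]
      push_cast
      have h4 := mul_le_mul_of_nonneg_left h1 hC10.le
      have h5 : (m + 1) * n1 = m * n1 + n1 := by ring
      rw [← hm, h5]
      linarith

end Pool.Agent.Helper63.SD
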