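import Pool.Agent.Helper63.SD.Unif

/-!
The dichotomy for finite sets of rationals with complex partners.
-/

set_option autoImplicit false

namespace Pool.Agent.Helper63.SD

open Finset
open scoped Pointwise Classical

/-- `{a b : a ∈ A, b ∈ B}` -/
noncomputable def mulC (A : Finset ℚ) (B : Finset ℂ) : Finset ℂ :=
  image₂ (fun (a : ℚ) (b : ℂ) => (a : ℂ) * b) A B

/-- `{t x + b : x ∈ X, b ∈ B}` -/
noncomputable def dilC (t : ℚ) (X B : Finset ℂ) : Finset ℂ :=
  image₂ (fun (x : ℂ) (b : ℂ) => (t : ℂ) * x + b) X B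

lemma clear_den (S : Finset ℚ) :
    ∀ q ∈ S, ∃ z : ℤ, ((∏ r ∈ S, r.den : ℕ) : ℚ) * q = z := by
  intro q hq
  obtain ⟨c, hc⟩ := dvd_prod_of_mem (fun r : ℚ => r.den) hq
  refine ⟨c * q.num, ?_⟩
  have h1 : (q.den : ℚ) * q = q.num := Rat.den_mul_eq_num q
  rw [hc]
  push_cast
  rw [← h1]
  ring

lemma den_prod_pos (S : Finset ℚ) : 0 < ∏ r ∈ S, r.den := prod_pos fun r _ => r.den_pos

lemma exists_fun (S : Finset ℂ) : ∃ f : ℂ → ℚ, (∀ x y, f (x + y) = f x + f y) ∧
    (∀ (t : ℚ) (x : ℂ), f ((t : ℂ) * x) = t * f x) ∧ Set.InjOn f S ∧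
    ∀ x ∈ S, ∃ z : ℤ, f x = z := by
  obtain ⟨g, hg⟩ := Module.exists_dual_forall_apply_ne_zero (K := ℚ) (M := ℂ)
    (fun s : {s : ℂ × ℂ // s ∈ S.offDiag} => s.1.1 - s.1.2)
    (fun s => sub_ne_zero.2 (mem_offDiag.1 s.2).2.2)
  set N : ℕ := ∏ r ∈ S.image g, r.den with hN
  have hN0 : (N : ℚ) ≠ 0 := by exact_mod_cast (den_prod_pos (S.image g)).ne'
  refine ⟨fun x => N * g x, fun x y => ?_, fun t x => ?_, fun x hx y hy hxy => ?_,
    fun x hx => clear_den _ _ (mem_image_of_mem g hx)⟩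
  · show (N : ℚ) * g (x + y) = N * g x + N * g y
    rw [map_add, mul_add]
  · show (N : ℚ) * g ((t : ℂ) * x) = t * (N * g x)
    rw [← Rat.smul_def, map_smul, smul_eq_mul]
    ring
  · have h1 : g x = g y := mul_left_cancel₀ hN0 hxy
    by_contra hne
    apply hg ⟨(x, y), mem_offDiag.2 ⟨hx, hy, hne⟩⟩
    show g (x - y) = 0
    rw [map_sub, h1, sub_self]

lemma sum_red (X B : Finset ℂ) {N : ℕ} (hN : 0 < N) : ∃ X' B' : Finset ℤ,
    X'.card = X.card ∧ B'.card = B.card ∧ ∀ (t : ℚ) (v : ℤ), (N : ℚ) * t = v →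
      (dil v X' + B').card ≤ (dilC t X B).card := by
  obtain ⟨f, hadd, hmul, hinj, hint⟩ := exists_fun (X ∪ B)
  choose! z hz using hint
  have hN0 : (N : ℚ) ≠ 0 := by exact_mod_cast hN.ne'
  have hXU : ∀ x ∈ X, x ∈ X ∪ B := fun x hx => mem_union_left _ hx
  have hBU : ∀ x ∈ B, x ∈ X ∪ B := fun x hx => mem_union_right _ hx
  refine ⟨X.image z, B.image fun b => N * z b, ?_, ?_, fun t v htv => ?_⟩
  · apply card_image_of_injOn
    intro x hx y hy hxy
    apply hinj (hXU x hx) (hXU y hy)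
    rw [hz x (hXU x hx), hz y (hXU y hy)]
    exact_mod_cast hxy
  · apply card_image_of_injOn
    intro x hx y hy hxy
    have hxy' : (N : ℤ) * z x = N * z y := hxy
    have h1 : z x = z y := mul_left_cancel₀ (by exact_mod_cast hN.ne') hxy'
    apply hinj (hBU x hx) (hBU y hy)
    rw [hz x (hBU x hx), hz y (hBU y hy), h1]
  · have h1 : (dil v (X.image z) + B.image fun b => (N : ℤ) * z b).card =
        ((dil v (X.image z) + B.image fun b => (N : ℤ) * z b).image (Int.cast : ℤ → ℚ)).card :=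
      (card_image_of_injective _ Int.cast_injective).symm
    rw [h1]
    refine le_trans (card_le_card ?_)
      (card_image_le (s := dilC t X B) (f := fun y => (N : ℚ) * f y))
    intro m hm
    obtain ⟨m', hm', rfl⟩ := mem_image.1 hm
    obtain ⟨a, ha, b', hb', rfl⟩ := mem_add.1 hm'
    unfold dil at ha
    obtain ⟨x', hx', rfl⟩ := mem_image.1 ha
    obtain ⟨x, hx, rfl⟩ := mem_image.1 hx'
    obtain ⟨b, hb, rfl⟩ := mem_image.1 hb'
    refine mem_image.2 ⟨(t : ℂ) * x + b, mem_image₂_of_mem hx hb, ?_⟩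
    show (N : ℚ) * f ((t : ℂ) * x + b) = _
    rw [hadd, hmul, hz x (hXU x hx), hz b (hBU b hb)]
    push_cast
    rw [← htv]
    ring

/-- an integer copy of a finite set of rationals -/
lemma int_red (A : Finset ℚ) {N : ℕ} (hN : 0 < N) (h : ∀ a ∈ A, ∃ z : ℤ, (N : ℚ) * a = z) :
    ∃ A' : Finset ℤ, A'.card = A.card ∧ ∀ z ∈ A', ∃ a ∈ A, (N : ℚ) * a = z := by
  choose! z hz using h
  have hN0 : (N : ℚ) ≠ 0 := by exact_mod_cast hN.ne'
  refine ⟨A.image z, ?_, fun w hw => ?_⟩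
  · apply card_image_of_injOn
    intro x hx y hy hxy
    have h1 : (N : ℚ) * x = N * y := by
      rw [hz x hx, hz y hy]
      exact_mod_cast hxy
    exact mul_left_cancel₀ hN0 h1
  · obtain ⟨a, ha, rfl⟩ := mem_image.1 hw
    exact ⟨a, ha, hz a ha⟩

/-- products inside one class modulo the rationals -/
lemma mul_red (A : Finset ℚ) (A' : Finset ℤ) {N : ℕ} (hN : 0 < N)
    (hA' : ∀ z ∈ A', ∃ a ∈ A, (N : ℚ) * a = z) {g : ℂ} (hg : g ≠ 0) (B : Finset ℂ)
    (hB0 : (0 : ℂ) ∉ B) (hB : ∀ b ∈ B, ∃ q : ℚ, b = q * g) : ∃ B' : Finset ℤ,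
    B'.card = B.card ∧ (0 : ℤ) ∉ B' ∧ (A' * B').card ≤ (mulC A B).card := by
  choose! q hq using hB
  have hqi : Set.InjOn q B := by
    intro x hx y hy hxy
    rw [hq x hx, hq y hy, hxy]
  set M : ℕ := ∏ r ∈ B.image q, r.den with hM
  have hM0 : 0 < M := den_prod_pos _
  obtain ⟨B', hB'c, hB'⟩ := int_red (B.image q) hM0 (clear_den _)
  refine ⟨B', by rw [hB'c, card_image_of_injOn hqi], fun h0 => ?_, ?_⟩
  · obtain ⟨a, ha, h1⟩ := hB' 0 h0
    obtain ⟨b, hb, rfl⟩ := mem_image.1 ha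
    have hM1 : (M : ℚ) ≠ 0 := by exact_mod_cast hM0.ne'
    have h2 : q b = 0 := by
      rcases mul_eq_zero.1 (h1.trans (by norm_num)) with h | h
      · exact absurd h hM1
      · exact h
    apply hB0
    have h3 := hq b hb
    rw [h2] at h3
    push_cast at h3
    rw [zero_mul] at h3
    rwa [h3] at hb
  · have h1 : (A' * B').card = ((A' * B').image (Int.cast : ℤ → ℂ)).card :=
      (card_image_of_injective _ Int.cast_injective).symm
    rw [h1]
    refine le_trans (card_le_card ?_)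
      (card_image_le (s := mulC A B) (f := fun y => (N : ℂ) * M * y / g))
    intro m hm
    obtain ⟨m', hm', rfl⟩ := mem_image.1 hm
    obtain ⟨z, hz, w, hw, rfl⟩ := mem_mul.1 hm'
    obtain ⟨a, ha, hza⟩ := hA' z hz
    obtain ⟨r, hr, hwr⟩ := hB' w hw
    obtain ⟨b, hb, rfl⟩ := mem_image.1 hr
    refine mem_image.2 ⟨(a : ℂ) * b, mem_image₂_of_mem ha hb, ?_⟩
    have e1 : (z : ℂ) = N * a := by
      have := congrArg (Rat.cast : ℚ → ℂ) hza
      push_cast at this
      exact this.symm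
    have e2 : (w : ℂ) = M * q b := by
      have := congrArg (Rat.cast : ℚ → ℂ) hwr
      push_cast at this
      exact this.symm
    push_cast
    rw [e1, e2]
    nth_rewrite 1 [hq b hb]
    field_simp

/-- from one class modulo the rationals to several -/
lemma mul_classes (A : Finset ℚ) (hA : (0 : ℚ) ∉ A) {c s : ℝ} (hs : 0 ≤ s) (hs1 : s ≤ 1)
    (hc : 0 ≤ c)
    (h : ∀ (g : ℂ) (B : Finset ℂ), g ≠ 0 → (0 : ℂ) ∉ B → (∀ b ∈ B, ∃ q : ℚ, b = q * g) →
      c * (A.card * B.card : ℝ) ^ s ≤ (mulC A B).card) :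
    ∀ B : Finset ℂ, (0 : ℂ) ∉ B → c * (A.card * B.card : ℝ) ^ s ≤ (mulC A B).card := by
  intro B
  induction B using Finset.strongInduction with
  | H B ih =>
    intro hB0
    rcases B.eq_empty_or_nonempty with rfl | ⟨b₀, hb₀⟩
    · exact h 1 ∅ one_ne_zero hB0 (by simp)
    have hb₀0 : b₀ ≠ 0 := fun h => hB0 (h ▸ hb₀)
    set B1 := B.filter fun b => ∃ q : ℚ, b = q * b₀ with hB1
    set B2 := B.filter fun b => ¬ ∃ q : ℚ, b = q * b₀ with hB2
    have hB1s : B1 ⊆ B := filter_subset _ _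
    have hB2s : B2 ⊆ B := filter_subset _ _
    have hss : B2 ⊂ B := by
      refine ⟨hB2s, fun hsub => ?_⟩
      have h1 := hsub hb₀
      rw [hB2, mem_filter] at h1
      exact h1.2 ⟨1, by simp⟩
    have h1 := h b₀ B1 hb₀0 (fun h => hB0 (hB1s h)) (fun b hb => (mem_filter.1 hb).2)
    have h2 := ih B2 hss (fun h => hB0 (hB2s h))
    have hcard : B.card = B1.card + B2.card := (card_filter_add_card_filter_not _).symm
    have hdis : Disjoint (mulC A B1) (mulC A B2) := by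
      rw [disjoint_left]
      intro y hy1 hy2
      obtain ⟨a, ha, b, hb, rfl⟩ := mem_image₂.1 hy1
      obtain ⟨a', ha', b', hb', hbb⟩ := mem_image₂.1 hy2
      obtain ⟨q, hq⟩ := (mem_filter.1 hb).2
      apply (mem_filter.1 hb').2
      have ha'0 : (a' : ℂ) ≠ 0 := by
        have : a' ≠ 0 := fun h => hA (h ▸ ha')
        exact_mod_cast this
      refine ⟨a * q / a', ?_⟩
      push_cast
      rw [hq] at hbb
      field_simp
      linear_combination hbb
    have hsub : mulC A B1 ∪ mulC A B2 ⊆ mulC A B := by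
      apply union_subset
      · exact image₂_subset_left hB1s
      · exact image₂_subset_left hB2s
    have h3 := card_le_card hsub
    rw [card_union_of_disjoint hdis] at h3
    have h4 : ((A.card : ℝ) * B.card) ^ s ≤
        ((A.card : ℝ) * B1.card) ^ s + ((A.card : ℝ) * B2.card) ^ s := by
      rw [hcard]
      push_cast
      rw [mul_add]
      exact Real.rpow_add_le_add_rpow (by positivity) (by positivity) hs hs1
    have h5 : ((mulC A B1).card : ℝ) + (mulC A B2).card ≤ (mulC A B).card := by exact_mod_cast h3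
    calc c * (A.card * B.card : ℝ) ^ s ≤
        c * (((A.card : ℝ) * B1.card) ^ s + ((A.card : ℝ) * B2.card) ^ s) :=
          mul_le_mul_of_nonneg_left h4 hc
      _ = c * ((A.card : ℝ) * B1.card) ^ s + c * ((A.card : ℝ) * B2.card) ^ s := by ring
      _ ≤ _ := by linarith

lemma rpow_of_log {s C : ℝ} {a b m : ℕ} (ha : 0 < a) (hb : 0 < b) (hm : 0 < m)
    (h : s * (Real.log a + Real.log b) - C ≤ Real.log m) :
    Real.exp (-C) * ((a : ℝ) * b) ^ s ≤ m := by
  have ha' : (0 : ℝ) < a := by exact_mod_cast ha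
  have hb' : (0 : ℝ) < b := by exact_mod_cast hb
  have hm' : (0 : ℝ) < m := by exact_mod_cast hm
  rw [Real.rpow_def_of_pos (by positivity), ← Real.exp_add, ← Real.le_log_iff_exp_le hm',
    Real.log_mul ha'.ne' hb'.ne']
  linarith

theorem core_rat (ε K : ℝ) (hε : 0 < ε) (hε1 : ε < 1) (hK : 0 < K) :
    ∃ n : ℕ, 0 < n ∧ ∃ η : ℝ, 0 < η ∧ ∀ Q : ℝ, 1 ≤ Q → ∃ c : ℝ, 0 < c ∧ c ≤ 1 ∧
      ∀ W A : Finset ℚ, (0 : ℚ) ∉ W → W.card = n → A.Nonempty → (0 : ℚ) ∉ A →
      (∀ u ∈ W, |(u.num : ℝ)| ≤ Q * (A.card : ℝ) ^ η ∧ (u.den : ℝ) ≤ Q * (A.card : ℝ) ^ η) →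
      (∀ B : Finset ℂ, (0 : ℂ) ∉ B → c * ((A.card : ℝ) * B.card) ^ (1 - ε) ≤ (mulC A B).card) ∨
      (∀ X B : Finset ℂ, X.Nonempty → B.Nonempty → (X.card : ℝ) * B.card ≤ (A.card : ℝ) ^ K →
        ∃ u ∈ W, ∃ a ∈ A, c * ((X.card : ℝ) * B.card) ^ (1 - ε) ≤
          (dilC (u * a) X B).card) := by
  obtain ⟨n, hn, η, hη, hcore⟩ := core_unif ε K hε hε1 hK
  refine ⟨n, hn, η / (n + 1), by positivity, fun Q hQ => ?_⟩
  obtain ⟨C, hC, hmain⟩ := hcore (Q ^ (n + 1)) (one_le_pow₀ hQ)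
  refine ⟨Real.exp (-C), Real.exp_pos _, Real.exp_le_one_iff.2 (by linarith),
    fun W A hW0 hWn hA hA0 hWR => ?_⟩
  have hAc : (0 : ℝ) < A.card := by exact_mod_cast card_pos.2 hA
  have hAc1 : (1 : ℝ) ≤ A.card := by exact_mod_cast card_pos.2 hA
  set R : ℝ := Q * (A.card : ℝ) ^ (η / (n + 1)) with hR
  have hR1 : 1 ≤ R := by
    have h1 : 1 ≤ (A.card : ℝ) ^ (η / (n + 1)) := Real.one_le_rpow hAc1 (by positivity)
    nlinarith
  -- integer copies
  set D : ℕ := ∏ r ∈ W, r.den with hD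
  have hD0 : 0 < D := den_prod_pos W
  have hDR : (D : ℝ) ≤ R ^ n := by
    rw [hD, ← hWn]
    push_cast
    calc ∏ r ∈ W, (r.den : ℝ) ≤ ∏ _r ∈ W, R :=
          prod_le_prod (fun _ _ => Nat.cast_nonneg _) fun u hu => (hWR u hu).2
      _ = R ^ W.card := prod_const _
  obtain ⟨W', hW'c, hW'⟩ := int_red W hD0 (clear_den W)
  set d : ℕ := ∏ r ∈ A, r.den with hd
  have hd0 : 0 < d := den_prod_pos A
  obtain ⟨A', hA'c, hA'⟩ := int_red A hd0 (clear_den A)
  have hW'0 : (0 : ℤ) ∉ W' := by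
    intro h0
    obtain ⟨u, hu, h1⟩ := hW' 0 h0
    have hD1 : (D : ℚ) ≠ 0 := by exact_mod_cast hD0.ne'
    rcases mul_eq_zero.1 (h1.trans (by norm_num)) with h | h
    · exact hD1 h
    · exact hW0 (h ▸ hu)
  have hA'0 : (0 : ℤ) ∉ A' := by
    intro h0
    obtain ⟨u, hu, h1⟩ := hA' 0 h0
    have hD1 : (d : ℚ) ≠ 0 := by exact_mod_cast hd0.ne'
    rcases mul_eq_zero.1 (h1.trans (by norm_num)) with h | h
    · exact hD1 h
    · exact hA0 (h ▸ hu)
  have hA'n : A'.Nonempty := by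
    rw [← card_pos, hA'c]
    exact card_pos.2 hA
  have hsize : ∀ u' ∈ W', |(u' : ℝ)| ≤ Q ^ (n + 1) * Real.exp (η * Real.log A'.card) := by
    intro u' hu'
    obtain ⟨u, hu, h1⟩ := hW' u' hu'
    have h2 : (u' : ℝ) = D * u := by
      have := congrArg (Rat.cast : ℚ → ℝ) h1
      push_cast at this
      exact this.symm
    have h3 : |(u : ℝ)| ≤ R := by
      have h4 : |(u : ℝ)| ≤ |(u.num : ℝ)| := by
        have h5 : (u : ℝ) = u.num / u.den := by
          have := Rat.num_div_den u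
          exact_mod_cast this.symm
        rw [h5, abs_div]
        apply div_le_self (abs_nonneg _)
        rw [Nat.abs_cast]
        exact_mod_cast u.den_pos
      exact h4.trans (hWR u hu).1
    have h4 : |(u' : ℝ)| ≤ R ^ (n + 1) := by
      rw [h2, abs_mul, Nat.abs_cast, pow_succ]
      exact mul_le_mul hDR h3 (abs_nonneg _) (by positivity)
    refine h4.trans (le_of_eq ?_)
    rw [hR, mul_pow, hA'c, ← Real.rpow_natCast ((A.card : ℝ) ^ (η / (n + 1))), ← Real.rpow_mul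
      hAc.le, Real.rpow_def_of_pos hAc]
    congr 2
    push_cast
    field_simp
  rcases hmain W' A' hW'0 (hW'c.trans hWn) hA'n hA'0 hsize with hL | hRt
  · left
    refine mul_classes A hA0 (by linarith) (by linarith) (Real.exp_pos _).le
      (fun g B hg hB0 hB => ?_)
    rcases B.eq_empty_or_nonempty with rfl | hBn
    · rw [card_empty, Nat.cast_zero, mul_zero, Real.zero_rpow (by linarith), mul_zero]
      positivity
    obtain ⟨B', hB'c, hB'0, hle⟩ := mul_red A A' hd0 hA' hg B hB0 hB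
    have hB'n : B'.Nonempty := by
      rw [← card_pos, hB'c]
      exact card_pos.2 hBn
    have h1 := hL B' hB'n hB'0
    have h2 := rpow_of_log (card_pos.2 hA'n) (card_pos.2 hB'n) (card_pos.2 (hA'n.mul hB'n)) h1
    rw [hA'c, hB'c] at h2
    refine h2.trans ?_
    exact_mod_cast hle
  · right
    intro X B hX hB hXB
    have hXc : (0 : ℝ) < X.card := by exact_mod_cast card_pos.2 hX
    have hBc : (0 : ℝ) < B.card := by exact_mod_cast card_pos.2 hB
    obtain ⟨X', B', hX'c, hB'c, hred⟩ := sum_red X B (N := D * d) (Nat.mul_pos hD0 hd0)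
    have hX'n : X'.Nonempty := by
      rw [← card_pos, hX'c]
      exact card_pos.2 hX
    have hB'n : B'.Nonempty := by
      rw [← card_pos, hB'c]
      exact card_pos.2 hB
    have hS : Sz X' B' ≤ K * Real.log A'.card := by
      unfold Sz
      rw [hX'c, hB'c, hA'c, ← Real.log_mul hXc.ne' hBc.ne', ← Real.log_rpow hAc]
      exact Real.log_le_log (by positivity) hXB
    obtain ⟨u', hu', a', ha', h1⟩ := hRt X' B' hX'n hB'n hS
    obtain ⟨u, hu, hu1⟩ := hW' u' hu'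
    obtain ⟨a, ha, ha1⟩ := hA' a' ha'
    refine ⟨u, hu, a, ha, ?_⟩
    unfold Sz at h1
    have h2 := rpow_of_log (card_pos.2 hX'n) (card_pos.2 hB'n)
      (card_pos.2 ((dil_nonempty hX'n).add hB'n)) h1
    rw [hX'c, hB'c] at h2
    refine h2.trans ?_
    have h3 := hred (u * a) (u' * a') (by
      push_cast
      rw [← hu1, ← ha1]
      ring)
    exact_mod_cast h3

end Pool.Agent.Helper63.SD
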