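import Pool.Agent.Helper63.SD.Rat

/-!
Poor sets, almost all dilates, and the decomposition.
-/

set_option autoImplicit false

namespace Pool.Agent.Helper63.SD

open Finset
open scoped Pointwise Classical

/-- the nonzero rationals whose numerator and denominator are at most `m` -/
noncomputable def hts (m : ℕ) : Finset ℚ :=
  (Finset.Icc (-(m : ℤ)) m ×ˢ Finset.Icc 1 m).image fun s => (s.1 : ℚ) / (s.2 : ℚ)

lemma mem_hts {m : ℕ} {w : ℚ} (h1 : |w.num| ≤ m) (h2 : w.den ≤ m) : w ∈ hts m := by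
  refine mem_image.2 ⟨(w.num, w.den), mem_product.2 ⟨?_, ?_⟩, Rat.num_div_den w⟩
  · rw [mem_Icc]
    exact abs_le.1 h1
  · rw [mem_Icc]
    exact ⟨w.den_pos, h2⟩

lemma hts_card {m : ℕ} (hm : 0 < m) : (hts m).card ≤ 3 * m ^ 2 := by
  refine card_image_le.trans ?_
  rw [card_product, Int.card_Icc, Nat.card_Icc]
  have e1 : ((m : ℤ) + 1 - -(m : ℤ)).toNat = 2 * m + 1 := by omega
  rw [e1]
  have e2 : m + 1 - 1 = m := by omega
  rw [e2]
  nlinarith

lemma rpow_mono_exp {x e1 e2 : ℝ} (hx : 1 ≤ x) (h : e1 ≤ e2) : x ^ e1 ≤ x ^ e2 :=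
  Real.rpow_le_rpow_of_exponent_le hx h

/-- a set with few products has almost all dilates good -/
theorem poor_good (ε K : ℝ) (hε : 0 < ε) (hε1 : ε < 1) (hK : 0 < K) :
    ∃ n : ℕ, 0 < n ∧ ∃ η c : ℝ, 0 < η ∧ 0 < c ∧ c ≤ 1 ∧
      ∀ A M : Finset ℚ, A.Nonempty → (0 : ℚ) ∉ A → M ⊆ A →
      (A.card : ℝ) ^ (1 - η) ≤ M.card →
      (∃ B : Finset ℂ, B.Nonempty ∧ (0 : ℂ) ∉ B ∧
        ((mulC M B).card : ℝ) < c * ((M.card : ℝ) * B.card) ^ (1 - ε)) →
      ∀ X B : Finset ℂ, X.Nonempty → B.Nonempty → (X.card : ℝ) * B.card ≤ (A.card : ℝ) ^ K →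
      ∃ E ⊆ M, (E.card : ℝ) ≤ (A.card : ℝ) ^ (1 - 2 * η) ∧ ∀ a ∈ M \ E, ∃ T : Finset ℚ,
        T.card < n ∧ ∀ w : ℚ, w ≠ 0 → w ∉ T → |(w.num : ℝ)| ≤ n * (A.card : ℝ) ^ η →
        (w.den : ℝ) ≤ n * (A.card : ℝ) ^ η →
        c * ((X.card : ℝ) * B.card) ^ (1 - ε) ≤ (dilC (w * a) X B).card := by
  obtain ⟨n, hn, η₀, hη₀, hcore⟩ := core_rat (ε / 2) (2 * K) (by positivity) (by linarith)
    (by positivity)
  have hn1 : (1 : ℝ) ≤ n := by exact_mod_cast hn
  obtain ⟨c₀, hc₀, hc₀1, hmain⟩ := hcore n hn1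
  set η := min (η₀ / 2) (ε / (2 * (2 * n + 3))) with hη
  have hη0 : 0 < η := lt_min (by positivity) (by positivity)
  have hηη : η ≤ η₀ / 2 := min_le_left _ _
  set τ := (2 * n + 3) * η with hτ
  have hτε : τ ≤ ε / 2 := by
    have h1 : η ≤ ε / (2 * (2 * n + 3)) := min_le_right _ _
    rw [le_div_iff₀ (by positivity)] at h1
    rw [hτ]
    linarith
  set Z : ℝ := (3 * n ^ 2) ^ n with hZ
  have hZ1 : 1 ≤ Z := one_le_pow₀ (by nlinarith)
  have hZ0 : 0 < Z := by linarith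
  set z : ℝ := Z ^ (-(1 / η)) with hz
  have hz0 : 0 < z := Real.rpow_pos_of_pos hZ0 _
  have hz1 : z ≤ 1 := Real.rpow_le_one_of_one_le_of_nonpos hZ1 (by
    have : 0 < 1 / η := by positivity
    linarith)
  refine ⟨n, hn, η, c₀ * z, hη0, by positivity, by nlinarith, fun A M hA hA0 hMA hM hpoor X B hX
    hB hXB => ?_⟩
  have hN1 : (1 : ℝ) ≤ A.card := by exact_mod_cast card_pos.2 hA
  have hN0 : (0 : ℝ) < A.card := by linarith
  obtain ⟨B', hB'n, hB'0, hB'⟩ := hpoor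
  have hMc : (0 : ℝ) < M.card := lt_of_lt_of_le (Real.rpow_pos_of_pos hN0 _) hM
  have hMn : M.Nonempty := card_pos.1 (by exact_mod_cast hMc)
  have hMN : (M.card : ℝ) ≤ A.card := by exact_mod_cast card_le_card hMA
  have hM1 : (1 : ℝ) ≤ M.card := by exact_mod_cast card_pos.2 hMn
  have hB'c : (1 : ℝ) ≤ B'.card := by exact_mod_cast card_pos.2 hB'n
  have hM0 : (0 : ℚ) ∉ M := fun h => hA0 (hMA h)
  -- many elements
  have hNη : Z < (A.card : ℝ) ^ η := by
    by_contra hcon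
    push Not at hcon
    have h1 : (A.card : ℝ) ≤ Z ^ (1 / η) := by
      have h2 := Real.rpow_le_rpow (by positivity) hcon (show 0 ≤ 1 / η by positivity)
      rwa [← Real.rpow_mul hN0.le, mul_one_div_cancel hη0.ne', Real.rpow_one] at h2
    have h2 : z * A.card ≤ 1 := by
      calc z * A.card ≤ z * Z ^ (1 / η) := mul_le_mul_of_nonneg_left h1 hz0.le
        _ = 1 := by rw [hz, ← Real.rpow_add hZ0, neg_add_cancel, Real.rpow_zero]
    have h3 : B'.card ≤ (mulC M B').card := by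
      obtain ⟨a, ha⟩ := id hMn
      have ha0 : (a : ℂ) ≠ 0 := by
        have : a ≠ 0 := fun h => hM0 (h ▸ ha)
        exact_mod_cast this
      have h4 : B'.image (fun b => (a : ℂ) * b) ⊆ mulC M B' := by
        intro y hy
        obtain ⟨b, hb, rfl⟩ := mem_image.1 hy
        exact mem_image₂_of_mem ha hb
      have h5 := card_le_card h4
      rwa [card_image_of_injective _ (mul_right_injective₀ ha0)] at h5
    have h4 : ((M.card : ℝ) * B'.card) ^ (1 - ε) ≤ (M.card : ℝ) * B'.card := by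
      have h5 : (1 : ℝ) ≤ (M.card : ℝ) * B'.card := by nlinarith
      calc ((M.card : ℝ) * B'.card) ^ (1 - ε) ≤ ((M.card : ℝ) * B'.card) ^ (1 : ℝ) :=
            rpow_mono_exp h5 (by linarith)
        _ = _ := Real.rpow_one _
    have h5 : c₀ * z * ((M.card : ℝ) * B'.card) ^ (1 - ε) ≤ B'.card := by
      calc c₀ * z * ((M.card : ℝ) * B'.card) ^ (1 - ε)
          ≤ c₀ * z * ((M.card : ℝ) * B'.card) := mul_le_mul_of_nonneg_left h4 (by positivity)
        _ = c₀ * (z * M.card) * B'.card := by ring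
        _ ≤ 1 * B'.card := by
          apply mul_le_mul_of_nonneg_right _ (by positivity)
          have h6 : z * M.card ≤ 1 := (mul_le_mul_of_nonneg_left hMN hz0.le).trans h2
          have h7 : 0 ≤ z * M.card := by positivity
          nlinarith
        _ = B'.card := one_mul _
    have h6 : (B'.card : ℝ) ≤ (mulC M B').card := by exact_mod_cast h3
    linarith
  -- the multipliers
  set R : ℝ := n * (A.card : ℝ) ^ η with hR
  have hNη1 : 1 ≤ (A.card : ℝ) ^ η := Real.one_le_rpow hN1 hη0.le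
  have hR1 : 1 ≤ R := by nlinarith
  set m : ℕ := ⌊R⌋₊ with hm
  have hm0 : 0 < m := Nat.floor_pos.2 hR1
  have hmR : (m : ℝ) ≤ R := Nat.floor_le (by linarith)
  set bad : ℚ → ℚ → Prop := fun a w =>
    ((dilC (w * a) X B).card : ℝ) < c₀ * z * ((X.card : ℝ) * B.card) ^ (1 - ε) with hbad
  set H : Finset ℚ := (hts m).filter fun w => w ≠ 0 ∧ |(w.num : ℝ)| ≤ R ∧ (w.den : ℝ) ≤ R with hH
  set E := M.filter fun a => n ≤ (H.filter fun w => bad a w).card with hE
  refine ⟨E, filter_subset _ _, ?_, fun a ha => ?_⟩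
  swap
  · rw [mem_sdiff, hE, mem_filter, not_and, not_le] at ha
    refine ⟨H.filter fun w => bad a w, ha.2 ha.1, fun w hw0 hwT hwn hwd => ?_⟩
    by_contra hcon
    push Not at hcon
    apply hwT
    refine mem_filter.2 ⟨mem_filter.2 ⟨mem_hts ?_ ?_, hw0, hwn, hwd⟩, hcon⟩
    · have h1 : ((|w.num| : ℤ) : ℝ) ≤ R := by
        rw [Int.cast_abs]
        exact hwn
      have h2 : ((w.num.natAbs : ℕ) : ℝ) ≤ R := by
        rwa [Nat.cast_natAbs]
      have h3 := Nat.le_floor h2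
      rw [Int.abs_eq_natAbs]
      exact_mod_cast h3
    · exact Nat.le_floor hwd
  -- the exceptional set is small
  by_contra hcon
  push Not at hcon
  have hex : ∀ a ∈ E, ∃ W ⊆ H.filter fun w => bad a w, W.card = n := fun a ha =>
    exists_subset_card_eq (mem_filter.1 ha).2
  choose! W hWs hWc using hex
  have hmaps : ∀ a ∈ E, W a ∈ H.powersetCard n := fun a ha =>
    mem_powersetCard.2 ⟨(hWs a ha).trans (filter_subset _ _), hWc a ha⟩
  have hEc : (0 : ℝ) < E.card := lt_trans (Real.rpow_pos_of_pos hN0 _) hcon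
  have hEn : E.Nonempty := card_pos.1 (by exact_mod_cast hEc)
  have hHc : (H.card : ℝ) ≤ 3 * R ^ 2 := by
    have h1 : H.card ≤ 3 * m ^ 2 := (card_le_card (filter_subset _ _)).trans (hts_card hm0)
    have h2 : (H.card : ℝ) ≤ 3 * m ^ 2 := by exact_mod_cast h1
    have h3 : (m : ℝ) ^ 2 ≤ R ^ 2 := pow_le_pow_left₀ (by positivity) hmR 2
    linarith
  have hcount : ((H.powersetCard n).card : ℝ) ≤ Z * (A.card : ℝ) ^ (2 * n * η) := by
    rw [card_powersetCard]
    calc ((H.card.choose n : ℕ) : ℝ) ≤ (H.card : ℝ) ^ n := by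
          exact_mod_cast Nat.choose_le_pow _ _
      _ ≤ (3 * R ^ 2) ^ n := pow_le_pow_left₀ (by positivity) hHc n
      _ = Z * (A.card : ℝ) ^ (2 * n * η) := by
          have e1 : 3 * R ^ 2 = (3 * (n : ℝ) ^ 2) * ((A.card : ℝ) ^ η) ^ 2 := by
            rw [hR]
            ring
          rw [e1, mul_pow, hZ, ← pow_mul, ← Real.rpow_natCast ((A.card : ℝ) ^ η),
            ← Real.rpow_mul hN0.le]
          congr 2
          push_cast
          ring
  obtain ⟨W₀, hW₀, hfib⟩ := exists_le_card_fiber_of_nsmul_le_card_of_maps_to (b := (A.card : ℝ) ^ (1 - τ))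
    hmaps ⟨_, hmaps _ hEn.choose_spec⟩ (by
      rw [nsmul_eq_mul]
      calc ((H.powersetCard n).card : ℝ) * (A.card : ℝ) ^ (1 - τ)
          ≤ (Z * (A.card : ℝ) ^ (2 * n * η)) * (A.card : ℝ) ^ (1 - τ) :=
            mul_le_mul_of_nonneg_right hcount (by positivity)
        _ ≤ ((A.card : ℝ) ^ η * (A.card : ℝ) ^ (2 * n * η)) * (A.card : ℝ) ^ (1 - τ) := by
            apply mul_le_mul_of_nonneg_right _ (by positivity)
            exact mul_le_mul_of_nonneg_right hNη.le (by positivity)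
        _ = (A.card : ℝ) ^ (1 - 2 * η) := by
            rw [← Real.rpow_add hN0, ← Real.rpow_add hN0]
            congr 1
            rw [hτ]
            ring
        _ ≤ E.card := hcon.le)
  set A₂ := E.filter fun a => W a = W₀ with hA₂
  have hA₂c : (A.card : ℝ) ^ (1 - τ) ≤ A₂.card := hfib
  have hA₂pos : (0 : ℝ) < A₂.card := lt_of_lt_of_le (Real.rpow_pos_of_pos hN0 _) hA₂c
  have hA₂n : A₂.Nonempty := card_pos.1 (by exact_mod_cast hA₂pos)
  have hA₂M : A₂ ⊆ M := (filter_subset _ _).trans (filter_subset _ _)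
  have hA₂0 : (0 : ℚ) ∉ A₂ := fun h => hM0 (hA₂M h)
  have hW₀' := mem_powersetCard.1 hW₀
  have hW₀0 : (0 : ℚ) ∉ W₀ := fun h => (mem_filter.1 (hW₀'.1 h)).2.1 rfl
  have hhalf : (A.card : ℝ) ^ (1 / 2 : ℝ) ≤ A₂.card :=
    (rpow_mono_exp hN1 (by linarith)).trans hA₂c
  have hpow : ∀ t : ℝ, 0 ≤ t → (A.card : ℝ) ^ t ≤ (A₂.card : ℝ) ^ (2 * t) := by
    intro t ht
    have h1 := Real.rpow_le_rpow (by positivity) hhalf (show 0 ≤ 2 * t by positivity)
    rwa [← Real.rpow_mul hN0.le, show (1 / 2 : ℝ) * (2 * t) = t by ring] at h1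
  have hA₂1 : (1 : ℝ) ≤ A₂.card := by exact_mod_cast card_pos.2 hA₂n
  have hRle : R ≤ n * (A₂.card : ℝ) ^ η₀ := by
    rw [hR]
    apply mul_le_mul_of_nonneg_left _ (by positivity)
    exact (hpow η hη0.le).trans (rpow_mono_exp hA₂1 (by linarith))
  have hcz : c₀ * z ≤ c₀ := by nlinarith
  rcases hmain W₀ A₂ hW₀0 hW₀'.2 hA₂n hA₂0 (fun u hu => by
    have h1 := (mem_filter.1 (hW₀'.1 hu)).2
    exact ⟨h1.2.1.trans hRle, h1.2.2.trans hRle⟩) with hL | hRt
  · have h1 := hL B' hB'0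
    have h2 : ((mulC A₂ B').card : ℝ) ≤ (mulC M B').card := by
      have h0 : mulC A₂ B' ⊆ mulC M B' := image₂_subset_right hA₂M
      exact_mod_cast card_le_card h0
    have h3 : ((A.card : ℝ) * B'.card) ^ (1 - ε) ≤ ((A₂.card : ℝ) * B'.card) ^ (1 - ε / 2) := by
      calc ((A.card : ℝ) * B'.card) ^ (1 - ε)
          = (A.card : ℝ) ^ (1 - ε) * (B'.card : ℝ) ^ (1 - ε) :=
            Real.mul_rpow (by positivity) (by positivity)
        _ ≤ (A.card : ℝ) ^ ((1 - τ) * (1 - ε / 2)) * (B'.card : ℝ) ^ (1 - ε / 2) := by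
            apply mul_le_mul (rpow_mono_exp hN1 _) (rpow_mono_exp hB'c (by linarith))
              (by positivity) (by positivity)
            have h4 : 0 ≤ τ * ε := by positivity
            nlinarith
        _ = ((A.card : ℝ) ^ (1 - τ) * B'.card) ^ (1 - ε / 2) := by
            rw [Real.mul_rpow (by positivity) (by positivity), ← Real.rpow_mul hN0.le]
        _ ≤ _ := by
            apply Real.rpow_le_rpow (by positivity) _ (by linarith)
            exact mul_le_mul_of_nonneg_right hA₂c (by positivity)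
    have h4 : ((M.card : ℝ) * B'.card) ^ (1 - ε) ≤ ((A.card : ℝ) * B'.card) ^ (1 - ε) := by
      apply Real.rpow_le_rpow (by positivity) _ (by linarith)
      exact mul_le_mul_of_nonneg_right hMN (by positivity)
    have h5 : c₀ * z * ((M.card : ℝ) * B'.card) ^ (1 - ε) ≤
        c₀ * ((A₂.card : ℝ) * B'.card) ^ (1 - ε / 2) :=
      mul_le_mul hcz (h4.trans h3) (by positivity) hc₀.le
    linarith
  · have hXB' : (X.card : ℝ) * B.card ≤ (A₂.card : ℝ) ^ (2 * K) := hXB.trans (hpow K hK.le)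
    obtain ⟨u, hu, a, ha, h1⟩ := hRt X B hX hB hXB'
    have ha' := mem_filter.1 ha
    have h2 : u ∈ W a := ha'.2 ▸ hu
    have h3 := (mem_filter.1 (hWs a ha'.1 h2)).2
    have hXc : (1 : ℝ) ≤ X.card := by exact_mod_cast card_pos.2 hX
    have hBc : (1 : ℝ) ≤ B.card := by exact_mod_cast card_pos.2 hB
    have h4 : c₀ * z * ((X.card : ℝ) * B.card) ^ (1 - ε) ≤
        c₀ * ((X.card : ℝ) * B.card) ^ (1 - ε / 2) :=
      mul_le_mul hcz (rpow_mono_exp (by nlinarith) (by linarith)) (by positivity) hc₀.le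
    have h5 : ((dilC (u * a) X B).card : ℝ) < c₀ * z * ((X.card : ℝ) * B.card) ^ (1 - ε) := h3
    linarith

end Pool.Agent.Helper63.SD
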