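import Pool.Agent.Helper63.SD.Good

/-!
The tree of the valuations of a finite set of integers: products, and the rank.
-/

set_option autoImplicit false

namespace Pool.Agent.Helper63.SD

open Finset PE
open scoped Pointwise Classical

/-- the `p`-adic valuation -/
noncomputable def fv (p : ℕ) (a : ℤ) : ℤ := (padicValInt p a : ℤ)

/-- no valuation is taken by almost all elements of `A` -/
def PopP (θ : ℝ) (p : ℕ) (A : Finset ℤ) : Prop :=
  ∀ e : ℤ, θ * A.card < ((A.filter fun a => fv p a ≠ e).card : ℝ)

/-- the entropy at the popular nodes of the tree -/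
noncomputable def Epop (θ : ℝ) : List ℕ → Finset ℤ → ℝ
  | [], _ => 0
  | p :: l, A => (if PopP θ p A then h A (fv p) else 0) +
      (∑ a ∈ A, Epop θ l (cl A (fv p) a)) / A.card

lemma fv_mul {p : ℕ} (hp : p.Prime) {a b : ℤ} (ha : a ≠ 0) (hb : b ≠ 0) :
    fv p (a * b) = fv p a + fv p b := by
  have := Fact.mk hp
  unfold fv
  rw [padicValInt.mul ha hb]
  push_cast
  rfl

lemma sum_log_cl {α β : Type*} (X : Finset α) (f : α → β) (hX : X.Nonempty) :
    (∑ x ∈ X, Real.log (cl X f x).card) / X.card = Real.log X.card - h X f := by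
  have hN : (0 : ℝ) < X.card := by exact_mod_cast card_pos.2 hX
  unfold h fc
  rw [sum_sub_distrib, sum_const, nsmul_eq_mul, sub_div, mul_div_cancel_left₀ _ hN.ne']
  ring

lemma cl_sub {α β : Type*} (X : Finset α) (f : α → β) (x : α) : cl X f x ⊆ X := filter_subset _ _

lemma cl_nonempty {α β : Type*} {X : Finset α} (f : α → β) {x : α} (hx : x ∈ X) :
    (cl X f x).Nonempty := ⟨x, mem_cl.2 ⟨hx, rfl⟩⟩

lemma card_le_mul (B A : Finset ℤ) (hA : A.Nonempty) (h0 : (0 : ℤ) ∉ A) :
    B.card ≤ (B * A).card := by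
  obtain ⟨a, ha⟩ := hA
  have ha0 : a ≠ 0 := fun h => h0 (h ▸ ha)
  have h1 : (B.image fun b => b * a).card = B.card :=
    card_image_of_injective _ (mul_left_injective₀ ha0)
  rw [← h1]
  refine card_le_card fun x hx => ?_
  obtain ⟨b, hb, rfl⟩ := mem_image.1 hx
  exact mul_mem_mul hb ha

lemma nz_le {α M : Type*} [AddCommGroup M] (G : Finset α) (b : α → M) (P : α → Prop)
    [DecidablePred P] (h : ∀ x ∈ G, b x ≠ 0 → P x) : nz G b ≤ (G.filter P).card := by
  unfold nz
  refine card_le_card fun a ha => ?_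
  rw [mem_filter] at ha ⊢
  exact ⟨ha.1, h a ha.1 ha.2⟩

/-- **Products**: only the entropy at the popular nodes can be lost. -/
theorem prod_lower {θ : ℝ} (hθ : 0 < θ) (hθ1 : θ ≤ 1 / 9) (hκ : 4 / Real.log (1 / θ) ≤ 1)
    (l : List ℕ) : (∀ p ∈ l, p.Prime) → ∀ B A : Finset ℤ, B.Nonempty → A.Nonempty →
    (0 : ℤ) ∉ B → (0 : ℤ) ∉ A → ∀ F : ℕ,
    (∀ a ∈ A, (A.filter fun a' => ∀ p ∈ l, fv p a' = fv p a).card ≤ F) →
    (1 - 4 / Real.log (1 / θ)) * (Real.log B.card + Real.log A.card - Epop θ l A) -
      Real.log F ≤ Real.log (B * A).card := by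
  have hl3 : 0 < Real.log (1 / θ) := by
    refine Real.log_pos ?_
    rw [lt_div_iff₀ hθ]
    linarith
  set κ := 4 / Real.log (1 / θ) with hκd
  have hκ0 : 0 < κ := by positivity
  induction l with
  | nil =>
    intro _ B A hB hA hB0 hA0 F hF
    obtain ⟨a, ha⟩ := id hA
    have h1 := hF a ha
    rw [filter_true_of_mem (fun _ _ => by simp)] at h1
    have cB : (0 : ℝ) < B.card := by exact_mod_cast card_pos.2 hB
    have cA : (0 : ℝ) < A.card := by exact_mod_cast card_pos.2 hA
    have h2 : Real.log A.card ≤ Real.log F := Real.log_le_log cA (by exact_mod_cast h1)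
    have h3 : Real.log B.card ≤ Real.log (B * A).card :=
      Real.log_le_log cB (by exact_mod_cast card_le_mul B A hA hA0)
    have h4 : 0 ≤ Real.log (B.card : ℝ) := Real.log_natCast_nonneg _
    have h5 : 0 ≤ Real.log (A.card : ℝ) := Real.log_natCast_nonneg _
    have e : Epop θ [] A = 0 := rfl
    rw [e]
    nlinarith
  | cons p l ih =>
    intro hpl B A hB hA hB0 hA0 F hF
    have hp : p.Prime := hpl p (List.mem_cons_self ..)
    have hpl' : ∀ q ∈ l, q.Prime := fun q hq => hpl q (List.mem_cons_of_mem _ hq)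
    have cB : (0 : ℝ) < B.card := by exact_mod_cast card_pos.2 hB
    have cA : (0 : ℝ) < A.card := by exact_mod_cast card_pos.2 hA
    have cBA : (0 : ℝ) < (B ×ˢ A).card := by exact_mod_cast card_pos.2 (hB.product hA)
    have chain := card_chain (B ×ˢ A) (hB.product hA) (fun s => fv p s.1 + fv p s.2) (B * A)
      (fv p) (fun s => cl B (fv p) s.1 * cl A (fv p) s.2)
      (fun s _ => mul_subset_mul (cl_sub _ _ _) (cl_sub _ _ _))
      (fun s hs => (cl_nonempty _ (mem_product.1 hs).1).mul (cl_nonempty _ (mem_product.1 hs).2))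
      (by
        intro s _ z hz
        obtain ⟨b, hb, a, ha, rfl⟩ := mem_mul.1 hz
        rw [mem_cl] at hb ha
        rw [fv_mul hp (fun h => hB0 (h ▸ hb.1)) (fun h => hA0 (h ▸ ha.1)), hb.2, ha.2])
    refine le_trans ?_ chain
    -- the entropy of the sum of the valuations
    have hent : (1 - κ) * (h B (fv p) + (if PopP θ p A then 0 else h A (fv p))) ≤
        h (B ×ˢ A) (fun s => fv p s.1 + fv p s.2) := by
      have hhB := h_nonneg B (fv p)
      split_ifs with hP
      · have h1 := cell_left B A hA (fv p) (fv p)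
        nlinarith
      · unfold PopP at hP
        push Not at hP
        obtain ⟨e, he⟩ := hP
        have h1 : (nz A (fun a => fv p a - e) : ℝ) ≤ θ * A.card := by
          have hle : nz A (fun a => fv p a - e) ≤ (A.filter fun a => fv p a ≠ e).card :=
            nz_le A _ _ fun a _ h1 h2 => h1 (sub_eq_zero.2 h2)
          exact le_trans (by exact_mod_cast hle) he
        have h2 := OS.cell_arb B A hB hA (fv p) (fun a => fv p a - e) hθ hθ1 h1
        have e1 : h A (fun a => fv p a - e) = h A (fv p) := h_congr fun x _ y _ =>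
          ⟨fun hh => sub_left_injective hh, fun hh => by rw [hh]⟩
        have e2 : h (B ×ˢ A) (fun x => fv p x.1 + (fv p x.2 - e)) =
            h (B ×ˢ A) (fun s => fv p s.1 + fv p s.2) := h_congr fun x _ y _ => by
          constructor <;> intro hh <;> linarith
        rw [e1, e2] at h2
        exact h2
    -- the induction hypothesis
    have hl : ∀ s ∈ B ×ˢ A, (1 - κ) * (Real.log (cl B (fv p) s.1).card +
        Real.log (cl A (fv p) s.2).card - Epop θ l (cl A (fv p) s.2)) - Real.log F ≤
        Real.log (cl B (fv p) s.1 * cl A (fv p) s.2).card := by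
      intro s hs
      obtain ⟨hb, ha⟩ := mem_product.1 hs
      refine ih hpl' _ _ (cl_nonempty _ hb) (cl_nonempty _ ha) (fun h => hB0 (cl_sub _ _ _ h))
        (fun h => hA0 (cl_sub _ _ _ h)) F ?_
      intro a ha'
      rw [mem_cl] at ha'
      refine (card_le_card ?_).trans (hF a ha'.1)
      intro x hx
      rw [mem_filter, mem_cl] at hx
      rw [mem_filter]
      refine ⟨hx.1.1, fun q hq => ?_⟩
      rcases List.mem_cons.1 hq with rfl | hq
      · rw [hx.1.2, ha'.2]
      · exact hx.2 q hq
    have hsum := div_le_div_of_nonneg_right (sum_le_sum hl) cBA.le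
    have a1 : (∑ s ∈ B ×ˢ A, Real.log (cl B (fv p) s.1).card) / (B ×ˢ A).card =
        Real.log B.card - h B (fv p) := by
      rw [← sum_log_cl B (fv p) hB, sum_product, card_product]
      simp only [sum_const, nsmul_eq_mul]
      rw [← mul_sum]
      push_cast
      field_simp
    have a2 : (∑ s ∈ B ×ˢ A, Real.log (cl A (fv p) s.2).card) / (B ×ˢ A).card =
        Real.log A.card - h A (fv p) := by
      rw [← sum_log_cl A (fv p) hA, sum_product, card_product]
      simp only [sum_const, nsmul_eq_mul]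
      push_cast
      field_simp
    have a3 : (∑ s ∈ B ×ˢ A, Epop θ l (cl A (fv p) s.2)) / (B ×ˢ A).card =
        (∑ a ∈ A, Epop θ l (cl A (fv p) a)) / A.card := by
      rw [sum_product, card_product]
      simp only [sum_const, nsmul_eq_mul]
      push_cast
      field_simp
    simp only [sum_sub_distrib, ← mul_sum, sum_add_distrib, sum_const, nsmul_eq_mul] at hsum
    have e1 : ((1 - κ) * (∑ s ∈ B ×ˢ A, Real.log (cl B (fv p) s.1).card +
        ∑ s ∈ B ×ˢ A, Real.log (cl A (fv p) s.2).card -
        ∑ s ∈ B ×ˢ A, Epop θ l (cl A (fv p) s.2)) -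
        (B ×ˢ A).card * Real.log F) / (B ×ˢ A).card =
        (1 - κ) * ((Real.log B.card - h B (fv p)) + (Real.log A.card - h A (fv p)) -
          (∑ a ∈ A, Epop θ l (cl A (fv p) a)) / A.card) - Real.log F := by
      rw [← a1, ← a2, ← a3]
      field_simp
    rw [e1] at hsum
    have e2 : Epop θ (p :: l) A = (if PopP θ p A then h A (fv p) else 0) +
      (∑ a ∈ A, Epop θ l (cl A (fv p) a)) / A.card := rfl
    rw [e2]
    have e3 : (if PopP θ p A then h A (fv p) else 0) +
        (if PopP θ p A then 0 else h A (fv p)) = h A (fv p) := by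
      split_ifs <;> ring
    have e4 : (1 - κ) * (Real.log B.card + Real.log A.card -
        ((if PopP θ p A then h A (fv p) else 0) +
          (∑ a ∈ A, Epop θ l (cl A (fv p) a)) / A.card)) =
        (1 - κ) * (h B (fv p) + (if PopP θ p A then 0 else h A (fv p))) +
        (1 - κ) * ((Real.log B.card - h B (fv p)) + (Real.log A.card - h A (fv p)) -
          (∑ a ∈ A, Epop θ l (cl A (fv p) a)) / A.card) := by
      rw [← mul_add]
      congr 1
      linarith
    rw [e4]
    linarith

end Pool.Agent.Helper63.SD
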