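import Pool.Agent.Helper63.SD.Vv

/-!
Dilates by integers with two different `p`-adic valuations: selections of residue classes.
-/

set_option autoImplicit false

namespace Pool.Agent.Helper63.SD

open Finset PE
open scoped Pointwise Classical

lemma h_inj {α M : Type*} (G : Finset α) (hG : G.Nonempty) (F : α → M)
    (hF : ∀ x ∈ G, ∀ y ∈ G, F x = F y → x = y) : h G F = Real.log G.card := by
  have hN : (0 : ℝ) < G.card := by exact_mod_cast card_pos.2 hG
  unfold h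
  have e1 : ∀ x ∈ G, Real.log G.card - Real.log (fc G F x) = Real.log G.card := by
    intro x hx
    have : fc G F x = 1 := by
      unfold fc
      rw [card_eq_one]
      refine ⟨x, ?_⟩
      ext y
      rw [mem_cl, mem_singleton]
      exact ⟨fun h => hF y h.1 x hx h.2, fun h => by rw [h]; exact ⟨hx, rfl⟩⟩
    rw [this]
    simp
  rw [sum_congr rfl e1, sum_const, nsmul_eq_mul, mul_div_cancel_left₀ _ hN.ne']

/-- the residues of `d t + v` are different -/
def Inj (Q d : ℤ) (T U : Finset ℤ) : Prop :=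
  ∀ t ∈ T, ∀ t' ∈ T, ∀ v ∈ U, ∀ v' ∈ U, Q ∣ d * t + v - (d * t' + v') → t = t' ∧ v = v'

theorem chain_inj (p : ℕ) (d : ℤ) (i j : ℕ) (hd : (p : ℤ) ^ i ∣ d * (p : ℤ) ^ j)
    (X B T U : Finset ℤ) (hT : T ⊆ X) (hU : U ⊆ B) (hTn : T.Nonempty) (hUn : U.Nonempty)
    (hI : Inj ((p : ℤ) ^ i) d T U) :
    (Real.log T.card + Real.log U.card) +
      (∑ s ∈ T ×ˢ U, Real.log ((dil d (cls ((p : ℤ) ^ j) X s.1) +
        cls ((p : ℤ) ^ i) B s.2).card : ℝ)) / (T ×ˢ U).card ≤
      Real.log ((dil d X + B).card : ℝ) := by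
  have h1 := chain_pair p d i j hd X B (T ×ˢ U) (product_subset_product hT hU)
    (hTn.product hUn)
  have h2 := h_inj (T ×ˢ U) (hTn.product hUn)
    (fun s => ((d * s.1 + s.2 : ℤ) : ZMod (p ^ i))) (by
      intro x hx y hy hxy
      obtain ⟨x1, x2⟩ := mem_product.1 hx
      obtain ⟨y1, y2⟩ := mem_product.1 hy
      have hxy' : ((d * x.1 + x.2 : ℤ) : ZMod (p ^ i)) = ((d * y.1 + y.2 : ℤ) : ZMod (p ^ i)) :=
        hxy
      rw [cast_eq_iff] at hxy'
      push_cast at hxy'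
      obtain ⟨h3, h4⟩ := hI x.1 x1 y.1 y1 x.2 x2 y.2 y2 hxy'
      exact Prod.ext h3 h4)
  rw [h2, card_product] at h1
  have cT : (0 : ℝ) < T.card := by exact_mod_cast hTn.card_pos
  have cU : (0 : ℝ) < U.card := by exact_mod_cast hUn.card_pos
  rw [card_product]
  push_cast at h1 ⊢
  rw [Real.log_mul cT.ne' cU.ne'] at h1
  exact h1

theorem chain_any (p : ℕ) (d : ℤ) (i j : ℕ) (hd : (p : ℤ) ^ i ∣ d * (p : ℤ) ^ j)
    (X B T U : Finset ℤ) (hT : T ⊆ X) (hU : U ⊆ B) (hTn : T.Nonempty) (hUn : U.Nonempty) :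
    0 + (∑ s ∈ T ×ˢ U, Real.log ((dil d (cls ((p : ℤ) ^ j) X s.1) +
        cls ((p : ℤ) ^ i) B s.2).card : ℝ)) / (T ×ˢ U).card ≤
      Real.log ((dil d X + B).card : ℝ) := by
  have h1 := chain_pair p d i j hd X B (T ×ˢ U) (product_subset_product hT hU)
    (hTn.product hUn)
  have h2 := h_nonneg (T ×ˢ U) (fun s => ((d * s.1 + s.2 : ℤ) : ZMod (p ^ i)))
  linarith

section
variable {p : ℕ} (hp : p.Prime) (W : Finset ℤ) (hW : W.Nonempty)
  (hWp : ∀ u ∈ W, ¬ (p : ℤ) ∣ u) (D : Finset ℤ) (w : ℤ → ℝ)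
  (hw : ∀ a ∈ D, 0 ≤ w a) (hw1 : ∑ a ∈ D, w a = 1) (e : ℕ)
  (hD : ∀ a ∈ D, (p : ℤ) ^ e ∣ a ∧ ¬ (p : ℤ) ^ (e + 1) ∣ a)

include hp hW hWp hw hw1 hD in
/-- the selection of classes of `B` only -/
theorem caseI (X B : Finset ℤ) (i j : ℕ) (hij : i ≤ e + j) (x₀ : ℤ) (hx₀ : x₀ ∈ X)
    (U : Finset ℤ) (hU : U ⊆ B) (hUn : U.Nonempty)
    (hUi : ∀ t ∈ U, ∀ t' ∈ U, ((p : ℤ) ^ i) ∣ t - t' → t = t') :
    Real.log U.card + (∑ t ∈ U, vv W D w (cls ((p : ℤ) ^ j) X x₀)
      (cls ((p : ℤ) ^ i) B t)) / U.card ≤ vv W D w X B := by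
  refine vv_transfer W hW D w hw hw1 X B U (fun _ => cls ((p : ℤ) ^ j) X x₀)
    (fun t => cls ((p : ℤ) ^ i) B t) (fun _ _ => Real.log U.card) _ ?_ ?_
  · intro a _
    rw [sum_const, nsmul_eq_mul, mul_comm]
  · intro a ha u hu
    obtain ⟨k1, k2⟩ := ord_mul hp (hD a ha).1 (hD a ha).2 (hWp u hu)
    have hd : (p : ℤ) ^ i ∣ u * a * (p : ℤ) ^ j := by
      rw [dvd_mul_iff hp k1 k2]
      exact pow_dvd_pow _ (by omega)
    have h1 := chain_inj p (u * a) i j hd X B {x₀} U (singleton_subset_iff.2 hx₀) hU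
      (singleton_nonempty _) hUn (by
        intro t ht t' ht' v hv v' hv' hdv
        rw [mem_singleton] at ht ht'
        rw [ht, ht'] at hdv ⊢
        refine ⟨rfl, hUi v hv v' hv' ?_⟩
        have e1 : u * a * x₀ + v - (u * a * x₀ + v') = v - v' := by ring
        rwa [e1] at hdv)
    rw [card_singleton, Nat.cast_one, Real.log_one, zero_add, sum_product, sum_singleton,
      card_product, card_singleton, one_mul] at h1
    exact h1

include hp hW hWp hw hw1 hD in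
/-- the selection of classes of `X` only -/
theorem caseIIa (X B : Finset ℤ) (i : ℕ) (T : Finset ℤ) (hT : T ⊆ X) (hTn : T.Nonempty)
    (hTi : ∀ t ∈ T, ∀ t' ∈ T, ((p : ℤ) ^ (i - e)) ∣ t - t' → t = t') (b₀ : ℤ) (hb₀ : b₀ ∈ B) :
    Real.log T.card + (∑ t ∈ T, vv W D w (cls ((p : ℤ) ^ (i - e)) X t)
      (cls ((p : ℤ) ^ i) B b₀)) / T.card ≤ vv W D w X B := by
  refine vv_transfer W hW D w hw hw1 X B T (fun t => cls ((p : ℤ) ^ (i - e)) X t)
    (fun _ => cls ((p : ℤ) ^ i) B b₀) (fun _ _ => Real.log T.card) _ ?_ ?_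
  · intro a _
    rw [sum_const, nsmul_eq_mul, mul_comm]
  · intro a ha u hu
    obtain ⟨k1, k2⟩ := ord_mul hp (hD a ha).1 (hD a ha).2 (hWp u hu)
    have hd : (p : ℤ) ^ i ∣ u * a * (p : ℤ) ^ (i - e) := by
      rw [dvd_mul_iff hp k1 k2]
    have h1 := chain_inj p (u * a) i (i - e) hd X B T {b₀} hT (singleton_subset_iff.2 hb₀)
      hTn (singleton_nonempty _) (by
        intro t ht t' ht' v hv v' hv' hdv
        rw [mem_singleton] at hv hv'
        rw [hv, hv'] at hdv ⊢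
        refine ⟨hTi t ht t' ht' ?_, rfl⟩
        have e1 : u * a * t + b₀ - (u * a * t' + b₀) = u * a * (t - t') := by ring
        rw [e1, dvd_mul_iff hp k1 k2] at hdv
        exact hdv)
    rw [card_singleton, Nat.cast_one, Real.log_one, add_zero, sum_product_right, sum_singleton,
      card_product, card_singleton, mul_one] at h1
    exact h1

include hp hW hWp hw hw1 hD in
/-- the selection of classes of `X` and of `B`, with generic multipliers -/
theorem caseIIb (hWd : ∀ u ∈ W, ∀ u' ∈ W, (p : ℤ) ∣ u - u' → u = u')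
    (X B : Finset ℤ) (i : ℕ) (T : Finset ℤ) (hT : T ⊆ X) (hTn : T.Nonempty)
    (hTi : ∀ t ∈ T, ∀ t' ∈ T, ((p : ℤ) ^ (i - e)) ∣ t - t' → t = t')
    (U : Finset ℤ) (hU : U ⊆ B) (hUn : U.Nonempty)
    (hUi : ∀ t ∈ U, ∀ t' ∈ U, ((p : ℤ) ^ i) ∣ t - t' → t = t')
    (β : ℝ) (hβ : ((T.card : ℝ) * U.card) ^ 2 ≤ β * W.card) :
    (1 - β) * (Real.log T.card + Real.log U.card) +
      (∑ s ∈ T ×ˢ U, vv W D w (cls ((p : ℤ) ^ (i - e)) X s.1) (cls ((p : ℤ) ^ i) B s.2)) /
        (T ×ˢ U).card ≤ vv W D w X B := by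
  have hpz : Prime (p : ℤ) := Nat.prime_iff_prime_int.1 hp
  refine vv_transfer W hW D w hw hw1 X B (T ×ˢ U)
    (fun s => cls ((p : ℤ) ^ (i - e)) X s.1)
    (fun s => cls ((p : ℤ) ^ i) B s.2)
    (fun a u => if Inj ((p : ℤ) ^ i) (u * a) T U then Real.log T.card + Real.log U.card else 0)
    _ ?_ ?_
  · intro a ha
    have hl0 : 0 ≤ Real.log T.card + Real.log U.card :=
      add_nonneg (Real.log_natCast_nonneg _) (Real.log_natCast_nonneg _)
    rw [← sum_filter, sum_const, nsmul_eq_mul]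
    have hbad : ((W.filter fun u => ¬ Inj ((p : ℤ) ^ i) (u * a) T U).card : ℝ) ≤
        ((T.card : ℝ) * U.card) ^ 2 := by
      have hex : ∀ u ∈ W.filter (fun u => ¬ Inj ((p : ℤ) ^ i) (u * a) T U),
          ∃ z : (ℤ × ℤ) × (ℤ × ℤ), z ∈ (T ×ˢ U) ×ˢ (T ×ˢ U) ∧
            (p : ℤ) ^ i ∣ u * a * z.1.1 + z.1.2 - (u * a * z.2.1 + z.2.2) ∧
            ¬ (z.1.1 = z.2.1 ∧ z.1.2 = z.2.2) := by
        intro u hu
        have h1 := (mem_filter.1 hu).2
        unfold Inj at h1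
        push Not at h1
        obtain ⟨t, ht, t', ht', v, hv, v', hv', h2, h3⟩ := h1
        exact ⟨((t, v), (t', v')), mem_product.2 ⟨mem_product.2 ⟨ht, hv⟩,
          mem_product.2 ⟨ht', hv'⟩⟩, h2, fun h => h3 h.1 h.2⟩
      choose! z hz1 hz2 hz3 using hex
      have hcard := card_le_card_of_injOn z (s := W.filter (fun u =>
          ¬ Inj ((p : ℤ) ^ i) (u * a) T U)) (t := (T ×ˢ U) ×ˢ (T ×ˢ U))
        (fun u hu => hz1 u hu) (by
        intro u hu u' hu' huu
        have g1 := hz2 u hu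
        have g2 := hz2 u' hu'
        have g3 := hz3 u hu
        obtain ⟨m1, m2⟩ := mem_product.1 (hz1 u hu)
        obtain ⟨m3, m4⟩ := mem_product.1 m1
        obtain ⟨m5, m6⟩ := mem_product.1 m2
        rw [← huu] at g2
        set x := z u with hx
        have hne : x.1.1 ≠ x.2.1 := by
          intro h4
          apply g3
          refine ⟨h4, hUi _ m4 _ m6 ?_⟩
          rw [h4] at g1
          have e1 : u * a * x.2.1 + x.1.2 - (u * a * x.2.1 + x.2.2) = x.1.2 - x.2.2 := by ring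
          rwa [e1] at g1
        have h5 : (p : ℤ) ^ i ∣ (u - u') * (a * (x.1.1 - x.2.1)) := by
          have e1 : (u - u') * (a * (x.1.1 - x.2.1)) =
              (u * a * x.1.1 + x.1.2 - (u * a * x.2.1 + x.2.2)) -
              (u' * a * x.1.1 + x.1.2 - (u' * a * x.2.1 + x.2.2)) := by ring
          rw [e1]
          exact dvd_sub g1 g2
        apply hWd u (mem_filter.1 hu).1 u' (mem_filter.1 hu').1
        by_contra h6
        have h7 := (hpz.coprime_iff_not_dvd.2 h6).pow_left.dvd_of_dvd_mul_left h5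
        rw [dvd_mul_iff hp (hD a ha).1 (hD a ha).2] at h7
        exact hne (hTi _ m3 _ m5 h7))
      rw [card_product, card_product] at hcard
      have : ((W.filter fun u => ¬ Inj ((p : ℤ) ^ i) (u * a) T U).card : ℝ) ≤
          ((T.card * U.card) * (T.card * U.card) : ℕ) := by exact_mod_cast hcard
      refine this.trans (le_of_eq ?_)
      push_cast
      ring
    have hsum := card_filter_add_card_filter_not (s := W)
      (fun u => Inj ((p : ℤ) ^ i) (u * a) T U)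
    have hsum' : ((W.filter fun u => Inj ((p : ℤ) ^ i) (u * a) T U).card : ℝ) +
        (W.filter fun u => ¬ Inj ((p : ℤ) ^ i) (u * a) T U).card = W.card := by
      exact_mod_cast hsum
    have h8 : (1 - β) * W.card ≤ (W.filter fun u => Inj ((p : ℤ) ^ i) (u * a) T U).card := by
      linarith
    have h9 := mul_le_mul_of_nonneg_right h8 hl0
    linarith
  · intro a ha u hu
    obtain ⟨k1, k2⟩ := ord_mul hp (hD a ha).1 (hD a ha).2 (hWp u hu)
    have hd : (p : ℤ) ^ i ∣ u * a * (p : ℤ) ^ (i - e) := by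
      rw [dvd_mul_iff hp k1 k2]
    split_ifs with hI
    · exact chain_inj p (u * a) i (i - e) hd X B T U hT hU hTn hUn hI
    · exact chain_any p (u * a) i (i - e) hd X B T U hT hU hTn hUn

end

end Pool.Agent.Helper63.SD
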