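import Pool.Agent.Helper63.SD.Two

/-!
Dilates by integers with two different `p`-adic valuations: the main step.
-/

set_option autoImplicit false

namespace Pool.Agent.Helper63.SD

open Finset
open scoped Pointwise

/-- the constants -/
structure Cst (δ R : ℝ) where
  K₀ : ℕ
  MB : ℕ
  MX : ℕ
  K₀2 : 2 ≤ K₀
  hK₀ : ∀ n m : ℕ, K₀ ≤ 2 ^ (n + m + 2) →
    2 * Real.log 2 + psi n + psi m ≤ δ / 2 * ((n + m) * Real.log 2) ∧ R ≤ (n + m) * Real.log 2
  hMB : ∀ i : ℕ, MB ≤ i → psi i + Real.log K₀ + Real.log 2 ≤ δ * (i * Real.log 2) ∧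
    R ≤ i * Real.log 2
  hMX : ∀ i : ℕ, MX ≤ i → psi i + Real.log 2 + (MB + 1) * Real.log 2 ≤ δ * (i * Real.log 2) ∧
    R ≤ i * Real.log 2

theorem exists_large (a b R : ℝ) (ha : 0 < a) : ∃ M : ℕ, ∀ i : ℕ, M ≤ i →
    b ≤ a * i ∧ R ≤ i * Real.log 2 := by
  have hl : 0 < Real.log 2 := Real.log_pos (by norm_num)
  obtain ⟨M₁, hM₁⟩ := exists_nat_ge (b / a)
  obtain ⟨M₂, hM₂⟩ := exists_nat_ge (R / Real.log 2)
  refine ⟨max M₁ M₂, fun i hi => ⟨?_, ?_⟩⟩
  · have h1 : (M₁ : ℝ) ≤ i := by exact_mod_cast (le_max_left _ _).trans hi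
    have h2 := hM₁.trans h1
    rw [div_le_iff₀ ha] at h2
    linarith
  · have h1 : (M₂ : ℝ) ≤ i := by exact_mod_cast (le_max_right _ _).trans hi
    have h2 := hM₂.trans h1
    rw [div_le_iff₀ hl] at h2
    linarith

theorem exists_cst (δ R : ℝ) (hδ : 0 < δ) : Nonempty (Cst δ R) := by
  have hl : 0 < Real.log 2 := Real.log_pos (by norm_num)
  obtain ⟨D, hD0, hD⟩ := psi_le (δ / 4 * Real.log 2) (by positivity)
  obtain ⟨n₀, hn₀⟩ := exists_large (δ / 4 * Real.log 2) (2 * Real.log 2 + 2 * D) R (by positivity)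
  set K₀ : ℕ := 2 ^ (n₀ + 2) with hK₀
  obtain ⟨D', hD'0, hD'⟩ := psi_le (δ / 2 * Real.log 2) (by positivity)
  obtain ⟨MB, hMB⟩ := exists_large (δ / 2 * Real.log 2) (D' + Real.log K₀ + Real.log 2) R
    (by positivity)
  obtain ⟨MX, hMX⟩ := exists_large (δ / 2 * Real.log 2)
    (D' + Real.log 2 + (MB + 1) * Real.log 2) R (by positivity)
  refine ⟨⟨K₀, MB, MX, ?_, ?_, ?_, ?_⟩⟩
  · calc 2 = 2 ^ 1 := by norm_num
      _ ≤ 2 ^ (n₀ + 2) := Nat.pow_le_pow_right (by norm_num) (by omega)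
  · intro n m h
    have h1 : n₀ ≤ n + m := by
      have := (Nat.pow_le_pow_iff_right (by norm_num : 1 < 2)).1 h
      omega
    obtain ⟨h2, h3⟩ := hn₀ (n + m) h1
    push_cast at h2 h3
    refine ⟨?_, h3⟩
    have h4 := hD n
    have h5 := hD m
    nlinarith
  · intro i hi
    obtain ⟨h2, h3⟩ := hMB i hi
    refine ⟨?_, h3⟩
    have h4 := hD' i
    nlinarith
  · intro i hi
    obtain ⟨h2, h3⟩ := hMX i hi
    refine ⟨?_, h3⟩
    have h4 := hD' i
    nlinarith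

/-- the lower bound -/
noncomputable def bdd (δ C0 Φ κ S : ℝ) : ℝ := (1 - δ) * S - C0 - Φ * Real.exp (κ * S)

/-- combination of the two halves -/
theorem bdd_comb {δ C0 Φ κ : ℝ} (hκ : 0 < κ) (hΦ : 0 ≤ Φ) {S S' g a b : ℝ}
    (hS' : S' ≤ S - 2 / κ) (hg : (1 - δ) * S ≤ g + (1 - δ) * S')
    (ha : bdd δ C0 Φ κ S ≤ a) (hb : g + bdd δ C0 Φ κ S' ≤ b) :
    (1 - δ) * S - C0 - Φ * Real.exp (-(1 / 2)) * Real.exp (κ * S) ≤ (a + b) / 2 := by
  unfold bdd at *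
  have h1 : Real.exp (κ * S') ≤ Real.exp (-2) * Real.exp (κ * S) := by
    rw [← Real.exp_add]
    apply Real.exp_le_exp.2
    have h2 : κ * S' ≤ κ * (S - 2 / κ) := mul_le_mul_of_nonneg_left hS' hκ.le
    have h3 : κ * (S - 2 / κ) = κ * S - 2 := by field_simp
    linarith
  have h3 := exp_num
  set E := Real.exp (κ * S) with hE
  have hE0 : 0 < E := Real.exp_pos _
  have h4 : Φ * Real.exp (κ * S') ≤ Φ * (Real.exp (-2) * E) :=
    mul_le_mul_of_nonneg_left h1 hΦ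
  have h5 : Φ * E * ((1 + Real.exp (-2)) / 2) ≤ Φ * E * Real.exp (-(1 / 2)) :=
    mul_le_mul_of_nonneg_left h3 (by positivity)
  nlinarith

theorem bdd_mono {δ C0 Φ κ : ℝ} (hκ : 0 < κ) (hΦ : 0 ≤ Φ) {S S' T : ℝ}
    (h1 : (1 - δ) * S' ≤ (1 - δ) * S) (h2 : S ≤ T) :
    (1 - δ) * S' - C0 - Φ * Real.exp (κ * T) ≤ bdd δ C0 Φ κ S := by
  unfold bdd
  have h3 : Real.exp (κ * S) ≤ Real.exp (κ * T) :=
    Real.exp_le_exp.2 (mul_le_mul_of_nonneg_left h2 hκ.le)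
  have h4 := mul_le_mul_of_nonneg_left h3 hΦ
  linarith

/-- **Two valuations.** -/
theorem step_two {δ κ : ℝ} (hδ : 0 < δ) (hδ1 : δ < 1) (hκ : 0 < κ) (c : Cst δ (2 / κ))
    {p : ℕ} (hp : p.Prime) (W : Finset ℤ) (hW : W.Nonempty)
    (hWp : ∀ u ∈ W, ¬ (p : ℤ) ∣ u) (hWd : ∀ u ∈ W, ∀ u' ∈ W, (p : ℤ) ∣ u - u' → u = u')
    (hWc : ((2 : ℝ) ^ c.MX * 2 ^ c.MB) ^ 2 ≤ δ / 2 * W.card) (e e' : ℕ) (hee : e < e')
    (D : Finset ℤ) (w : ℤ → ℝ) (hw : ∀ a ∈ D, 0 ≤ w a) (hw1 : ∑ a ∈ D, w a = 1)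
    (hD : ∀ a ∈ D, (p : ℤ) ^ e ∣ a ∧ ¬ (p : ℤ) ^ (e + 1) ∣ a)
    (D' : Finset ℤ) (w' : ℤ → ℝ) (hw' : ∀ a ∈ D', 0 ≤ w' a) (hw1' : ∑ a ∈ D', w' a = 1)
    (hD' : ∀ a ∈ D', (p : ℤ) ^ e' ∣ a ∧ ¬ (p : ℤ) ^ (e' + 1) ∣ a)
    {C0 Φ : ℝ} (hC0 : Real.log c.K₀ ≤ C0) (hΦ : 0 ≤ Φ)
    (hV : ∀ X B : Finset ℤ, X.Nonempty → B.Nonempty →
      bdd δ C0 Φ κ (Sz X B) ≤ vv W D w X B)
    (hV' : ∀ X B : Finset ℤ, X.Nonempty → B.Nonempty →
      bdd δ C0 Φ κ (Sz X B) ≤ vv W D' w' X B)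
    (X B : Finset ℤ) (hX : X.Nonempty) (hB : B.Nonempty) :
    (1 - δ) * Sz X B - C0 - Φ * Real.exp (-(1 / 2)) * Real.exp (κ * Sz X B) ≤
      (vv W D w X B + vv W D' w' X B) / 2 := by
  have hl : 0 < Real.log 2 := Real.log_pos (by norm_num)
  by_cases hS : Sz X B ≤ Real.log c.K₀
  · have h1 := vv_nonneg W D w hw X B
    have h2 := vv_nonneg W D' w' hw' X B
    have h3 : 0 ≤ Φ * Real.exp (-(1 / 2)) * Real.exp (κ * Sz X B) := by positivity
    have h4 := Sz_nonneg X B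
    nlinarith
  push Not at hS
  have hK0 : (0 : ℝ) < c.K₀ := by
    have := c.K₀2
    exact_mod_cast (by omega : 0 < c.K₀)
  have cX : (0 : ℝ) < X.card := by exact_mod_cast hX.card_pos
  have cB : (0 : ℝ) < B.card := by exact_mod_cast hB.card_pos
  have hbig : c.K₀ ≤ X.card * B.card := by
    have h1 : Real.log c.K₀ < Real.log (X.card * B.card) := by
      rw [Real.log_mul cX.ne' cB.ne']; exact hS
    have h2 := (Real.log_lt_log_iff hK0 (by positivity)).1 h1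
    exact_mod_cast h2.le
  -- the level
  have hex : ∃ J : ℕ, mx ((p : ℤ) ^ (J - e)) X * mx ((p : ℤ) ^ J) B * c.K₀ ≤
      X.card * B.card := by
    obtain ⟨J₁, h1⟩ := mx_large hp.two_le X
    obtain ⟨J₂, h2⟩ := mx_large hp.two_le B
    refine ⟨J₁ + e + J₂, ?_⟩
    calc mx ((p : ℤ) ^ (J₁ + e + J₂ - e)) X * mx ((p : ℤ) ^ (J₁ + e + J₂)) B * c.K₀ ≤
          1 * 1 * c.K₀ :=
          Nat.mul_le_mul_right _ (Nat.mul_le_mul (h1 _ (by omega)) (h2 _ (by omega)))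
      _ ≤ _ := by rw [one_mul, one_mul]; exact hbig
  obtain ⟨I, hI, hI'⟩ : ∃ I : ℕ,
      mx ((p : ℤ) ^ (I + 1 - e)) X * mx ((p : ℤ) ^ (I + 1)) B * c.K₀ ≤ X.card * B.card ∧
      X.card * B.card < mx ((p : ℤ) ^ (I - e)) X * mx ((p : ℤ) ^ I) B * c.K₀ := by
    classical
    have h1 := Nat.find_spec hex
    have h2 : Nat.find hex ≠ 0 := by
      intro h0
      rw [h0, Nat.zero_sub, pow_zero, mx_one' hX, mx_one' hB] at h1
      have h3 : 0 < X.card * B.card := Nat.mul_pos hX.card_pos hB.card_pos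
      have := c.K₀2
      nlinarith
    obtain ⟨I, hIe⟩ := Nat.exists_eq_succ_of_ne_zero h2
    refine ⟨I, ?_, ?_⟩
    · rw [hIe] at h1; exact h1
    · have := Nat.find_min hex (m := I) (by rw [hIe]; exact Nat.lt_succ_self I)
      exact not_le.1 this
  -- the heavy class of `X`
  obtain ⟨x₀, hx₀, hx₀m⟩ := exists_mx ((p : ℤ) ^ (I - e)) hX
  have hheavy : X.card ≤ (cls ((p : ℤ) ^ (I - e)) X x₀).card * c.K₀ := by
    rw [hx₀m]
    by_contra hcon
    push Not at hcon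
    have h1 := mx_le ((p : ℤ) ^ I) B
    have h2 : mx ((p : ℤ) ^ (I - e)) X * mx ((p : ℤ) ^ I) B * c.K₀ ≤
        mx ((p : ℤ) ^ (I - e)) X * B.card * c.K₀ :=
      Nat.mul_le_mul_right _ (Nat.mul_le_mul_left _ h1)
    have h3 : mx ((p : ℤ) ^ (I - e)) X * B.card * c.K₀ =
        mx ((p : ℤ) ^ (I - e)) X * c.K₀ * B.card := by ring
    have h4 : mx ((p : ℤ) ^ (I - e)) X * c.K₀ * B.card ≤ X.card * B.card :=
      Nat.mul_le_mul_right _ hcon.le
    omega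
  -- the selections
  obtain ⟨iX, T, hT, hTn, hTi, hT1, hT2⟩ := sel ((p : ℤ) ^ (I + 1 - e)) X hX
  obtain ⟨iB, U, hU, hUn, hUi, hU1, hU2⟩ := sel ((p : ℤ) ^ (I + 1)) B hB
  obtain ⟨hTl, hTk, hTc⟩ := sel_log hX hT hTn hTi hT1 hT2
  obtain ⟨hUl, hUk, hUc⟩ := sel_log hB hU hUn hUi hU1 hU2
  have hsum : c.K₀ ≤ 2 ^ (iX + iB + 2) := by
    obtain ⟨t, ht⟩ := hTn
    obtain ⟨v, hv⟩ := hUn
    have h1 := (hT1 t ht).1.trans (Nat.mul_le_mul_left _ (le_mx _ (hT ht)))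
    have h2 := (hU1 v hv).1.trans (Nat.mul_le_mul_left _ (le_mx _ (hU hv)))
    have h3 : X.card * B.card ≤ 2 ^ (iX + iB + 2) *
        (mx ((p : ℤ) ^ (I + 1 - e)) X * mx ((p : ℤ) ^ (I + 1)) B) := by
      calc X.card * B.card ≤ (2 ^ (iX + 1) * mx ((p : ℤ) ^ (I + 1 - e)) X) *
            (2 ^ (iB + 1) * mx ((p : ℤ) ^ (I + 1)) B) := Nat.mul_le_mul h1 h2
        _ = _ := by ring
    have h4 : 0 < mx ((p : ℤ) ^ (I + 1 - e)) X * mx ((p : ℤ) ^ (I + 1)) B := by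
      rcases Nat.eq_zero_or_pos (mx ((p : ℤ) ^ (I + 1 - e)) X * mx ((p : ℤ) ^ (I + 1)) B)
        with h | h
      · rw [h, mul_zero] at h3
        have : 0 < X.card * B.card := Nat.mul_pos hX.card_pos hB.card_pos
        omega
      · exact h
    have h5 : mx ((p : ℤ) ^ (I + 1 - e)) X * mx ((p : ℤ) ^ (I + 1)) B * c.K₀ ≤
        mx ((p : ℤ) ^ (I + 1 - e)) X * mx ((p : ℤ) ^ (I + 1)) B * 2 ^ (iX + iB + 2) := by
      rw [mul_comm (mx _ X * mx _ B) (2 ^ _)]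
      exact hI.trans h3
    exact Nat.le_of_mul_le_mul_left h5 h4
  obtain ⟨hnum, hRsum⟩ := c.hK₀ iX iB hsum
  have hδ' : 0 ≤ 1 - δ := by linarith
  have hTc' : (T.card : ℝ) ≤ 2 ^ (iX + 1) := by exact_mod_cast hTc
  have hUc' : (U.card : ℝ) ≤ 2 ^ (iB + 1) := by exact_mod_cast hUc
  have h0 := hV X B hX hB
  have h0' := hV' X B hX hB
  by_cases hiB : c.MB ≤ iB
  · -- the second summand has large residue entropy
    obtain ⟨hB1, hB2⟩ := c.hMB iB hiB
    have hcI := caseI hp W hW hWp D' w' hw' hw1' e' hD' X B (I + 1) (I - e) (by omega) x₀ hx₀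
      U hU hUn hUi
    refine bdd_comb hκ hΦ (S' := Sz X B - iB * Real.log 2) (g := Real.log U.card -
      (1 - δ) * (Real.log c.K₀ + Real.log 2)) (by linarith) ?_ h0 (le_trans ?_ hcI)
    · have hk : 0 ≤ δ * (Real.log c.K₀ + Real.log 2) :=
        mul_nonneg hδ.le (add_nonneg (Real.log_natCast_nonneg _) hl.le)
      linarith
    · have h1 : ∀ t ∈ U, (1 - δ) * (Sz X B - Real.log c.K₀ - (iB + 1) * Real.log 2) -
          C0 - Φ * Real.exp (κ * (Sz X B - iB * Real.log 2)) ≤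
          vv W D' w' (cls ((p : ℤ) ^ (I - e)) X x₀) (cls ((p : ℤ) ^ (I + 1)) B t) := by
        intro t ht
        obtain ⟨h2, h3⟩ := hUl t ht
        have hn1 : (cls ((p : ℤ) ^ (I - e)) X x₀).Nonempty := cls_nonempty _ hx₀
        have h4 := hV' (cls ((p : ℤ) ^ (I - e)) X x₀) (cls ((p : ℤ) ^ (I + 1)) B t)
          hn1 (cls_nonempty _ (hU ht))
        refine le_trans ?_ h4
        have cc : (0 : ℝ) < (cls ((p : ℤ) ^ (I - e)) X x₀).card := by
          exact_mod_cast hn1.card_pos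
        have h6 : Real.log (cls ((p : ℤ) ^ (I - e)) X x₀).card ≤ Real.log X.card :=
          Real.log_le_log cc (by exact_mod_cast Finset.card_le_card (cls_sub _ _ _))
        have h7 : Real.log X.card ≤ Real.log (cls ((p : ℤ) ^ (I - e)) X x₀).card +
            Real.log c.K₀ := by
          rw [← Real.log_mul cc.ne' hK0.ne']
          exact Real.log_le_log cX (by exact_mod_cast hheavy)
        apply bdd_mono hκ hΦ
        · apply mul_le_mul_of_nonneg_left _ hδ'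
          unfold Sz
          linarith
        · unfold Sz
          linarith
      have h2 := avg_ge hUn h1
      unfold bdd
      nlinarith
  push Not at hiB
  by_cases hiX : c.MX ≤ iX
  · -- the first summand has large residue entropy
    obtain ⟨hX1, hX2⟩ := c.hMX iX hiX
    obtain ⟨b₀, hb₀⟩ := hUn
    have hcI := caseIIa hp W hW hWp D w hw hw1 e hD X B (I + 1) T hT hTn hTi b₀ (hU hb₀)
    rw [add_comm (vv W D w X B)]
    have hiB' : (iB : ℝ) + 1 ≤ c.MB := by exact_mod_cast hiB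
    refine bdd_comb hκ hΦ (S' := Sz X B - iX * Real.log 2) (g := Real.log T.card -
      (1 - δ) * ((c.MB + 1) * Real.log 2)) (by linarith) ?_ h0' (le_trans ?_ hcI)
    · have hk : 0 ≤ δ * (((c.MB : ℝ) + 1) * Real.log 2) := by positivity
      linarith
    · obtain ⟨h8, h9⟩ := hUl b₀ hb₀
      have h1 : ∀ t ∈ T, (1 - δ) * (Sz X B - (iX + 1) * Real.log 2 - (iB + 1) * Real.log 2) -
          C0 - Φ * Real.exp (κ * (Sz X B - iX * Real.log 2)) ≤
          vv W D w (cls ((p : ℤ) ^ (I + 1 - e)) X t) (cls ((p : ℤ) ^ (I + 1)) B b₀) := by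
        intro t ht
        obtain ⟨h2, h3⟩ := hTl t ht
        have h4 := hV (cls ((p : ℤ) ^ (I + 1 - e)) X t) (cls ((p : ℤ) ^ (I + 1)) B b₀)
          (cls_nonempty _ (hT ht)) (cls_nonempty _ (hU hb₀))
        refine le_trans ?_ h4
        have h10 : 0 ≤ iB * Real.log 2 := by positivity
        apply bdd_mono hκ hΦ
        · apply mul_le_mul_of_nonneg_left _ hδ'
          unfold Sz
          linarith
        · unfold Sz
          linarith
      have h2 := avg_ge hTn h1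
      have h10 : (1 - δ) * ((iB + 1) * Real.log 2) ≤ (1 - δ) * (c.MB * Real.log 2) :=
        mul_le_mul_of_nonneg_left (mul_le_mul_of_nonneg_right hiB' hl.le) hδ'
      unfold bdd
      nlinarith
  push Not at hiX
  · -- both small: generic multipliers
    have hβ : ((T.card : ℝ) * U.card) ^ 2 ≤ δ / 2 * W.card := by
      have h1 : (2 : ℝ) ^ (iX + 1) ≤ 2 ^ c.MX :=
        pow_le_pow_right₀ (by norm_num) (by omega)
      have h2 : (2 : ℝ) ^ (iB + 1) ≤ 2 ^ c.MB :=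
        pow_le_pow_right₀ (by norm_num) (by omega)
      have h3 : (T.card : ℝ) * U.card ≤ 2 ^ c.MX * 2 ^ c.MB :=
        mul_le_mul (hTc'.trans h1) (hUc'.trans h2) (by positivity) (by positivity)
      have h4 : ((T.card : ℝ) * U.card) ^ 2 ≤ (2 ^ c.MX * 2 ^ c.MB) ^ 2 :=
        pow_le_pow_left₀ (by positivity) h3 2
      linarith
    have hcI := caseIIb hp W hW hWp D w hw hw1 e hD hWd X B (I + 1) T hT hTn hTi
      U hU hUn hUi (δ / 2) hβ
    rw [add_comm (vv W D w X B)]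
    refine bdd_comb hκ hΦ (S' := Sz X B - (iX + iB) * Real.log 2)
      (g := (1 - δ / 2) * (Real.log T.card + Real.log U.card) - (1 - δ) * (2 * Real.log 2))
      (by linarith) ?_ h0' (le_trans ?_ hcI)
    · have hx1 : (1 - δ / 2) * (iX * Real.log 2 - psi iX + (iB * Real.log 2 - psi iB)) ≤
          (1 - δ / 2) * (Real.log T.card + Real.log U.card) :=
        mul_le_mul_of_nonneg_left (by linarith) (by linarith)
      have hps1 : 0 ≤ psi iX := Real.log_nonneg (by nlinarith [(Nat.cast_nonneg iX : (0:ℝ) ≤ iX)])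
      have hps2 : 0 ≤ psi iB := Real.log_nonneg (by nlinarith [(Nat.cast_nonneg iB : (0:ℝ) ≤ iB)])
      nlinarith
    · have h1 : ∀ s ∈ T ×ˢ U, (1 - δ) * (Sz X B - (iX + iB + 2) * Real.log 2) -
          C0 - Φ * Real.exp (κ * (Sz X B - (iX + iB) * Real.log 2)) ≤
          vv W D w (cls ((p : ℤ) ^ (I + 1 - e)) X s.1) (cls ((p : ℤ) ^ (I + 1)) B s.2) := by
        intro s hs
        obtain ⟨ht, hv⟩ := Finset.mem_product.1 hs
        obtain ⟨h2, h3⟩ := hTl s.1 ht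
        obtain ⟨h8, h9⟩ := hUl s.2 hv
        have h4 := hV (cls ((p : ℤ) ^ (I + 1 - e)) X s.1) (cls ((p : ℤ) ^ (I + 1)) B s.2)
          (cls_nonempty _ (hT ht)) (cls_nonempty _ (hU hv))
        refine le_trans ?_ h4
        apply bdd_mono hκ hΦ
        · apply mul_le_mul_of_nonneg_left _ hδ'
          unfold Sz
          linarith
        · unfold Sz
          linarith
      have h2 := avg_ge (hTn.product hUn) h1
      unfold bdd
      nlinarith

end Pool.Agent.Helper63.SD
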