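import Pool.Agent.Helper63.SD.Core

/-!
The dichotomy with multipliers as large as a small power of the number of elements.
-/

set_option autoImplicit false

namespace Pool.Agent.Helper63.SD

open Finset PE
open scoped Pointwise Classical

/-- the product of `k` distinct positive integers is at least `k!` -/
lemma fact_le_prod (P : Finset ℕ) (h : ∀ p ∈ P, 0 < p) : P.card.factorial ≤ ∏ p ∈ P, p := by
  induction P using Finset.induction_on_max with
  | empty => simp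
  | insert a s hs ih =>
    have ha : a ∉ s := fun h => lt_irrefl _ (hs a h)
    rw [card_insert_of_notMem ha, prod_insert ha, Nat.factorial_succ]
    have h1 : s.card + 1 ≤ a := by
      have h2 : s ⊆ Finset.Ico 1 a := fun x hx =>
        mem_Ico.2 ⟨h x (mem_insert_of_mem hx), hs x hx⟩
      have h3 := card_le_card h2
      rw [Nat.card_Ico] at h3
      have ha0 := h a (mem_insert_self _ _)
      omega
    exact Nat.mul_le_mul h1 (ih fun p hp => h p (mem_insert_of_mem hp))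

lemma log_fact_primes {m : ℤ} (hm : m ≠ 0) :
    Real.log (m.natAbs.primeFactors.card.factorial : ℝ) ≤ Real.log |(m : ℝ)| := by
  have h1 : m.natAbs.primeFactors.card.factorial ≤ m.natAbs :=
    (fact_le_prod _ fun p hp => (Nat.prime_of_mem_primeFactors hp).pos).trans
      (Nat.le_of_dvd (Int.natAbs_pos.2 hm) (Nat.prod_primeFactors_dvd _))
  apply Real.log_le_log (by exact_mod_cast Nat.factorial_pos _)
  have h2 : (|(m : ℝ)|) = (m.natAbs : ℝ) := by
    rw [Nat.cast_natAbs, Int.cast_abs]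
  rw [h2]
  exact_mod_cast h1

/-- the number of exceptional primes -/
lemma exc_card (W : Finset ℤ) (h0 : (0 : ℤ) ∉ W) {R : ℝ} (hR : 1 ≤ R)
    (hW : ∀ u ∈ W, |(u : ℝ)| ≤ R) :
    ∃ P : Finset ℕ, (∀ p : ℕ, p.Prime → ¬ Ok W p → p ∈ P) ∧
      Real.log (P.card.factorial : ℝ) ≤ (W.card : ℝ) ^ 2 * Real.log (2 * R) := by
  set m : ℤ := (∏ u ∈ W, u) * ∏ s ∈ W.offDiag, (s.1 - s.2) with hm
  have h1 : ∀ u ∈ W, u ≠ 0 := fun u hu h => h0 (h ▸ hu)
  have h2 : ∀ s ∈ W.offDiag, s.1 - s.2 ≠ 0 := fun s hs => sub_ne_zero.2 (mem_offDiag.1 hs).2.2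
  have hm0 : m ≠ 0 := mul_ne_zero (prod_ne_zero_iff.2 h1) (prod_ne_zero_iff.2 h2)
  refine ⟨m.natAbs.primeFactors, fun p hp hok => ?_, ?_⟩
  · refine Nat.mem_primeFactors.2 ⟨hp, Int.natCast_dvd.1 ?_, Int.natAbs_ne_zero.2 hm0⟩
    unfold Ok at hok
    rw [not_and_or] at hok
    rcases hok with h | h
    · push Not at h
      obtain ⟨u, hu, hd⟩ := h
      exact (hd.trans (dvd_prod_of_mem _ hu)).mul_right _
    · push Not at h
      obtain ⟨u, hu, u', hu', hd, hne⟩ := h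
      refine Dvd.dvd.mul_left (hd.trans ?_) _
      exact dvd_prod_of_mem (fun s : ℤ × ℤ => s.1 - s.2)
        (mem_offDiag.2 ⟨hu, hu', hne⟩ : (u, u') ∈ W.offDiag)
  · refine (log_fact_primes hm0).trans ?_
    have hR2 : 0 ≤ Real.log (2 * R) := Real.log_nonneg (by linarith)
    have e1 : |(m : ℝ)| = (∏ u ∈ W, |(u : ℝ)|) * ∏ s ∈ W.offDiag, |((s.1 - s.2 : ℤ) : ℝ)| := by
      rw [hm]
      push_cast
      rw [abs_mul, abs_prod, abs_prod]
    have h3 : ∀ u ∈ W, |(u : ℝ)| ≠ 0 := fun u hu => abs_ne_zero.2 (by exact_mod_cast h1 u hu)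
    have h4 : ∀ s ∈ W.offDiag, |((s.1 - s.2 : ℤ) : ℝ)| ≠ 0 := fun s hs =>
      abs_ne_zero.2 (by exact_mod_cast h2 s hs)
    rw [e1, Real.log_mul (prod_ne_zero_iff.2 h3) (prod_ne_zero_iff.2 h4), Real.log_prod h3,
      Real.log_prod h4]
    have h5 : ∑ u ∈ W, Real.log |(u : ℝ)| ≤ W.card * Real.log (2 * R) := by
      rw [← nsmul_eq_mul]
      refine sum_le_card_nsmul _ _ _ fun u hu => ?_
      refine Real.log_le_log (lt_of_le_of_ne (abs_nonneg _) (h3 u hu).symm) ?_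
      linarith [hW u hu]
    have h6 : ∑ s ∈ W.offDiag, Real.log |((s.1 - s.2 : ℤ) : ℝ)| ≤
        W.offDiag.card * Real.log (2 * R) := by
      rw [← nsmul_eq_mul]
      refine sum_le_card_nsmul _ _ _ fun s hs => ?_
      refine Real.log_le_log (lt_of_le_of_ne (abs_nonneg _) (h4 s hs).symm) ?_
      push_cast
      have h7 := hW s.1 (mem_offDiag.1 hs).1
      have h8 := hW s.2 (mem_offDiag.1 hs).2.1
      have h9 := abs_sub (s.1 : ℝ) s.2
      linarith
    have h7 : (W.card : ℝ) + W.offDiag.card ≤ (W.card : ℝ) ^ 2 := by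
      have h8 : W.card + W.offDiag.card = W.card ^ 2 := by
        rw [offDiag_card, sq]
        have : W.card ≤ W.card * W.card := Nat.le_mul_self _
        omega
      exact_mod_cast h8.le
    calc _ ≤ W.card * Real.log (2 * R) + W.offDiag.card * Real.log (2 * R) := add_le_add h5 h6
      _ = ((W.card : ℝ) + W.offDiag.card) * Real.log (2 * R) := by ring
      _ ≤ _ := mul_le_mul_of_nonneg_right h7 hR2

lemma mul_log_le (k : ℕ) {t : ℝ} (ht : 0 < t) :
    k * Real.log t ≤ Real.log (k.factorial : ℝ) + t := by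
  have h1 := Real.pow_div_factorial_le_exp t ht.le k
  have hk : (0 : ℝ) < k.factorial := by exact_mod_cast Nat.factorial_pos k
  have h2 := Real.log_le_log (by positivity) h1
  rw [Real.log_exp, Real.log_div (by positivity) hk.ne', Real.log_pow] at h2
  linarith

lemma exc_bound {ε q d : ℝ} (hε : 0 < ε) (hq : 0 < q) (hd : 0 < d) {n : ℕ} (hn : 0 < n) :
    ∃ η : ℝ, 0 < η ∧ ∀ Q : ℝ, 1 ≤ Q → ∃ C4 : ℝ, ∀ (y : ℝ) (k : ℕ), 0 ≤ y →
      Real.log (k.factorial : ℝ) ≤ (n : ℝ) ^ 2 * Real.log (2 * (Q * Real.exp (η * y))) →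
      k * Real.log ((q * y + 1) ^ 2 / d) ≤ ε / 4 * y + C4 := by
  set c1 : ℝ := 2 * Real.log (1 + q) - Real.log d with hc1
  set g : ℝ := Real.exp (c1 / 4) with hg
  have hg0 : 0 < g := Real.exp_pos _
  have hn0 : (0 : ℝ) < n := by exact_mod_cast hn
  refine ⟨ε / (32 * n ^ 2), by positivity, fun Q hQ =>
    ⟨4 * n ^ 2 * Real.log (2 * Q) + ε / 8 + 32 * g ^ 2 / ε, fun y k hy hk => ?_⟩⟩
  have hy1 : 0 < y + 1 := by linarith
  have hs : 0 < Real.sqrt (y + 1) := Real.sqrt_pos.2 hy1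
  have hs2 : Real.sqrt (y + 1) ^ 2 = y + 1 := Real.sq_sqrt hy1.le
  have h1 := mul_log_le k (mul_pos hg0 hs)
  rw [Real.log_mul hg0.ne' hs.ne', hg, Real.log_exp, Real.log_sqrt hy1.le] at h1
  rw [← hg] at h1
  have h2 : Real.log (2 * (Q * Real.exp (ε / (32 * n ^ 2) * y))) =
      Real.log (2 * Q) + ε / (32 * n ^ 2) * y := by
    rw [← mul_assoc, Real.log_mul (by positivity) (Real.exp_pos _).ne', Real.log_exp]
  rw [h2] at hk
  have h3 : (n : ℝ) ^ 2 * (Real.log (2 * Q) + ε / (32 * n ^ 2) * y) =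
      n ^ 2 * Real.log (2 * Q) + ε / 32 * y := by
    field_simp
  rw [h3] at hk
  have h4 : Real.log ((q * y + 1) ^ 2 / d) ≤ 2 * Real.log (y + 1) + c1 := by
    have hqy : 0 < q * y + 1 := by positivity
    rw [Real.log_div (by positivity) hd.ne', Real.log_pow]
    have h5 : Real.log (q * y + 1) ≤ Real.log (1 + q) + Real.log (y + 1) := by
      rw [← Real.log_mul (by positivity) hy1.ne']
      apply Real.log_le_log hqy
      nlinarith
    push_cast
    rw [hc1]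
    linarith
  have hk0 : (0 : ℝ) ≤ k := Nat.cast_nonneg k
  have h5 := mul_le_mul_of_nonneg_left h4 hk0
  have h6 : 4 * (g * Real.sqrt (y + 1)) ≤ ε / 8 * (y + 1) + 32 * g ^ 2 / ε := by
    have h7 : 0 ≤ (ε * Real.sqrt (y + 1) - 16 * g) ^ 2 := sq_nonneg _
    have h8' : ∀ s : ℝ, ε / 8 * s ^ 2 + 32 * g ^ 2 / ε - 4 * (g * s) =
        (ε * s - 16 * g) ^ 2 / (8 * ε) := by
      intro s
      field_simp
      ring
    have h8 := h8' (Real.sqrt (y + 1))
    rw [hs2] at h8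
    have h9 : 0 ≤ (ε * Real.sqrt (y + 1) - 16 * g) ^ 2 / (8 * ε) := by positivity
    linarith
  have h7 : (k : ℝ) * (2 * Real.log (y + 1) + c1) =
      4 * (k * (c1 / 4 + Real.log (y + 1) / 2)) := by ring
  linarith

theorem core_unif (ε K : ℝ) (hε : 0 < ε) (hε1 : ε < 1) (hK : 0 < K) :
    ∃ n : ℕ, 0 < n ∧ ∃ η : ℝ, 0 < η ∧ ∀ Q : ℝ, 1 ≤ Q → ∃ C : ℝ, 0 ≤ C ∧
      ∀ W A : Finset ℤ, (0 : ℤ) ∉ W → W.card = n → A.Nonempty → (0 : ℤ) ∉ A →
      (∀ u ∈ W, |(u : ℝ)| ≤ Q * Real.exp (η * Real.log A.card)) →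
      (∀ B : Finset ℤ, B.Nonempty → (0 : ℤ) ∉ B →
        (1 - ε) * (Real.log A.card + Real.log B.card) - C ≤ Real.log (A * B).card) ∨
      (∀ X B : Finset ℤ, X.Nonempty → B.Nonempty → Sz X B ≤ K * Real.log A.card →
        ∃ u ∈ W, ∃ a ∈ A, (1 - ε) * Sz X B - C ≤
          Real.log ((dil (u * a) X + B).card : ℝ)) := by
  obtain ⟨n, hn, q, d, hq, hd, hcore⟩ := core ε K hε hε1 hK
  obtain ⟨η, hη, hexc⟩ := exc_bound hε hq hd hn
  refine ⟨n, hn, η, hη, fun Q hQ => ?_⟩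
  obtain ⟨C4, hC4⟩ := hexc Q hQ
  obtain ⟨C, hC, hmain⟩ := hcore C4
  refine ⟨C, hC, fun W A hW0 hWn hA hA0 hWR => ?_⟩
  have hy : 0 ≤ Real.log (A.card : ℝ) := Real.log_natCast_nonneg _
  have hR : 1 ≤ Q * Real.exp (η * Real.log A.card) := by
    have h2 : 1 ≤ Real.exp (η * Real.log A.card) := Real.one_le_exp (by positivity)
    nlinarith
  obtain ⟨P, hP, hPc⟩ := exc_card W hW0 hR hWR
  rw [hWn] at hPc
  exact hmain W P hW0 hWn.ge hP A hA hA0 (hC4 _ _ hy hPc)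

end Pool.Agent.Helper63.SD
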