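import Pool.Agent.Helper63.SD.Chain

/-!
Averages over dilates of `log |d X + B|`.
-/

set_option autoImplicit false

namespace Pool.Agent.Helper63.SD

open Finset PE
open scoped Pointwise Classical

/-- the mean over `u ∈ W` of `log |u a X + B|` -/
noncomputable def v1 (W : Finset ℤ) (a : ℤ) (X B : Finset ℤ) : ℝ :=
  (∑ u ∈ W, Real.log ((dil (u * a) X + B).card : ℝ)) / W.card

/-- the mean over `a ∈ D` with the weights `w` of `v1` -/
noncomputable def vv (W D : Finset ℤ) (w : ℤ → ℝ) (X B : Finset ℤ) : ℝ :=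
  ∑ a ∈ D, w a * v1 W a X B

lemma v1_nonneg (W : Finset ℤ) (a : ℤ) (X B : Finset ℤ) : 0 ≤ v1 W a X B :=
  div_nonneg (sum_nonneg fun _ _ => Real.log_natCast_nonneg _) (Nat.cast_nonneg _)

lemma vv_nonneg (W D : Finset ℤ) (w : ℤ → ℝ) (hw : ∀ a ∈ D, 0 ≤ w a) (X B : Finset ℤ) :
    0 ≤ vv W D w X B :=
  sum_nonneg fun a ha => mul_nonneg (hw a ha) (v1_nonneg _ _ _ _)

lemma v1_transfer {ι : Type*} (W : Finset ℤ) (hW : W.Nonempty) (a : ℤ) (X B : Finset ℤ)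
    (G : Finset ι) (X' B' : ι → Finset ℤ) (c : ℤ → ℝ) (c0 : ℝ)
    (hc : c0 * W.card ≤ ∑ u ∈ W, c u)
    (hl : ∀ u ∈ W, c u + (∑ s ∈ G, Real.log ((dil (u * a) (X' s) + B' s).card : ℝ)) / G.card ≤
      Real.log ((dil (u * a) X + B).card : ℝ)) :
    c0 + (∑ s ∈ G, v1 W a (X' s) (B' s)) / G.card ≤ v1 W a X B := by
  have hN : (0 : ℝ) < W.card := by exact_mod_cast card_pos.2 hW
  unfold v1
  rw [le_div_iff₀ hN, ← sum_div, sum_comm]
  have h1 := sum_le_sum hl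
  rw [sum_add_distrib, ← sum_div] at h1
  refine le_trans ?_ h1
  have e : (c0 + (∑ u ∈ W, ∑ s ∈ G, Real.log ((dil (u * a) (X' s) + B' s).card : ℝ)) / W.card /
      G.card) * W.card = c0 * W.card +
      (∑ u ∈ W, ∑ s ∈ G, Real.log ((dil (u * a) (X' s) + B' s).card : ℝ)) / G.card := by
    rw [div_right_comm, add_mul, div_mul_cancel₀ _ hN.ne']
  rw [e]
  linarith

lemma vv_transfer {ι : Type*} (W : Finset ℤ) (hW : W.Nonempty) (D : Finset ℤ) (w : ℤ → ℝ)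
    (hw : ∀ a ∈ D, 0 ≤ w a) (hw1 : ∑ a ∈ D, w a = 1) (X B : Finset ℤ)
    (G : Finset ι) (X' B' : ι → Finset ℤ) (c : ℤ → ℤ → ℝ) (c0 : ℝ)
    (hc : ∀ a ∈ D, c0 * W.card ≤ ∑ u ∈ W, c a u)
    (hl : ∀ a ∈ D, ∀ u ∈ W,
      c a u + (∑ s ∈ G, Real.log ((dil (u * a) (X' s) + B' s).card : ℝ)) / G.card ≤
      Real.log ((dil (u * a) X + B).card : ℝ)) :
    c0 + (∑ s ∈ G, vv W D w (X' s) (B' s)) / G.card ≤ vv W D w X B := by
  have h1 : ∀ a ∈ D, w a * (c0 + (∑ s ∈ G, v1 W a (X' s) (B' s)) / G.card) ≤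
      w a * v1 W a X B := fun a ha =>
    mul_le_mul_of_nonneg_left (v1_transfer W hW a X B G X' B' (c a) c0 (hc a ha) (hl a ha))
      (hw a ha)
  refine le_trans (le_of_eq ?_) (sum_le_sum h1)
  have e1 : ∀ a ∈ D, w a * (c0 + (∑ s ∈ G, v1 W a (X' s) (B' s)) / G.card) =
      w a * c0 + (∑ s ∈ G, w a * v1 W a (X' s) (B' s)) / G.card := by
    intro a _
    rw [mul_add, ← mul_sum, mul_div_assoc]
  rw [sum_congr rfl e1, sum_add_distrib, ← sum_mul, hw1, one_mul, ← sum_div, sum_comm]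
  rfl

/-- divisibility by powers of `p` of a multiple of `d` -/
lemma dvd_mul_iff {p : ℕ} (hp : p.Prime) {d : ℤ} {e : ℕ} (h1 : (p : ℤ) ^ e ∣ d)
    (h2 : ¬ (p : ℤ) ^ (e + 1) ∣ d) (i : ℕ) (z : ℤ) :
    (p : ℤ) ^ i ∣ d * z ↔ (p : ℤ) ^ (i - e) ∣ z := by
  obtain ⟨m, rfl⟩ := h1
  have hpz : Prime (p : ℤ) := Nat.prime_iff_prime_int.1 hp
  have hp0 : (p : ℤ) ^ e ≠ 0 := pow_ne_zero _ hpz.ne_zero
  have hm : ¬ (p : ℤ) ∣ m := by
    rintro ⟨c, rfl⟩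
    exact h2 ⟨c, by ring⟩
  rcases le_total i e with hie | hie
  · rw [Nat.sub_eq_zero_of_le hie, pow_zero]
    refine ⟨fun _ => one_dvd _, fun _ => ?_⟩
    exact Dvd.dvd.mul_right (Dvd.dvd.mul_right (pow_dvd_pow _ hie) _) _
  · obtain ⟨k, rfl⟩ := Nat.exists_eq_add_of_le hie
    rw [Nat.add_sub_cancel_left, pow_add, mul_assoc]
    rw [mul_dvd_mul_iff_left hp0]
    constructor
    · intro hd
      exact (hpz.coprime_iff_not_dvd.2 hm).pow_left.dvd_of_dvd_mul_left hd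
    · intro hd
      exact Dvd.dvd.mul_left hd m

/-- a prime power factor of a product -/
lemma ord_mul {p : ℕ} (hp : p.Prime) {a u : ℤ} {e : ℕ} (h1 : (p : ℤ) ^ e ∣ a)
    (h2 : ¬ (p : ℤ) ^ (e + 1) ∣ a) (hu : ¬ (p : ℤ) ∣ u) :
    (p : ℤ) ^ e ∣ u * a ∧ ¬ (p : ℤ) ^ (e + 1) ∣ u * a := by
  have hpz : Prime (p : ℤ) := Nat.prime_iff_prime_int.1 hp
  refine ⟨Dvd.dvd.mul_left h1 u, fun hd => h2 ?_⟩
  exact (hpz.coprime_iff_not_dvd.2 hu).pow_left.dvd_of_dvd_mul_left hd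

/-- most elements of `X` are congruent modulo `Q` -/
def Unpop (θ : ℝ) (Q : ℤ) (X : Finset ℤ) : Prop :=
  ∃ r : ℤ, ((X.filter fun x => ¬ Q ∣ x - r).card : ℝ) ≤ θ * X.card

/-- the entropy of the residue of `d x + y` -/
lemma h_level {p : ℕ} (hp : p.Prime) {d : ℤ} {e : ℕ} (h1 : (p : ℤ) ^ e ∣ d)
    (h2 : ¬ (p : ℤ) ^ (e + 1) ∣ d) (i : ℕ) (X B : Finset ℤ) (hX : X.Nonempty) (hB : B.Nonempty)
    {θ : ℝ} (hθ : 0 < θ) (hθ1 : θ ≤ 1 / 9)
    (hu : Unpop θ ((p : ℤ) ^ (i - e)) X ∨ Unpop θ ((p : ℤ) ^ i) B) :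
    (1 - 4 / Real.log (1 / θ)) * (hq (p ^ (i - e)) X + hq (p ^ i) B) ≤
      h (X ×ˢ B) (fun s => ((d * s.1 + s.2 : ℤ) : ZMod (p ^ i))) := by
  have eX : ∀ r : ℤ, h X (fun x : ℤ => ((d * (x - r) : ℤ) : ZMod (p ^ i))) =
      hq (p ^ (i - e)) X := by
    intro r
    unfold hq
    refine h_congr fun x _ y _ => ?_
    rw [cast_eq_iff, cast_eq_iff]
    push_cast
    have e1 : d * (x - r) - d * (y - r) = d * (x - y) := by ring
    rw [e1, dvd_mul_iff hp h1 h2]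
  have eB : ∀ r : ℤ, h B (fun x : ℤ => ((x - r : ℤ) : ZMod (p ^ i))) = hq (p ^ i) B := by
    intro r
    unfold hq
    refine h_congr fun x _ y _ => ?_
    rw [cast_eq_iff, cast_eq_iff]
    have e1 : x - r - (y - r) = x - y := by ring
    rw [e1]
  have eXB : ∀ r r' : ℤ, h (X ×ˢ B) (fun s => ((d * (s.1 - r) : ℤ) : ZMod (p ^ i)) +
      ((s.2 - r' : ℤ) : ZMod (p ^ i))) =
      h (X ×ˢ B) (fun s => ((d * s.1 + s.2 : ℤ) : ZMod (p ^ i))) := by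
    intro r r'
    refine h_congr fun x _ y _ => ?_
    rw [← Int.cast_add, ← Int.cast_add, cast_eq_iff, cast_eq_iff]
    have e1 : d * (x.1 - r) + (x.2 - r') - (d * (y.1 - r) + (y.2 - r')) =
        d * x.1 + x.2 - (d * y.1 + y.2) := by ring
    rw [e1]
  rcases hu with ⟨r, hr⟩ | ⟨r, hr⟩
  · have hnz : (nz X (fun x : ℤ => ((d * (x - r) : ℤ) : ZMod (p ^ i))) : ℝ) ≤ θ * X.card := by
      refine le_trans ?_ hr
      unfold nz
      have : (X.filter fun g => ((d * (g - r) : ℤ) : ZMod (p ^ i)) ≠ 0) ⊆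
          X.filter fun x => ¬ (p : ℤ) ^ (i - e) ∣ x - r := by
        intro x hx
        rw [mem_filter] at hx ⊢
        refine ⟨hx.1, fun hd => hx.2 ?_⟩
        rw [ZMod.intCast_zmod_eq_zero_iff_dvd]
        push_cast
        rw [dvd_mul_iff hp h1 h2]
        exact hd
      exact_mod_cast card_le_card this
    have main := OS.cell_arb B X hB hX (fun x : ℤ => ((x - 0 : ℤ) : ZMod (p ^ i)))
      (fun x : ℤ => ((d * (x - r) : ℤ) : ZMod (p ^ i))) hθ hθ1 hnz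
    have e3 := h_swap X B (fun x y => ((d * (x - r) : ℤ) : ZMod (p ^ i)) +
      ((y - 0 : ℤ) : ZMod (p ^ i)))
    rw [eXB r 0] at e3
    rw [eX r, eB 0] at main
    rw [e3]
    have e4 : h (B ×ˢ X) (fun x => ((d * (x.2 - r) : ℤ) : ZMod (p ^ i)) +
        ((x.1 - 0 : ℤ) : ZMod (p ^ i))) = h (B ×ˢ X) (fun x => ((x.1 - 0 : ℤ) : ZMod (p ^ i)) +
          ((d * (x.2 - r) : ℤ) : ZMod (p ^ i))) := by
      congr 1
      funext x
      exact add_comm _ _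
    rw [e4, add_comm (hq _ X)]
    exact main
  · have hnz : (nz B (fun x : ℤ => ((x - r : ℤ) : ZMod (p ^ i))) : ℝ) ≤ θ * B.card := by
      refine le_trans ?_ hr
      unfold nz
      have : (B.filter fun g => ((g - r : ℤ) : ZMod (p ^ i)) ≠ 0) ⊆
          B.filter fun x => ¬ (p : ℤ) ^ i ∣ x - r := by
        intro x hx
        rw [mem_filter] at hx ⊢
        refine ⟨hx.1, fun hd => hx.2 ?_⟩
        rw [ZMod.intCast_zmod_eq_zero_iff_dvd]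
        push_cast
        exact hd
      exact_mod_cast card_le_card this
    have main := OS.cell_arb X B hX hB (fun x : ℤ => ((d * (x - 0) : ℤ) : ZMod (p ^ i)))
      (fun x : ℤ => ((x - r : ℤ) : ZMod (p ^ i))) hθ hθ1 hnz
    rw [eX 0, eB r, eXB 0 r] at main
    exact main

/-- `log |X| + log |B|` -/
noncomputable def Sz (X B : Finset ℤ) : ℝ := Real.log X.card + Real.log B.card

theorem Sz_nonneg (X B : Finset ℤ) : 0 ≤ Sz X B :=
  add_nonneg (Real.log_natCast_nonneg _) (Real.log_natCast_nonneg _)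

/-- one level of the digits -/
theorem vv_level {p : ℕ} (hp : p.Prime) (W : Finset ℤ) (hW : W.Nonempty)
    (hWp : ∀ u ∈ W, ¬ (p : ℤ) ∣ u) (D : Finset ℤ) (w : ℤ → ℝ)
    (hw : ∀ a ∈ D, 0 ≤ w a) (hw1 : ∑ a ∈ D, w a = 1) (e : ℕ)
    (hD : ∀ a ∈ D, (p : ℤ) ^ e ∣ a ∧ ¬ (p : ℤ) ^ (e + 1) ∣ a)
    (i : ℕ) (X B : Finset ℤ) (hX : X.Nonempty) (hB : B.Nonempty)
    {θ : ℝ} (hθ : 0 < θ) (hθ1 : θ ≤ 1 / 9)
    (hu : Unpop θ ((p : ℤ) ^ (i - e)) X ∨ Unpop θ ((p : ℤ) ^ i) B) :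
    (1 - 4 / Real.log (1 / θ)) * (hq (p ^ (i - e)) X + hq (p ^ i) B) +
      (∑ s ∈ X ×ˢ B, vv W D w (cls ((p : ℤ) ^ (i - e)) X s.1) (cls ((p : ℤ) ^ i) B s.2)) /
        (X ×ˢ B).card ≤ vv W D w X B := by
  refine vv_transfer W hW D w hw hw1 X B (X ×ˢ B) _ _
    (fun _ _ => (1 - 4 / Real.log (1 / θ)) * (hq (p ^ (i - e)) X + hq (p ^ i) B)) _ ?_ ?_
  · intro a _
    rw [sum_const, nsmul_eq_mul, mul_comm]
  · intro a ha u hu'
    obtain ⟨k1, k2⟩ := ord_mul hp (hD a ha).1 (hD a ha).2 (hWp u hu')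
    have main := chain_pair p (u * a) i (i - e) ((dvd_mul_iff hp k1 k2 _ _).2 dvd_rfl) X B (X ×ˢ B)
      (Subset.refl _) (hX.product hB)
    have hl := h_level hp k1 k2 i X B hX hB hθ hθ1 hu
    linarith

end Pool.Agent.Helper63.SD
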